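import Mathlib

/-!
Definitions for ring class characters of imaginary quadratic fields.
-/

open Complex
open scoped Real ComplexConjugate NumberField

namespace HC

/-- e(z) = exp(2 pi i z) -/
noncomputable def ee (z : ℂ) : ℂ := exp (2 * π * I * z)

/-- binary quadratic form A x^2 + B x y + C y^2 -/
structure Fm where
  A : ℤ
  B : ℤ
  C : ℤ

def Fm.val (F : Fm) (v : ℤ × ℤ) : ℤ := F.A * v.1 ^ 2 + F.B * v.1 * v.2 + F.C * v.2 ^ 2

/-- positive definite of discriminant -N -/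
def Fm.Pos (F : Fm) (N : ℕ) : Prop := 0 < N ∧ 0 < F.A ∧ 4 * F.A * F.C - F.B ^ 2 = N

/-- Gauss sum -/
noncomputable def Fm.G (F : Fm) (u : ℤ) (q : ℕ) (ξ : ℤ × ℤ) : ℂ :=
  ∑ x ∈ Finset.range q, ∑ y ∈ Finset.range q,
    ee (((u * F.val ((x : ℤ), (y : ℤ)) + x * ξ.1 + y * ξ.2 : ℤ) : ℂ) / q)

/-- theta function -/
noncomputable def Fm.th (F : Fm) (N : ℕ) (z : ℂ) : ℂ :=
  ∑' v : ℤ × ℤ, exp (-(2 * π * (F.val v : ℂ) * z / ((√N : ℝ) : ℂ)))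

variable {K : Type*} [Field K] [NumberField K]

/-- α lies in the order of conductor f -/
def Ord (f : ℕ) (α : 𝓞 K) : Prop := ∃ m : ℤ, (f : 𝓞 K) ∣ α - m

/-- I is nonzero and prime to f -/
def Cop (f : ℕ) (I : Ideal (𝓞 K)) : Prop := I ≠ ⊥ ∧ IsCoprime I (Ideal.span {(f : 𝓞 K)})

/-- ψ is a primitive ring class character of conductor f -/
structure RingClass (f : ℕ) (ψ : Ideal (𝓞 K) →*₀ ℂ) : Prop where
  pos : 0 < f
  cop : ∀ I, Cop f I → ‖ψ I‖ = 1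
  ncop : ∀ I, ¬ Cop f I → ψ I = 0
  triv : ∀ α : 𝓞 K, Ord f α → Cop f (Ideal.span {α}) → ψ (Ideal.span {α}) = 1
  prim : ∀ p : ℕ, p.Prime → p ∣ f →
    ∃ α : 𝓞 K, Ord (f / p) α ∧ Cop f (Ideal.span {α}) ∧ ψ (Ideal.span {α}) ≠ 1

/-- coefficient of the L-function: sum over the ideals of norm n -/
noncomputable def ac (ψ : Ideal (𝓞 K) →*₀ ℂ) (n : ℕ) : ℂ :=
  ∑ᶠ (I : Ideal (𝓞 K)) (_ : Ideal.absNorm I = n), ψ I

variable (K) in
/-- the level |D| f^2 -/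
noncomputable def lev (f : ℕ) : ℕ := (NumberField.discr K).natAbs * f ^ 2

/-- the intersection of a and the order of conductor f -/
def lat (f : ℕ) (a : Ideal (𝓞 K)) : AddSubgroup (𝓞 K) where
  carrier := {α | α ∈ a ∧ Ord f α}
  zero_mem' := ⟨a.zero_mem, 0, by simp⟩
  add_mem' := by
    rintro x y ⟨hx, m, hm⟩ ⟨hy, n, hn⟩
    refine ⟨a.add_mem hx hy, m + n, ?_⟩
    have : x + y - ((m + n : ℤ) : 𝓞 K) = (x - m) + (y - n) := by push_cast; ring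
    rw [this]
    exact dvd_add hm hn
  neg_mem' := by
    rintro x ⟨hx, m, hm⟩
    refine ⟨a.neg_mem hx, -m, ?_⟩
    have : -x - ((-m : ℤ) : 𝓞 K) = -(x - m) := by push_cast; ring
    rw [this]
    exact (dvd_neg).2 hm

/-- F is the norm form of lat f a, divided by the norm of a -/
def FormOf (f : ℕ) (a : Ideal (𝓞 K)) (F : Fm) : Prop :=
  ∃ v₁ v₂ : 𝓞 K, (∀ α : 𝓞 K, α ∈ lat f a ↔ ∃ x y : ℤ, α = x * v₁ + y * v₂) ∧
    ∀ x y : ℤ, Algebra.norm ℤ ((x : 𝓞 K) * v₁ + y * v₂) = (Ideal.absNorm a : ℤ) * F.val (x, y)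

/-- ring class equivalence -/
def Eqv (f : ℕ) (a b : Ideal (𝓞 K)) : Prop :=
  ∃ α β : 𝓞 K, Ord f α ∧ Ord f β ∧ Cop f (Ideal.span {α}) ∧ Cop f (Ideal.span {β}) ∧
    Ideal.span {α} * a = Ideal.span {β} * b

/-- T represents the ring classes -/
def Reps (f : ℕ) (T : Finset (Ideal (𝓞 K))) : Prop :=
  (∀ a ∈ T, Cop f a) ∧ ∀ I : Ideal (𝓞 K), Cop f I → ∃! a, a ∈ T ∧ Eqv f I a

/-- norm forms of the representatives -/
def Forms (f : ℕ) (T : Finset (Ideal (𝓞 K))) (F : Ideal (𝓞 K) → Fm) : Prop :=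
  Reps f T ∧ ∀ a ∈ T, FormOf f a (F a) ∧ (F a).Pos (lev K f)

end HC
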