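import Mathlib
import Pool.Agent.Lib.MP_0f5a55_nt.HC.D
open Complex MeasureTheory Set Filter Topology
open scoped Real ComplexConjugate NumberField

namespace HC

variable {K : Type*} [Field K] [NumberField K]

theorem H13_norm_nat (h2 : Module.finrank ℚ K = 2) (n : ℕ) :
    Ideal.absNorm (Ideal.span {(n : 𝓞 K)}) = n ^ 2 := by
  rw [Ideal.absNorm_span_singleton]
  have h : (n : 𝓞 K) = algebraMap ℤ (𝓞 K) (n : ℤ) := by simp
  rw [h, Algebra.norm_algebraMap, NumberField.RingOfIntegers.rank, h2, Int.natAbs_pow,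
    Int.natAbs_natCast]

theorem H13_exists (h2 : Module.finrank ℚ K = 2) (I : Ideal (𝓞 K)) : ∃ J : Ideal (𝓞 K),
    Ideal.absNorm J = Ideal.absNorm I ∧ I * J = Ideal.span {(Ideal.absNorm I : 𝓞 K)} := by
  by_cases hI : I = ⊥
  · refine ⟨⊥, by rw [hI], ?_⟩
    rw [hI, Ideal.absNorm_bot]
    simp
  · have h1 : (Ideal.absNorm I : 𝓞 K) ∈ I := Ideal.absNorm_mem I
    have h3 : I ∣ Ideal.span {(Ideal.absNorm I : 𝓞 K)} := by
      rw [Ideal.dvd_iff_le, Ideal.span_singleton_le_iff_mem]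
      exact h1
    obtain ⟨J, hJ⟩ := h3
    refine ⟨J, ?_, hJ.symm⟩
    have h4 := congrArg Ideal.absNorm hJ
    rw [H13_norm_nat h2, map_mul] at h4
    have h5 : Ideal.absNorm I ≠ 0 := by
      rw [Ne, Ideal.absNorm_eq_zero_iff]
      exact hI
    have h6 : Ideal.absNorm I * Ideal.absNorm J = Ideal.absNorm I * Ideal.absNorm I := by
      rw [← h4, sq]
    exact Nat.eq_of_mul_eq_mul_left (Nat.pos_of_ne_zero h5) h6

/-- Row H13. Conjugate ideals; the coefficients are real. -/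
theorem exists_conj (h2 : Module.finrank ℚ K = 2) : ∃ c : Ideal (𝓞 K) ≃ Ideal (𝓞 K), ∀ I : Ideal (𝓞 K),
    Ideal.absNorm (c I) = Ideal.absNorm I ∧ I * c I = Ideal.span {(Ideal.absNorm I : 𝓞 K)} := by
  choose c hc1 hc2 using H13_exists (K := K) h2
  have hinv : Function.Involutive c := by
    intro I
    by_cases hI : I = ⊥
    · have h1 : c I = ⊥ := by
        rw [← Ideal.absNorm_eq_zero_iff, hc1, hI, Ideal.absNorm_bot]
      have h3 : c (c I) = ⊥ := by
        rw [← Ideal.absNorm_eq_zero_iff, hc1, h1, Ideal.absNorm_bot]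
      rw [h3, hI]
    · have h1 : c I ≠ ⊥ := by
        intro h
        apply hI
        rw [← Ideal.absNorm_eq_zero_iff, ← hc1, h, Ideal.absNorm_bot]
      have h3 : c I * c (c I) = c I * I := by
        rw [hc2, hc1, mul_comm (c I) I, hc2]
      exact mul_left_cancel₀ h1 h3
  exact ⟨hinv.toPerm, fun I => ⟨hc1 I, hc2 I⟩⟩

theorem cop_iff (h2 : Module.finrank ℚ K = 2) {f : ℕ} (hf : 0 < f) {I : Ideal (𝓞 K)} :
    Cop f I ↔ I ≠ ⊥ ∧ (Ideal.absNorm I).Coprime f := by
  have _ := h2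
  have _ := hf
  unfold Cop
  refine and_congr_right fun hI => ⟨?_, ?_⟩
  · intro h
    rw [Nat.coprime_iff_gcd_eq_one]
    by_contra hne
    obtain ⟨p, hp, hpd⟩ := Nat.exists_prime_and_dvd hne
    have hpI : p ∣ Ideal.absNorm I := hpd.trans (Nat.gcd_dvd_left _ _)
    obtain ⟨f', hf'⟩ := hpd.trans (Nat.gcd_dvd_right _ _)
    have h5 : Ideal.absNorm I ≠ 0 := by
      rw [Ne, Ideal.absNorm_eq_zero_iff]
      exact hI
    have hcard : Nat.card (𝓞 K ⧸ I) = Ideal.absNorm I := by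
      rw [Ideal.absNorm_apply]
      rfl
    have : Finite (𝓞 K ⧸ I) := Nat.finite_of_card_ne_zero (by rw [hcard]; exact h5)
    let : Fintype (𝓞 K ⧸ I) := Fintype.ofFinite _
    have : Fact p.Prime := ⟨hp⟩
    obtain ⟨x, hx⟩ := exists_prime_addOrderOf_dvd_card (G := 𝓞 K ⧸ I) p (by
      rw [← Nat.card_eq_fintype_card, hcard]
      exact hpI)
    rw [Ideal.isCoprime_iff_exists] at h
    obtain ⟨a, ha, b, hb, hab⟩ := h
    rw [Ideal.mem_span_singleton] at hb
    obtain ⟨b', hb'⟩ := hb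
    have h6 : (p : 𝓞 K ⧸ I) * x = 0 := by
      have := addOrderOf_nsmul_eq_zero x
      rw [hx, nsmul_eq_mul] at this
      exact this
    have h7 : Ideal.Quotient.mk I a = 0 := Ideal.Quotient.eq_zero_iff_mem.mpr ha
    have h8 : x = 0 := by
      have h9 : (1 : 𝓞 K ⧸ I) = (p : 𝓞 K ⧸ I) * ((f' : 𝓞 K ⧸ I) * Ideal.Quotient.mk I b') := by
        have h10 := congrArg (Ideal.Quotient.mk I) hab
        rw [map_add, h7, zero_add, map_one, hb', hf', map_mul, map_natCast] at h10
        rw [← h10]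
        push_cast
        ring
      calc x = 1 * x := (one_mul x).symm
        _ = ((f' : 𝓞 K ⧸ I) * Ideal.Quotient.mk I b') * ((p : 𝓞 K ⧸ I) * x) := by
            rw [h9]
            ring
        _ = 0 := by rw [h6, mul_zero]
    rw [h8, addOrderOf_zero] at hx
    exact hp.one_lt.ne hx
  · intro h
    have h1 : IsCoprime ((Ideal.absNorm I : ℕ) : ℤ) (f : ℤ) := Nat.isCoprime_iff_coprime.mpr h
    obtain ⟨u, v, huv⟩ := h1
    rw [Ideal.isCoprime_iff_exists]
    refine ⟨(u : 𝓞 K) * (Ideal.absNorm I : 𝓞 K), I.mul_mem_left _ (Ideal.absNorm_mem I),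
      (v : 𝓞 K) * (f : 𝓞 K), Ideal.mul_mem_left _ _ (Ideal.mem_span_singleton_self _), ?_⟩
    have := congrArg (fun n : ℤ => (n : 𝓞 K)) huv
    push_cast at this
    exact this

theorem ac_real (h2 : Module.finrank ℚ K = 2) {f : ℕ} {ψ : Ideal (𝓞 K) →*₀ ℂ} (h : RingClass f ψ) {n : ℕ}
    (hn : 0 < n) : conj (ac ψ n) = ac ψ n := by
  classical
  obtain ⟨c, hc⟩ := exists_conj (K := K) h2
  have hkey : ∀ I : Ideal (𝓞 K), Ideal.absNorm I = n → conj (ψ I) = ψ (c I) := by
    intro I hI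
    have hI0 : I ≠ ⊥ := by
      intro h0
      rw [h0, Ideal.absNorm_bot] at hI
      omega
    have hcI0 : c I ≠ ⊥ := by
      intro h0
      have := (hc I).1
      rw [h0, Ideal.absNorm_bot] at this
      omega
    by_cases hcop : Cop f I
    · have hcop' : Cop f (c I) := by
        rw [cop_iff h2 h.pos] at hcop ⊢
        rw [(hc I).1]
        exact ⟨hcI0, hcop.2⟩
      have hN : Cop f (Ideal.span {(Ideal.absNorm I : 𝓞 K)}) := by
        rw [← (hc I).2]
        exact ⟨mul_ne_zero hI0 hcI0, hcop.2.mul_left hcop'.2⟩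
      have hO : Ord f (Ideal.absNorm I : 𝓞 K) := ⟨(Ideal.absNorm I : ℤ), by simp⟩
      have h1 := h.triv _ hO hN
      rw [← (hc I).2, map_mul] at h1
      have h3 := h.cop I hcop
      have h4 : ψ I * conj (ψ I) = 1 := by
        rw [Complex.mul_conj, Complex.normSq_eq_norm_sq, h3]
        simp
      have h5 : ψ I ≠ 0 := by
        intro h0
        rw [h0, norm_zero] at h3
        exact zero_ne_one h3
      exact mul_left_cancel₀ h5 (h4.trans h1.symm)
    · have hcop' : ¬ Cop f (c I) := by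
        intro h6
        apply hcop
        rw [cop_iff h2 h.pos] at h6 ⊢
        rw [(hc I).1] at h6
        exact ⟨hI0, h6.2⟩
      rw [h.ncop I hcop, h.ncop _ hcop', map_zero]
  have hac : ac ψ n = ∑ᶠ I : Ideal (𝓞 K), if Ideal.absNorm I = n then ψ I else 0 := by
    unfold ac
    exact finsum_congr fun I => finsum_eq_if
  rw [hac]
  have h1 : conj (∑ᶠ I : Ideal (𝓞 K), if Ideal.absNorm I = n then ψ I else 0) =
      ∑ᶠ I : Ideal (𝓞 K), conj (if Ideal.absNorm I = n then ψ I else 0) :=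
    (starAddEquiv : ℂ ≃+ ℂ).map_finsum _
  rw [h1]
  have h3 : ∀ I : Ideal (𝓞 K), conj (if Ideal.absNorm I = n then ψ I else 0) =
      (if Ideal.absNorm (c I) = n then ψ (c I) else 0) := by
    intro I
    rw [(hc I).1]
    split_ifs with h4
    · exact hkey I h4
    · simp
  rw [finsum_congr h3]
  exact finsum_comp_equiv c (f := fun I => if Ideal.absNorm I = n then ψ I else 0)

end HC
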