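import Mathlib
import Pool.Agent.Lib.MP_0f5a55_nt.HC.D
open Complex MeasureTheory Set Filter Topology
open scoped Real ComplexConjugate NumberField

namespace HC

variable {K : Type*} [Field K] [NumberField K]

theorem H17_ord_one (f : ℕ) : Ord f (1 : 𝓞 K) := ⟨1, by simp⟩

theorem H17_ord_mul {f : ℕ} {α β : 𝓞 K} (hα : Ord f α) (hβ : Ord f β) : Ord f (α * β) := by
  obtain ⟨m, x, hx⟩ := hα
  obtain ⟨n, y, hy⟩ := hβ
  refine ⟨m * n, α * y + x * n, ?_⟩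
  have h1 : α = m + f * x := by rw [← hx]; ring
  have h2 : β = n + f * y := by rw [← hy]; ring
  push_cast
  rw [h2]
  nth_rewrite 1 [h1]
  rw [h1]
  ring

theorem H17_cop_one (f : ℕ) : Cop f (Ideal.span {(1 : 𝓞 K)}) := by
  refine ⟨by simp, ?_⟩
  rw [Ideal.span_singleton_one, ← Ideal.one_eq_top]
  exact isCoprime_one_left

theorem H17_cop_mul {f : ℕ} {a b : Ideal (𝓞 K)} : Cop f (a * b) ↔ Cop f a ∧ Cop f b := by
  unfold Cop
  rw [IsCoprime.mul_left_iff, Ne, Ideal.mul_eq_bot]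
  tauto

theorem H17_cop_span_mul {f : ℕ} {α β : 𝓞 K} (hα : Cop f (Ideal.span {α}))
    (hβ : Cop f (Ideal.span {β})) : Cop f (Ideal.span {α * β}) := by
  rw [← Ideal.span_singleton_mul_span_singleton]
  exact H17_cop_mul.2 ⟨hα, hβ⟩


/-- Row H17. Ring class equivalence is an equivalence relation with finitely many classes. -/
theorem Eqv.refl {f : ℕ} (hf : 0 < f) (a : Ideal (𝓞 K)) : Eqv f a a := by
  exact ⟨1, 1, H17_ord_one f, H17_ord_one f, H17_cop_one f, H17_cop_one f, rfl⟩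

theorem Eqv.symm {f : ℕ} {a b : Ideal (𝓞 K)} (h : Eqv f a b) : Eqv f b a := by
  obtain ⟨α, β, h1, h2, h3, h4, h5⟩ := h
  exact ⟨β, α, h2, h1, h4, h3, h5.symm⟩

theorem Eqv.trans {f : ℕ} (hf : 0 < f) {a b c : Ideal (𝓞 K)} (h : Eqv f a b) (h' : Eqv f b c) : Eqv f a c := by
  obtain ⟨α, β, h1, h2, h3, h4, h5⟩ := h
  obtain ⟨γ, δ, g1, g2, g3, g4, g5⟩ := h'
  refine ⟨γ * α, β * δ, H17_ord_mul g1 h1, H17_ord_mul h2 g2, H17_cop_span_mul g3 h3,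
    H17_cop_span_mul h4 g4, ?_⟩
  rw [← Ideal.span_singleton_mul_span_singleton, ← Ideal.span_singleton_mul_span_singleton,
    mul_assoc, h5, mul_left_comm, g5, mul_assoc]

theorem Eqv.mul {f : ℕ} (hf : 0 < f) {a b : Ideal (𝓞 K)} (c : Ideal (𝓞 K)) (h : Eqv f a b) :
    Eqv f (a * c) (b * c) := by
  obtain ⟨α, β, h1, h2, h3, h4, h5⟩ := h
  refine ⟨α, β, h1, h2, h3, h4, ?_⟩
  rw [← mul_assoc, h5, mul_assoc]

theorem Eqv.cancel {f : ℕ} {a b c : Ideal (𝓞 K)} (hc : Cop f c) (h : Eqv f (a * c) (b * c)) : Eqv f a b := by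
  obtain ⟨α, β, h1, h2, h3, h4, h5⟩ := h
  refine ⟨α, β, h1, h2, h3, h4, ?_⟩
  rw [← mul_assoc, ← mul_assoc] at h5
  exact mul_right_cancel₀ (b := c) hc.1 h5

theorem Eqv.char {f : ℕ} {ψ : Ideal (𝓞 K) →*₀ ℂ} (hψ : RingClass f ψ) {a b : Ideal (𝓞 K)} (h : Eqv f a b) :
    ψ a = ψ b := by
  obtain ⟨α, β, h1, h2, h3, h4, h5⟩ := h
  have h6 := congrArg ψ h5
  rw [map_mul, map_mul, hψ.triv α h1 h3, hψ.triv β h2 h4, one_mul, one_mul] at h6
  exact h6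

theorem cop_mul {f : ℕ} {a b : Ideal (𝓞 K)} : Cop f (a * b) ↔ Cop f a ∧ Cop f b := by
  exact H17_cop_mul

/-- every ideal prime to f divides a principal ideal prime to f -/
theorem H17_exists_inv {f : ℕ} {I : Ideal (𝓞 K)} (hI : Cop f I) :
    ∃ J : Ideal (𝓞 K), ∃ α : 𝓞 K, Cop f J ∧ I * J = Ideal.span {α} := by
  obtain ⟨hI0, hIc⟩ := hI
  have key : ∃ α : 𝓞 K, α ∈ I ∧ α ≠ 0 ∧ IsCoprime (Ideal.span {α}) (Ideal.span {(f : 𝓞 K)}) := by
    obtain ⟨x, hx, y, hy, hxy⟩ := Ideal.isCoprime_iff_exists.1 hIc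
    by_cases hx0 : x = 0
    · obtain ⟨z, hz, hz0⟩ := Submodule.exists_mem_ne_zero_of_ne_bot hI0
      refine ⟨z, hz, hz0, ?_⟩
      rw [hx0, zero_add] at hxy
      have : Ideal.span {(f : 𝓞 K)} = ⊤ := by
        rw [Ideal.eq_top_iff_one, ← hxy]
        exact hy
      rw [this, ← Ideal.one_eq_top]
      exact isCoprime_one_right
    · refine ⟨x, hx, hx0, ?_⟩
      exact Ideal.isCoprime_iff_exists.2 ⟨x, Ideal.mem_span_singleton_self x, y, hy, hxy⟩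
  obtain ⟨α, hα, hα0, hαc⟩ := key
  have hdvd : I ∣ Ideal.span {α} := by
    rw [Ideal.dvd_span_singleton]
    exact hα
  obtain ⟨J, hJ⟩ := hdvd
  refine ⟨J, α, ?_, hJ.symm⟩
  have hcop : Cop f (I * J) := by
    rw [← hJ]
    exact ⟨by simpa using hα0, hαc⟩
  exact (H17_cop_mul.1 hcop).2

/-- the key step for finiteness -/
theorem H17_eqv_of {f : ℕ} {I I' J : Ideal (𝓞 K)} {α α' : 𝓞 K} (hI : Cop f I) (hI' : Cop f I')
    (hJ : Cop f J) (h : I * J = Ideal.span {α}) (h' : I' * J = Ideal.span {α'})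
    (hαα : α - α' ∈ Ideal.span {(f : 𝓞 K)}) : Eqv f I I' := by
  have hcα' : Cop f (Ideal.span {α'}) := by
    rw [← h']
    exact H17_cop_mul.2 ⟨hI', hJ⟩
  have hcα : Cop f (Ideal.span {α}) := by
    rw [← h]
    exact H17_cop_mul.2 ⟨hI, hJ⟩
  have hα'0 : α' ≠ 0 := by
    intro h0
    exact hcα'.1 (by rw [h0]; simp)
  have hα0 : α ≠ 0 := by
    intro h0
    exact hcα.1 (by rw [h0]; simp)
  -- γ with γ α' = 1 mod f, γ ≠ 0
  have hγ : ∃ γ : 𝓞 K, γ ≠ 0 ∧ γ * α' - 1 ∈ Ideal.span {(f : 𝓞 K)} := by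
    obtain ⟨x, hx, y, hy, hxy⟩ := Ideal.isCoprime_iff_exists.1 hcα'.2
    obtain ⟨γ, rfl⟩ := Ideal.mem_span_singleton'.1 hx
    have h1 : γ * α' - 1 ∈ Ideal.span {(f : 𝓞 K)} := by
      have : γ * α' - 1 = -y := by rw [← hxy]; ring
      rw [this]
      exact (Ideal.span {(f : 𝓞 K)}).neg_mem hy
    by_cases hγ0 : γ = 0
    · refine ⟨1, one_ne_zero, ?_⟩
      have htop : Ideal.span {(f : 𝓞 K)} = ⊤ := by
        rw [Ideal.eq_top_iff_one]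
        rw [hγ0, zero_mul, zero_sub] at h1
        simpa using (Ideal.span {(f : 𝓞 K)}).neg_mem h1
      rw [htop]
      exact Submodule.mem_top
    · exact ⟨γ, hγ0, h1⟩
  obtain ⟨γ, hγ0, hγ1⟩ := hγ
  have hγ2 : γ * α - 1 ∈ Ideal.span {(f : 𝓞 K)} := by
    have : γ * α - 1 = γ * (α - α') + (γ * α' - 1) := by ring
    rw [this]
    exact Ideal.add_mem _ (Ideal.mul_mem_left _ γ hαα) hγ1
  have hgen : ∀ z : 𝓞 K, z ≠ 0 → z - 1 ∈ Ideal.span {(f : 𝓞 K)} →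
      Ord f z ∧ Cop f (Ideal.span {z}) := by
    intro z hz0 hz
    refine ⟨⟨1, ?_⟩, by simpa using hz0, ?_⟩
    · have := Ideal.mem_span_singleton.1 hz
      simpa using this
    · refine Ideal.isCoprime_iff_exists.2 ⟨z, Ideal.mem_span_singleton_self z, -(z - 1),
        (Ideal.span {(f : 𝓞 K)}).neg_mem hz, by ring⟩
  obtain ⟨a1, a2⟩ := hgen (γ * α') (mul_ne_zero hγ0 hα'0) hγ1
  obtain ⟨b1, b2⟩ := hgen (γ * α) (mul_ne_zero hγ0 hα0) hγ2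
  refine ⟨γ * α', γ * α, a1, b1, a2, b2, ?_⟩
  refine mul_right_cancel₀ (b := J) hJ.1 ?_
  rw [mul_assoc, mul_assoc, h, h', Ideal.span_singleton_mul_span_singleton,
    Ideal.span_singleton_mul_span_singleton]
  congr 2
  ring

theorem H17_class {f : ℕ} (C : ClassGroup (𝓞 K)) : ∃ J : Ideal (𝓞 K), Cop f J ∧
    ∀ I : Ideal (𝓞 K), Cop f I → ∀ h : I ∈ nonZeroDivisors (Ideal (𝓞 K)),
      ClassGroup.mk0 ⟨I, h⟩ = C → ∃ α : 𝓞 K, I * J = Ideal.span {α} := by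
  by_cases hC : ∃ I₀ : Ideal (𝓞 K), Cop f I₀ ∧ ∃ h : I₀ ∈ nonZeroDivisors (Ideal (𝓞 K)),
      ClassGroup.mk0 ⟨I₀, h⟩ = C
  · obtain ⟨I₀, hI₀, h₀, hC₀⟩ := hC
    obtain ⟨J, α, hJ, hα⟩ := H17_exists_inv hI₀
    refine ⟨J, hJ, ?_⟩
    intro I hI h hIC
    have hJ0 : J ∈ nonZeroDivisors (Ideal (𝓞 K)) := mem_nonZeroDivisors_of_ne_zero hJ.1
    have hα0 : α ≠ 0 := by
      intro h0
      have : I₀ * J = ⊥ := by rw [hα, h0]; simp
      rw [Ideal.mul_eq_bot] at this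
      rcases this with h1 | h1
      · exact hI₀.1 h1
      · exact hJ.1 h1
    have h1 : ClassGroup.mk0 ⟨I₀, h₀⟩ = (ClassGroup.mk0 ⟨J, hJ0⟩)⁻¹ :=
      ClassGroup.mk0_eq_mk0_inv_iff.2 ⟨α, hα0, hα⟩
    have h2 : ClassGroup.mk0 ⟨I, h⟩ = (ClassGroup.mk0 ⟨J, hJ0⟩)⁻¹ := by
      rw [hIC, ← hC₀, h1]
    obtain ⟨β, -, hβ⟩ := ClassGroup.mk0_eq_mk0_inv_iff.1 h2
    exact ⟨β, hβ⟩
  · refine ⟨⊤, ⟨by simp, ?_⟩, ?_⟩
    · rw [← Ideal.one_eq_top]
      exact isCoprime_one_left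
    · intro I hI h hIC
      exact absurd ⟨I, hI, h, hIC⟩ hC

theorem exists_reps {f : ℕ} (hf : 0 < f) : ∃ T : Finset (Ideal (𝓞 K)), Reps f T := by
  classical
  let s : Setoid {I : Ideal (𝓞 K) // Cop f I} :=
    { r := fun I J => Eqv f I.1 J.1
      iseqv := ⟨fun I => Eqv.refl hf I.1, fun h => Eqv.symm h, fun h h' => Eqv.trans hf h h'⟩ }
  have hf0 : Ideal.span {(f : 𝓞 K)} ≠ ⊥ := by
    rw [Ne, Ideal.span_singleton_eq_bot]
    exact_mod_cast hf.ne'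
  haveI hfq : Finite (𝓞 K ⧸ Ideal.span {(f : 𝓞 K)}) :=
    Ring.HasFiniteQuotients.finiteQuotient hf0
  choose J hJ hJα using fun C : ClassGroup (𝓞 K) => H17_class (f := f) C
  let c : {I : Ideal (𝓞 K) // Cop f I} → ClassGroup (𝓞 K) := fun I =>
    ClassGroup.mk0 ⟨I.1, mem_nonZeroDivisors_of_ne_zero I.2.1⟩
  have hα : ∀ I : {I : Ideal (𝓞 K) // Cop f I}, ∃ α : 𝓞 K, I.1 * J (c I) = Ideal.span {α} :=
    fun I => hJα (c I) I.1 I.2 _ rfl
  choose α hα using hα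
  let φ : {I : Ideal (𝓞 K) // Cop f I} → ClassGroup (𝓞 K) × (𝓞 K ⧸ Ideal.span {(f : 𝓞 K)}) :=
    fun I => (c I, Ideal.Quotient.mk _ (α I))
  have hφ : ∀ I I', φ I = φ I' → Eqv f I.1 I'.1 := by
    intro I I' h
    have h1 : c I = c I' := congrArg Prod.fst h
    have h2 : Ideal.Quotient.mk (Ideal.span {(f : 𝓞 K)}) (α I) = Ideal.Quotient.mk _ (α I') :=
      congrArg Prod.snd h
    have h3 := hα I'
    rw [← h1] at h3
    exact H17_eqv_of I.2 I'.2 (hJ (c I)) (hα I) h3 (Ideal.Quotient.eq.1 h2)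
  haveI : Finite (Quotient s) := by
    refine Finite.of_injective (fun q : Quotient s => φ q.out) ?_
    intro q q' h
    have h1 : s.r q.out q'.out := hφ _ _ h
    rw [← Quotient.out_eq q, ← Quotient.out_eq q']
    exact Quotient.sound h1
  haveI := Fintype.ofFinite (Quotient s)
  refine ⟨Finset.univ.image (fun q : Quotient s => q.out.1), ?_, ?_⟩
  · intro a ha
    rw [Finset.mem_image] at ha
    obtain ⟨q, -, rfl⟩ := ha
    exact q.out.2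
  · intro I hI
    refine ⟨(Quotient.mk s ⟨I, hI⟩).out.1, ⟨Finset.mem_image.2 ⟨_, Finset.mem_univ _, rfl⟩, ?_⟩, ?_⟩
    · exact Eqv.symm (Quotient.mk_out (s := s) ⟨I, hI⟩)
    · rintro b ⟨hb, hb'⟩
      rw [Finset.mem_image] at hb
      obtain ⟨q, -, rfl⟩ := hb
      have h1 : Quotient.mk s ⟨I, hI⟩ = q := by
        rw [← Quotient.out_eq q]
        exact Quotient.sound hb'
      rw [h1]

end HC
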