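import Mathlib
import Pool.Agent.Lib.MP_0f5a55_nt.HC.H13
import Pool.Agent.Lib.MP_0f5a55_nt.HC.H17
open Complex MeasureTheory Set Filter Topology
open scoped Real ComplexConjugate NumberField

namespace HC

variable {K : Type*} [Field K] [NumberField K]

/-- A rational integer dividing 1 in the ring of integers is a unit. -/
private theorem H18_dvd_one {g : ℤ} (h : ((g : ℤ) : 𝓞 K) ∣ 1) : IsUnit g := by
  have h1 : IsUnit ((g : ℤ) : 𝓞 K) := isUnit_of_dvd_one h
  have h2 : IsUnit (Algebra.norm ℤ ((g : ℤ) : 𝓞 K)) := h1.map _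
  have h3 : Algebra.norm ℤ ((g : ℤ) : 𝓞 K) = g ^ Module.finrank ℤ (𝓞 K) := by
    have := Algebra.norm_algebraMap (R := ℤ) (S := 𝓞 K) g
    simpa using this
  rw [h3] at h2
  have hpos : Module.finrank ℤ (𝓞 K) ≠ 0 := by
    have : 0 < Module.finrank ℤ (𝓞 K) := Module.finrank_pos
    omega
  exact (isUnit_pow_iff hpos).1 h2

private theorem H18_cast_dvd {R : Type*} [CommRing R] {a b : ℤ} (h : a ∣ b) : (a : R) ∣ (b : R) := by
  obtain ⟨c, rfl⟩ := h
  exact ⟨c, by push_cast; ring⟩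

/-- If m and f are coprime in the ring of integers then so are they in ℤ. -/
private theorem H18_coprime {m f : ℤ} (h : IsCoprime ((m : ℤ) : 𝓞 K) ((f : ℤ) : 𝓞 K)) :
    IsCoprime m f := by
  rw [Int.isCoprime_iff_gcd_eq_one]
  obtain ⟨x, y, hxy⟩ := h
  have h1 : (((Int.gcd m f : ℕ) : ℤ) : 𝓞 K) ∣ 1 := by
    rw [← hxy]
    refine dvd_add ?_ ?_
    · exact Dvd.dvd.mul_left (H18_cast_dvd (Int.gcd_dvd_left ..)) _
    · exact Dvd.dvd.mul_left (H18_cast_dvd (Int.gcd_dvd_right ..)) _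
  have h2 := H18_dvd_one h1
  rw [Int.isUnit_iff] at h2
  rcases h2 with h2 | h2
  · exact_mod_cast h2
  · exfalso
    have : (0 : ℤ) ≤ ((Int.gcd m f : ℕ) : ℤ) := Int.natCast_nonneg _
    omega

/-- the order is closed under division by elements prime to f, algebraic part -/
private theorem H18_alg {R : Type*} [CommRing R] {f : ℕ} {β δ γ t s : R} {m n a b : ℤ}
    (hm : β - m = f * t) (hn : γ - n = f * s) (h : β * δ = γ) (hab : a * m + b * (f : ℤ) = 1) :
    δ - ((a * n : ℤ) : R) = f * (a * s + b * δ - a * t * δ) := by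
  have hab' : (a : R) * m + b * f = 1 := by exact_mod_cast congrArg (Int.cast (R := R)) hab
  have hb : β = m + f * t := by rw [← hm]; ring
  have hg : γ = n + f * s := by rw [← hn]; ring
  have h3 : δ = (a : R) * m * δ + b * f * δ := by
    rw [← add_mul, hab', one_mul]
  have h4 : (m : R) * δ = n + f * s - f * t * δ := by
    rw [← hg, ← h, hb]; ring
  push_cast
  calc δ - a * n = (a : R) * (m * δ) + b * f * δ - a * n := by
        rw [← mul_assoc, ← h3]
    _ = f * (a * s + b * δ - a * t * δ) := by rw [h4]; ring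

private theorem H18_alg2 {R : Type*} [CommRing R] {β x y t : R} {m : ℤ} {f : ℕ}
    (hm : β - m = f * t) (hxy : x * β + y * f = 1) : IsCoprime ((m : ℤ) : R) (((f : ℕ) : ℤ) : R) := by
  refine ⟨x, x * t + y, ?_⟩
  have hb : β = m + f * t := by rw [← hm]; ring
  rw [hb] at hxy
  rw [← hxy]
  push_cast
  ring

/-- the order is closed under division by elements prime to f -/
private theorem H18_ord {f : ℕ} {β δ γ : 𝓞 K} (hβ : Ord f β) (hc : Cop f (Ideal.span {β}))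
    (hγ : Ord f γ) (h : β * δ = γ) : Ord f δ := by
  obtain ⟨m, t, hm⟩ := hβ
  obtain ⟨n, s, hn⟩ := hγ
  have h1 : IsCoprime β (f : 𝓞 K) := by
    have := hc.2
    rwa [Ideal.isCoprime_span_singleton_iff] at this
  obtain ⟨x, y, hxy⟩ := h1
  obtain ⟨a, b, hab⟩ := H18_coprime (H18_alg2 hm hxy)
  exact ⟨a * n, _, H18_alg hm hn h hab⟩

omit [NumberField K] in
private theorem H18_ord_mul {f : ℕ} {α β : 𝓞 K} (hα : Ord f α) (hβ : Ord f β) : Ord f (α * β) := by
  obtain ⟨m, t, hm⟩ := hα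
  obtain ⟨n, s, hn⟩ := hβ
  refine ⟨m * n, t * n + m * s + f * t * s, ?_⟩
  have h1 : α = m + f * t := by rw [← hm]; ring
  have h2 : β = n + f * s := by rw [← hn]; ring
  rw [h1, h2]
  push_cast
  ring

omit [NumberField K] in
private theorem H18_ord_nat (f : ℕ) (n : ℕ) : Ord f ((n : ℕ) : 𝓞 K) := ⟨n, by simp⟩

private theorem H18_exist {R : Type*} [CommRing R] [IsDedekindDomain R] {I J a : Ideal R} {α β ν : R}
    (hβ : β ≠ 0) (h1 : I * J = Ideal.span {ν}) (h2 : Ideal.span {α} * J = Ideal.span {β} * a) :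
    ∃ δ, β * δ = α * ν ∧ I * a = Ideal.span {δ} := by
  have hβ0' : Ideal.span {β} ≠ (0 : Ideal R) := by
    rw [Ne, Ideal.zero_eq_bot, Ideal.span_singleton_eq_bot]
    exact hβ
  have key : Ideal.span {β} * (I * a) = Ideal.span {α * ν} := by
    rw [← Ideal.span_singleton_mul_span_singleton, ← h1, mul_left_comm, ← h2, mul_left_comm]
  have h6 : Ideal.span {β} * (I * a) ≤ Ideal.span {β} := Ideal.mul_le_left
  rw [key, Ideal.span_singleton_le_span_singleton] at h6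
  obtain ⟨δ, hδ⟩ := h6
  refine ⟨δ, hδ.symm, ?_⟩
  apply mul_left_cancel₀ hβ0'
  rw [key, hδ, Ideal.span_singleton_mul_span_singleton]

private theorem H18_uniq {R : Type*} [CommRing R] [IsDedekindDomain R] {I a a' : Ideal R} {α α' : R}
    (hI : I ≠ ⊥) (h1 : I * a = Ideal.span {α}) (h2 : I * a' = Ideal.span {α'}) :
    Ideal.span {α'} * a = Ideal.span {α} * a' := by
  have hI0 : I ≠ 0 := hI
  apply mul_left_cancel₀ hI0
  rw [mul_left_comm, h1, ← h2, mul_assoc, mul_comm a' (Ideal.span {α})]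

private theorem H18_cop_conj (h2 : Module.finrank ℚ K = 2) {f : ℕ} (hf : 0 < f)
    {I J : Ideal (𝓞 K)} (hI : Cop f I) (h : Ideal.absNorm J = Ideal.absNorm I) : Cop f J := by
  have hI' := (cop_iff h2 hf).1 hI
  refine (cop_iff h2 hf).2 ⟨?_, ?_⟩
  · intro h0
    have h1 : Ideal.absNorm J = 0 := Ideal.absNorm_eq_zero_iff.2 h0
    exact hI'.1 (Ideal.absNorm_eq_zero_iff.1 (h.symm.trans h1))
  · exact h ▸ hI'.2

omit [NumberField K] in
private theorem H18_ne_zero {f : ℕ} {β : 𝓞 K} (h : Cop f (Ideal.span {β})) : β ≠ 0 := by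
  intro h0
  exact h.1 (Ideal.span_singleton_eq_bot.2 h0)

/-- Row H18. Inverse classes. -/
theorem exists_unique_mul (h2 : Module.finrank ℚ K = 2) {f : ℕ} (hf : 0 < f) {T : Finset (Ideal (𝓞 K))}
    (hT : Reps f T) {I : Ideal (𝓞 K)} (hI : Cop f I) :
    ∃! a, a ∈ T ∧ ∃ α : 𝓞 K, Ord f α ∧ Cop f (Ideal.span {α}) ∧ I * a = Ideal.span {α} := by
  obtain ⟨c, hc⟩ := exists_conj (K := K) h2
  obtain ⟨a, ⟨haT, α, β, hα, hβ, hαc, hβc, hαβ⟩, -⟩ := hT.2 (c I) (H18_cop_conj h2 hf hI (hc I).1)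
  obtain ⟨δ, hδ, hIa⟩ := H18_exist (H18_ne_zero hβc) (hc I).2 hαβ
  have hδO : Ord f δ := H18_ord hβ hβc (H18_ord_mul hα (H18_ord_nat f _)) hδ
  have hδc : Cop f (Ideal.span {δ}) := hIa ▸ cop_mul.2 ⟨hI, hT.1 a haT⟩
  refine ⟨a, ⟨haT, δ, hδO, hδc, hIa⟩, ?_⟩
  rintro a' ⟨ha'T, α', hα', hα'c, hα'I⟩
  have hE : Eqv f a a' := ⟨α', δ, hα', hδO, hα'c, hδc, H18_uniq hI.1 hIa hα'I⟩
  obtain ⟨b, -, hb⟩ := hT.2 a (hT.1 a haT)
  exact (hb a' ⟨ha'T, hE⟩).trans (hb a ⟨haT, Eqv.refl hf a⟩).symm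

end HC
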