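import Mathlib
import Pool.Agent.Lib.MP_0f5a55_nt.HC.D
open Complex MeasureTheory Set Filter Topology
open scoped Real ComplexConjugate NumberField

namespace HC

variable {K : Type*} [Field K] [NumberField K]

/-- the finite set of the ideals of norm n -/
noncomputable def H09_S (K : Type*) [Field K] [NumberField K] (n : ℕ) : Finset (Ideal (𝓞 K)) :=
  (Ideal.finite_setOfPred_absNorm_eq (S := 𝓞 K) n).toFinset

theorem H09_mem (n : ℕ) (I : Ideal (𝓞 K)) : I ∈ H09_S K n ↔ Ideal.absNorm I = n := by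
  unfold H09_S
  rw [Set.Finite.mem_toFinset]
  rfl

theorem H09_ac (ψ : Ideal (𝓞 K) →*₀ ℂ) (n : ℕ) : ac ψ n = ∑ I ∈ H09_S K n, ψ I :=
  finsum_mem_eq_finite_toFinset_sum (fun I => ψ I)
    (Ideal.finite_setOfPred_absNorm_eq (S := 𝓞 K) n)

/-- ideals of coprime norms are coprime -/
theorem H09_coprime {I J : Ideal (𝓞 K)} (h : Nat.Coprime (Ideal.absNorm I) (Ideal.absNorm J)) :
    IsCoprime I J := by
  rw [Ideal.isCoprime_iff_exists]
  have h1 : ((Ideal.absNorm I : ℕ) : 𝓞 K) ∈ I := Ideal.absNorm_mem I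
  have h2 : ((Ideal.absNorm J : ℕ) : 𝓞 K) ∈ J := Ideal.absNorm_mem J
  have h3 := Nat.isCoprime_iff_coprime.2 h
  obtain ⟨a, b, hab⟩ := h3
  refine ⟨(a : 𝓞 K) * ((Ideal.absNorm I : ℕ) : 𝓞 K), I.mul_mem_left _ h1,
    (b : 𝓞 K) * ((Ideal.absNorm J : ℕ) : 𝓞 K), J.mul_mem_left _ h2, ?_⟩
  have h4 := congrArg (fun z : ℤ => (z : 𝓞 K)) hab
  push_cast at h4
  exact h4

/-- an ideal of norm mn is the product of an ideal of norm m and an ideal of norm n -/
theorem H09_split {m n : ℕ} (hm : 0 < m) (hn : 0 < n) (hmn : Nat.Coprime m n) {Q : Ideal (𝓞 K)}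
    (hQ : Ideal.absNorm Q = m * n) :
    ∃ I J : Ideal (𝓞 K), Ideal.absNorm I = m ∧ Ideal.absNorm J = n ∧ I * J = Q := by
  have hmnQ : ((m : 𝓞 K) * (n : 𝓞 K)) ∈ Q := by
    have := Ideal.absNorm_mem Q
    rw [hQ] at this
    push_cast at this
    exact this
  obtain ⟨a, b, hab⟩ := Nat.isCoprime_iff_coprime.2 hmn
  have hab' : (a : 𝓞 K) * (m : 𝓞 K) + (b : 𝓞 K) * (n : 𝓞 K) = 1 := by
    have h4 := congrArg (fun z : ℤ => (z : 𝓞 K)) hab
    push_cast at h4
    exact h4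
  set I : Ideal (𝓞 K) := Q ⊔ Ideal.span {(m : 𝓞 K)} with hI
  set J : Ideal (𝓞 K) := Q ⊔ Ideal.span {(n : 𝓞 K)} with hJ
  have hIJ : I * J = Q := by
    apply le_antisymm
    · rw [hI, hJ, Ideal.sup_mul, Ideal.mul_sup, Ideal.mul_sup]
      refine sup_le (sup_le ?_ ?_) (sup_le ?_ ?_)
      · first | exact Ideal.mul_le_left | exact Ideal.mul_le_right
      · first | exact Ideal.mul_le_left | exact Ideal.mul_le_right
      · first | exact Ideal.mul_le_left | exact Ideal.mul_le_right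
      · rw [Ideal.span_singleton_mul_span_singleton, Ideal.span_singleton_le_iff_mem]
        exact hmnQ
    · intro x hx
      have h1 : x = (a : 𝓞 K) * ((m : 𝓞 K) * x) + (b : 𝓞 K) * (x * (n : 𝓞 K)) := by
        calc x = ((a : 𝓞 K) * (m : 𝓞 K) + (b : 𝓞 K) * (n : 𝓞 K)) * x := by rw [hab', one_mul]
          _ = _ := by ring
      rw [h1]
      have hmI : (m : 𝓞 K) ∈ I := (le_sup_right : _ ≤ I) (Ideal.mem_span_singleton_self _)
      have hnJ : (n : 𝓞 K) ∈ J := (le_sup_right : _ ≤ J) (Ideal.mem_span_singleton_self _)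
      have hxI : x ∈ I := (le_sup_left : Q ≤ I) hx
      have hxJ : x ∈ J := (le_sup_left : Q ≤ J) hx
      exact (I * J).add_mem ((I * J).mul_mem_left _ (Ideal.mul_mem_mul hmI hxJ))
        ((I * J).mul_mem_left _ (Ideal.mul_mem_mul hxI hnJ))
  have hN : Ideal.absNorm I * Ideal.absNorm J = m * n := by
    rw [← map_mul, hIJ, hQ]
  have hNI : Ideal.absNorm I ∣ m ^ Module.finrank ℤ (𝓞 K) := by
    rw [← Ideal.absNorm_span_natCast]
    exact Ideal.absNorm_dvd_absNorm_of_le le_sup_right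
  have hNJ : Ideal.absNorm J ∣ n ^ Module.finrank ℤ (𝓞 K) := by
    rw [← Ideal.absNorm_span_natCast]
    exact Ideal.absNorm_dvd_absNorm_of_le le_sup_right
  have c1 : Nat.Coprime (Ideal.absNorm I) n :=
    Nat.Coprime.coprime_dvd_left hNI (hmn.pow_left _)
  have c2 : Nat.Coprime (Ideal.absNorm J) m :=
    Nat.Coprime.coprime_dvd_left hNJ (hmn.symm.pow_left _)
  have d1 : Ideal.absNorm I ∣ m := c1.dvd_of_dvd_mul_right (hN ▸ dvd_mul_right _ _)
  have d2 : Ideal.absNorm J ∣ n := c2.dvd_of_dvd_mul_left (hN ▸ dvd_mul_left _ _)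
  have l1 := Nat.le_of_dvd hm d1
  have l2 := Nat.le_of_dvd hn d2
  have e1 : Ideal.absNorm I = m := by
    by_contra hne
    have hlt : Ideal.absNorm I < m := lt_of_le_of_ne l1 hne
    have : Ideal.absNorm I * Ideal.absNorm J < m * n :=
      lt_of_le_of_lt (Nat.mul_le_mul_left _ l2) (Nat.mul_lt_mul_of_pos_right hlt hn)
    omega
  refine ⟨I, J, e1, ?_, hIJ⟩
  rw [e1] at hN
  exact Nat.eq_of_mul_eq_mul_left hm hN

/-- Row H09. Multiplicativity. -/
theorem ac_one {f : ℕ} {ψ : Ideal (𝓞 K) →*₀ ℂ} (h : RingClass f ψ) : ac ψ 1 = 1 := by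
  unfold ac
  simp only [Ideal.absNorm_eq_one_iff]
  rw [finsum_cond_eq_left, ← Ideal.one_eq_top, map_one]

theorem ac_mul {f : ℕ} {ψ : Ideal (𝓞 K) →*₀ ℂ} (h : RingClass f ψ) {m n : ℕ} (hm : 0 < m) (hn : 0 < n)
    (hmn : Nat.Coprime m n) : ac ψ (m * n) = ac ψ m * ac ψ n := by
  rw [H09_ac, H09_ac, H09_ac, Finset.sum_mul_sum, ← Finset.sum_product']
  symm
  refine Finset.sum_nbij (fun p => p.1 * p.2) ?_ ?_ ?_ ?_
  · rintro ⟨I, J⟩ hp
    rw [Finset.mem_product, H09_mem, H09_mem] at hp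
    rw [H09_mem, map_mul, hp.1, hp.2]
  · rintro ⟨I, J⟩ hp ⟨I', J'⟩ hp' heq
    rw [Finset.mem_coe, Finset.mem_product, H09_mem, H09_mem] at hp hp'
    simp only at hp hp' heq
    have cop : ∀ A B : Ideal (𝓞 K), Ideal.absNorm A = m → Ideal.absNorm B = n → IsCoprime A B :=
      fun A B hA hB => H09_coprime (by rw [hA, hB]; exact hmn)
    have i1 : I ∣ I' := by
      have : I ∣ I' * J' := heq ▸ dvd_mul_right I J
      exact (cop I J' hp.1 hp'.2).dvd_of_dvd_mul_right this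
    have i2 : I' ∣ I := by
      have : I' ∣ I * J := heq.symm ▸ dvd_mul_right I' J'
      exact (cop I' J hp'.1 hp.2).dvd_of_dvd_mul_right this
    have j1 : J ∣ J' := by
      have : J ∣ I' * J' := heq ▸ dvd_mul_left J I
      exact (cop I' J hp'.1 hp.2).symm.dvd_of_dvd_mul_left this
    have j2 : J' ∣ J := by
      have : J' ∣ I * J := heq.symm ▸ dvd_mul_left J' I'
      exact (cop I J' hp.1 hp'.2).symm.dvd_of_dvd_mul_left this
    have e1 : I = I' := le_antisymm (Ideal.le_of_dvd i2) (Ideal.le_of_dvd i1)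
    have e2 : J = J' := le_antisymm (Ideal.le_of_dvd j2) (Ideal.le_of_dvd j1)
    rw [e1, e2]
  · intro Q hQ
    rw [Finset.mem_coe, H09_mem] at hQ
    obtain ⟨I, J, hI, hJ, hIJ⟩ := H09_split hm hn hmn hQ
    refine ⟨(I, J), ?_, hIJ⟩
    rw [Finset.mem_coe, Finset.mem_product, H09_mem, H09_mem]
    exact ⟨hI, hJ⟩
  · rintro ⟨I, J⟩ _
    exact (map_mul ψ I J).symm

end HC
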