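import Mathlib
import Pool.Agent.Lib.MP_0f5a55_nt.HC.D
open Complex MeasureTheory Set Filter Topology
open scoped Real ComplexConjugate NumberField

namespace HC

variable {K : Type*} [Field K] [NumberField K]

private lemma H10_norm_le {f : ℕ} {ψ : Ideal (𝓞 K) →*₀ ℂ} (h : RingClass f ψ) (I : Ideal (𝓞 K)) :
    ‖ψ I‖ ≤ 1 := by
  by_cases hI : Cop f I
  · exact (h.cop I hI).le
  · rw [h.ncop I hI]
    simp

private lemma H10_dvd {p k : ℕ} {I : Ideal (𝓞 K)} (hI : Ideal.absNorm I = p ^ k) :
    I ∣ (Ideal.span {(p : 𝓞 K)}) ^ k := by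
  rw [Ideal.span_singleton_pow, Ideal.dvd_span_singleton]
  have h1 := Ideal.absNorm_mem I
  rw [hI] at h1
  push_cast at h1
  exact h1

private lemma H10_absNorm (h2 : Module.finrank ℚ K = 2) (p : ℕ) :
    Ideal.absNorm (Ideal.span {(p : 𝓞 K)}) = p ^ 2 := by
  rw [Ideal.absNorm_span_singleton]
  have h1 : (p : 𝓞 K) = algebraMap ℤ (𝓞 K) (p : ℤ) := by simp
  rw [h1, Algebra.norm_algebraMap, NumberField.RingOfIntegers.rank, h2]
  simp [Int.natAbs_pow]

private lemma H10_ac {ψ : Ideal (𝓞 K) →*₀ ℂ} {n : ℕ} {ι : Type*} (s : Finset ι)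
    (g : ι → Ideal (𝓞 K)) (hg : Set.InjOn g s)
    (hs : ∀ I : Ideal (𝓞 K), Ideal.absNorm I = n ↔ ∃ i ∈ s, g i = I) :
    ac ψ n = ∑ i ∈ s, ψ (g i) := by
  classical
  have h1 : {I : Ideal (𝓞 K) | Ideal.absNorm I = n} = ((s.image g : Finset (Ideal (𝓞 K))) : Set (Ideal (𝓞 K))) := by
    ext I
    rw [Set.mem_ofPred_eq, hs]
    simp
  have h3 : ac ψ n = ∑ᶠ I ∈ {I : Ideal (𝓞 K) | Ideal.absNorm I = n}, ψ I := rfl
  rw [h3, h1, finsum_mem_coe_finset, Finset.sum_image hg]

/-- Row H10. Local factors. -/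
theorem ac_loc (h2 : Module.finrank ℚ K = 2) {f : ℕ} {ψ : Ideal (𝓞 K) →*₀ ℂ} (h : RingClass f ψ) (p : ℕ)
    (hp : p.Prime) : ∃ α β : ℂ, ‖α‖ ≤ 1 ∧ ‖β‖ ≤ 1 ∧
      ∀ k : ℕ, ac ψ (p ^ k) = ∑ j ∈ Finset.range (k + 1), α ^ j * β ^ (k - j) := by
  have hN := H10_absNorm (K := K) h2 p
  have hp0 : (Ideal.span {(p : 𝓞 K)}) ≠ ⊥ := by
    intro h0
    rw [h0, Ideal.absNorm_bot] at hN
    exact absurd hN.symm (pow_ne_zero 2 hp.ne_zero)
  have hp1 : (Ideal.span {(p : 𝓞 K)}) ≠ ⊤ := by
    intro h0
    rw [h0, Ideal.absNorm_top] at hN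
    have := hp.one_lt
    nlinarith
  -- a prime factor
  obtain ⟨P, hP, Q, hPQ⟩ : ∃ P : Ideal (𝓞 K), Prime P ∧ ∃ Q, Ideal.span {(p : 𝓞 K)} = P * Q := by
    obtain ⟨P, hPi, hPd⟩ := WfDvdMonoid.exists_irreducible_factor
      (a := Ideal.span {(p : 𝓞 K)}) (by rwa [Ideal.isUnit_iff]) (by simpa using hp0)
    obtain ⟨Q, hQ⟩ := hPd
    exact ⟨P, hPi.prime, Q, hQ⟩
  have hPn1 : Ideal.absNorm P ≠ 1 := by
    intro h1
    rw [Ideal.absNorm_eq_one_iff] at h1
    exact hP.not_isUnit (Ideal.isUnit_iff.2 h1)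
  have hmul : Ideal.absNorm P * Ideal.absNorm Q = p ^ 2 := by
    rw [← map_mul, ← hPQ, hN]
  obtain ⟨a, ha2, haP⟩ := (Nat.dvd_prime_pow hp).1 (Dvd.intro _ hmul)
  have ha0 : a ≠ 0 := by
    rintro rfl
    exact hPn1 (by rw [haP, pow_zero])
  have hdvdP : ∀ k, ∀ I : Ideal (𝓞 K), I ∣ P ^ k → ∃ i, I = P ^ i := by
    intro k I hI
    obtain ⟨i, _, hi⟩ := (dvd_prime_pow hP k).1 hI
    exact ⟨i, associated_iff_eq.1 hi⟩
  rcases (by omega : a = 2 ∨ a = 1) with rfl | rfl
  · -- inert
    have hQ1 : Ideal.absNorm Q = 1 := by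
      rw [haP] at hmul
      have : 0 < p ^ 2 := pow_pos hp.pos 2
      nlinarith
    rw [Ideal.absNorm_eq_one_iff] at hQ1
    rw [hQ1, Ideal.mul_top] at hPQ
    obtain ⟨s, hs⟩ : ∃ s : ℂ, s ^ 2 = ψ P := ⟨_, Complex.cpow_nat_inv_pow (ψ P) (n := 2) (by norm_num)⟩
    have hsn : ‖s‖ ≤ 1 := by
      have h1 : ‖s‖ ^ 2 ≤ 1 := by
        rw [← norm_pow, hs]
        exact H10_norm_le h P
      nlinarith [norm_nonneg s]
    refine ⟨s, -s, hsn, by rwa [norm_neg], fun k => ?_⟩
    have hsum : ∑ j ∈ Finset.range (k + 1), s ^ j * (-s) ^ (k - j) =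
        if Even k then s ^ k else 0 := by
      have e1 : ∀ j ∈ Finset.range (k + 1), s ^ j * (-s) ^ (k - j) = s ^ k * (-1) ^ (k - j) := by
        intro j hj
        rw [Finset.mem_range] at hj
        rw [neg_pow s, mul_comm ((-1) ^ (k - j)), ← mul_assoc, ← pow_add]
        congr 2
        omega
      rw [Finset.sum_congr rfl e1, ← Finset.mul_sum]
      have e2 : ∑ j ∈ Finset.range (k + 1), (-1 : ℂ) ^ (k - j) = ∑ j ∈ Finset.range (k + 1), (-1 : ℂ) ^ j := by
        have := Finset.sum_range_reflect (fun j => (-1 : ℂ) ^ j) (k + 1)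
        rw [← this]
        refine Finset.sum_congr rfl fun j hj => ?_
        congr 1
      rw [e2, neg_one_geom_sum]
      by_cases hk : Even k
      · rw [if_neg (by rw [Nat.even_add_one]; exact not_not.2 hk), if_pos hk, mul_one]
      · rw [if_pos (by rw [Nat.even_add_one]; exact hk), if_neg hk, mul_zero]
    rw [hsum]
    by_cases hk : Even k
    · obtain ⟨m, rfl⟩ := hk
      rw [if_pos (by exact ⟨m, rfl⟩)]
      rw [H10_ac (n := p ^ (m + m)) {m} (fun i => P ^ i) (by simp) ?_]
      · rw [Finset.sum_singleton, map_pow, ← hs, ← pow_mul]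
        congr 1
        omega
      · intro I
        constructor
        · intro hI
          obtain ⟨i, rfl⟩ := hdvdP (m + m) I (by rw [← hPQ]; exact H10_dvd hI)
          rw [map_pow, haP, ← pow_mul] at hI
          have := Nat.pow_right_injective hp.two_le hI
          refine ⟨m, Finset.mem_singleton_self m, ?_⟩
          have : m = i := by omega
          rw [this]
        · rintro ⟨i, hi, rfl⟩
          rw [Finset.mem_singleton] at hi
          subst hi
          rw [map_pow, haP, ← pow_mul]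
          congr 1
          omega
    · rw [if_neg hk]
      rw [H10_ac (n := p ^ k) (∅ : Finset ℕ) (fun i => P ^ i) (by simp) ?_]
      · simp
      · intro I
        constructor
        · intro hI
          exfalso
          obtain ⟨i, rfl⟩ := hdvdP k I (by rw [← hPQ]; exact H10_dvd hI)
          rw [map_pow, haP, ← pow_mul] at hI
          have := Nat.pow_right_injective hp.two_le hI
          exact hk ⟨i, by omega⟩
        · rintro ⟨i, hi, _⟩
          simp at hi
  · -- norm p
    rw [pow_one] at haP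
    have hQn : Ideal.absNorm Q = p := by
      rw [haP, sq] at hmul
      exact Nat.eq_of_mul_eq_mul_left hp.pos hmul
    have hQ : Prime Q := by
      rw [Ideal.prime_iff_isPrime (by rintro rfl; rw [Ideal.absNorm_bot] at hQn; exact hp.ne_zero hQn.symm)]
      exact Ideal.isPrime_of_irreducible_absNorm (by rw [hQn]; exact hp)
    have hdvdQ : ∀ k, ∀ I : Ideal (𝓞 K), I ∣ Q ^ k → ∃ i, I = Q ^ i := by
      intro k I hI
      obtain ⟨i, _, hi⟩ := (dvd_prime_pow hQ k).1 hI
      exact ⟨i, associated_iff_eq.1 hi⟩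
    by_cases hne : P = Q
    · -- ramified
      subst hne
      refine ⟨ψ P, 0, H10_norm_le h P, by simp, fun k => ?_⟩
      have hsum : ∑ j ∈ Finset.range (k + 1), (ψ P) ^ j * (0 : ℂ) ^ (k - j) = ψ P ^ k := by
        rw [Finset.sum_eq_single k]
        · simp
        · intro j hj hjk
          rw [Finset.mem_range] at hj
          rw [zero_pow (by omega), mul_zero]
        · intro hk
          exact absurd (Finset.mem_range.2 (Nat.lt_succ_self k)) hk
      rw [hsum, H10_ac (n := p ^ k) {k} (fun i => P ^ i) (by simp) ?_]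
      · rw [Finset.sum_singleton, map_pow]
      · intro I
        constructor
        · intro hI
          obtain ⟨i, rfl⟩ := hdvdP (2 * k) I (by
            rw [pow_mul, sq, ← hPQ]
            exact H10_dvd hI)
          rw [map_pow, haP] at hI
          have := Nat.pow_right_injective hp.two_le hI
          exact ⟨k, Finset.mem_singleton_self k, by rw [this]⟩
        · rintro ⟨i, hi, rfl⟩
          rw [Finset.mem_singleton] at hi
          subst hi
          rw [map_pow, haP]
    · -- split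
      refine ⟨ψ P, ψ Q, H10_norm_le h P, H10_norm_le h Q, fun k => ?_⟩
      have key : ∀ i j i' j' : ℕ, i < i' → P ^ i * Q ^ j ≠ P ^ i' * Q ^ j' := by
        intro i j i' j' hlt heq
        obtain ⟨d, rfl⟩ : ∃ d, i' = i + (d + 1) := ⟨i' - i - 1, by omega⟩
        rw [pow_add, mul_assoc] at heq
        have h3 := mul_left_cancel₀ (pow_ne_zero i hP.ne_zero) heq
        have h4 : P ∣ Q ^ j := by
          rw [h3, pow_succ, mul_assoc]
          exact Dvd.dvd.mul_left (dvd_mul_right _ _) _
        have h5 := hP.dvd_of_dvd_pow h4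
        exact hne (associated_iff_eq.1 (hP.associated_of_dvd hQ h5))
      rw [H10_ac (n := p ^ k) (Finset.range (k + 1)) (fun j => P ^ j * Q ^ (k - j)) ?_ ?_]
      · refine Finset.sum_congr rfl fun j _ => ?_
        rw [map_mul, map_pow, map_pow]
      · intro i _ j _ hij
        by_contra hcon
        rcases Nat.lt_or_gt_of_ne hcon with hlt | hlt
        · exact key _ _ _ _ hlt hij
        · exact key _ _ _ _ hlt hij.symm
      · intro I
        constructor
        · intro hI
          have h3 : I ∣ P ^ k * Q ^ k := by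
            rw [← mul_pow, ← hPQ]
            exact H10_dvd hI
          obtain ⟨I1, I2, hI1, hI2, rfl⟩ := exists_dvd_and_dvd_of_dvd_mul h3
          obtain ⟨i, rfl⟩ := hdvdP k I1 hI1
          obtain ⟨j, rfl⟩ := hdvdQ k I2 hI2
          rw [map_mul, map_pow, map_pow, haP, hQn, ← pow_add] at hI
          have := Nat.pow_right_injective hp.two_le hI
          refine ⟨i, Finset.mem_range.2 (by omega), ?_⟩
          have : k - i = j := by omega
          rw [this]
        · rintro ⟨i, hi, rfl⟩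
          rw [Finset.mem_range] at hi
          rw [map_mul, map_pow, map_pow, haP, hQn, ← pow_add]
          congr 1
          omega

end HC
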