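import Mathlib
import Pool.Agent.Lib.MP_0f5a55_nt.HC.D
open Complex MeasureTheory Set Filter Topology
open scoped Real ComplexConjugate NumberField

namespace HC

theorem H12_pp {a : ℕ → ℂ}
    (hloc : ∀ p : ℕ, p.Prime → ∃ α β : ℂ, ‖α‖ ≤ 1 ∧ ‖β‖ ≤ 1 ∧
      ∀ k : ℕ, a (p ^ k) = ∑ j ∈ Finset.range (k + 1), α ^ j * β ^ (k - j)) {p k : ℕ} (hp : p.Prime) :
    ‖a (p ^ k)‖ ≤ ((k : ℝ) + 1) := by
  obtain ⟨α, β, hα, hβ, h⟩ := hloc p hp
  rw [h k]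
  calc ‖∑ j ∈ Finset.range (k + 1), α ^ j * β ^ (k - j)‖
      ≤ ∑ j ∈ Finset.range (k + 1), ‖α ^ j * β ^ (k - j)‖ := norm_sum_le _ _
    _ ≤ ∑ j ∈ Finset.range (k + 1), (1 : ℝ) := by
        refine Finset.sum_le_sum fun j _ => ?_
        rw [norm_mul, norm_pow, norm_pow]
        exact mul_le_one₀ (pow_le_one₀ (norm_nonneg _) hα) (by positivity)
          (pow_le_one₀ (norm_nonneg _) hβ)
    _ = (k : ℝ) + 1 := by simp

/-- Row H12. Divisor bound from multiplicativity and the local factors. -/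
theorem bd_of {a : ℕ → ℂ} (h1 : a 1 = 1)
    (hmul : ∀ m n : ℕ, 0 < m → 0 < n → Nat.Coprime m n → a (m * n) = a m * a n)
    (hloc : ∀ p : ℕ, p.Prime → ∃ α β : ℂ, ‖α‖ ≤ 1 ∧ ‖β‖ ≤ 1 ∧
      ∀ k : ℕ, a (p ^ k) = ∑ j ∈ Finset.range (k + 1), α ^ j * β ^ (k - j)) {n : ℕ} (hn : 0 < n) :
    ‖a n‖ ≤ (n.divisors.card : ℝ) := by
  revert hn
  refine Nat.recOnPosPrimePosCoprime (motive := fun n => 0 < n → ‖a n‖ ≤ (n.divisors.card : ℝ))
    ?_ ?_ ?_ ?_ n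
  · intro p k hp hk _
    have := H12_pp hloc (p := p) (k := k) hp
    rw [Nat.divisors_prime_pow hp]
    simpa using this
  · intro h; exact absurd h (lt_irrefl _)
  · intro _; simp [h1]
  · intro m n hm hn hc ihm ihn _
    have hm0 : 0 < m := by omega
    have hn0 : 0 < n := by omega
    rw [hmul m n hm0 hn0 hc, norm_mul, Nat.Coprime.card_divisors_mul hc, Nat.cast_mul]
    exact mul_le_mul (ihm hm0) (ihn hn0) (norm_nonneg _) (Nat.cast_nonneg _)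

end HC
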