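import Mathlib
import Pool.Agent.Lib.MP_0f5a55_nt.HC.H13
import Pool.Agent.Lib.MP_0f5a55_nt.HC.H17
open Complex MeasureTheory Set Filter Topology
open scoped Real ComplexConjugate NumberField

namespace HC

variable {K : Type*} [Field K] [NumberField K]

theorem H20_norm_int (h2 : Module.finrank ℚ K = 2) (c : ℤ) : Algebra.norm ℤ (c : 𝓞 K) = c ^ 2 := by
  have h1 := Algebra.norm_algebraMap_of_basis (Module.Free.chooseBasis ℤ (𝓞 K)) c
  rw [← Module.finrank_eq_card_chooseBasisIndex, NumberField.RingOfIntegers.rank, h2] at h1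
  simpa using h1

theorem H20_ord_mono {f g : ℕ} (hfg : g ∣ f) {α : 𝓞 K} (h : Ord f α) : Ord g α := by
  obtain ⟨m, hm⟩ := h
  refine ⟨m, dvd_trans ?_ hm⟩
  obtain ⟨k, rfl⟩ := hfg
  exact ⟨(k : 𝓞 K), by push_cast; ring⟩

theorem H20_ord_mul {g : ℕ} {x y : 𝓞 K} (hx : Ord g x) (hy : Ord g y) : Ord g (x * y) := by
  obtain ⟨m, a, ha⟩ := hx
  obtain ⟨l, b, hb⟩ := hy
  refine ⟨m * l, a * y + m * b, ?_⟩
  have h1 : x = m + g * a := by rw [← ha]; ring
  have h2 : y = l + g * b := by rw [← hb]; ring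
  push_cast
  calc x * y - m * l = (x - m) * y + m * (y - l) := by ring
    _ = g * a * y + m * (g * b) := by rw [ha, hb]
    _ = g * (a * y + m * b) := by ring

/-- m is prime to g when kappa = m mod g is prime to f -/
theorem H20_cop (h2 : Module.finrank ℚ K = 2) {f g : ℕ} (hgf : g ∣ f) {κ : 𝓞 K} {m : ℤ}
    (hm : (g : 𝓞 K) ∣ κ - m) (hc : Cop f (Ideal.span {κ})) : IsCoprime m (g : ℤ) := by
  rw [Int.isCoprime_iff_gcd_eq_one]
  by_contra hne
  obtain ⟨q, hq, hqd⟩ := Nat.exists_prime_and_dvd hne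
  have hqm : (q : ℤ) ∣ m := (Int.natCast_dvd_natCast.2 hqd).trans (Int.gcd_dvd_left ..)
  have hqg : (q : ℤ) ∣ (g : ℤ) := (Int.natCast_dvd_natCast.2 hqd).trans (Int.gcd_dvd_right ..)
  have hqf : (q : ℤ) ∣ (f : ℤ) := hqg.trans (Int.natCast_dvd_natCast.2 hgf)
  have d1 : (q : 𝓞 K) ∣ (m : 𝓞 K) := by
    obtain ⟨k, hk⟩ := hqm
    exact ⟨k, by rw [hk]; push_cast; ring⟩
  have d2 : (q : 𝓞 K) ∣ (g : 𝓞 K) := by
    obtain ⟨k, hk⟩ := hqg
    exact ⟨k, by have := congrArg (Int.cast : ℤ → 𝓞 K) hk; push_cast at this; exact this⟩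
  have d3 : (q : 𝓞 K) ∣ (f : 𝓞 K) := by
    obtain ⟨k, hk⟩ := hqf
    exact ⟨k, by have := congrArg (Int.cast : ℤ → 𝓞 K) hk; push_cast at this; exact this⟩
  have d4 : (q : 𝓞 K) ∣ κ := by
    have h5 : κ = (κ - m) + m := by ring
    rw [h5]
    exact dvd_add (d2.trans hm) d1
  obtain ⟨-, hco⟩ := hc
  rw [Ideal.isCoprime_span_singleton_iff] at hco
  obtain ⟨x, y, hxy⟩ := hco
  have d5 : (q : 𝓞 K) ∣ 1 := by
    rw [← hxy]
    exact dvd_add (d4.mul_left x) (d3.mul_left y)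
  obtain ⟨z, hz⟩ := d5
  have h6 := congrArg (Algebra.norm ℤ) hz
  have h7 : Algebra.norm ℤ (((q : ℤ) : 𝓞 K)) = (q : ℤ) ^ 2 := H20_norm_int h2 _
  rw [map_mul, map_one] at h6
  rw [Int.cast_natCast] at h7
  rw [h7] at h6
  have h8 : IsUnit ((q : ℤ)) := by
    refine isUnit_of_dvd_one ⟨q * Algebra.norm ℤ z, ?_⟩
    rw [h6]; ring
  rw [Int.isUnit_iff_natAbs_eq, Int.natAbs_natCast] at h8
  exact hq.one_lt.ne' h8

theorem H20_fact (h2 : Module.finrank ℚ K = 2) {f g : ℕ} (hgf : g ∣ f) {κ α : 𝓞 K} (hκ : Ord g κ)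
    (hc : Cop f (Ideal.span {κ})) (h : Ord g (κ * α)) : Ord g α := by
  obtain ⟨m, hm⟩ := hκ
  obtain ⟨l, hl⟩ := h
  obtain ⟨u, v, huv⟩ := H20_cop h2 hgf hm hc
  refine ⟨u * l, ?_⟩
  have hcast : (u : 𝓞 K) * m + v * g = 1 := by
    have := congrArg (Int.cast : ℤ → 𝓞 K) huv
    push_cast at this
    exact this
  have e : α - ((u * l : ℤ) : 𝓞 K) = u * (κ * α - l) - u * α * (κ - m) + g * (v * α) := by
    push_cast
    linear_combination -α * hcast
  rw [e]
  exact dvd_add (dvd_sub (hl.mul_left _) (hm.mul_left _)) (dvd_mul_right _ _)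

/-- the elements counted, after division by p -/
def H20_S (p g n : ℕ) (a : Ideal (𝓞 K)) : Set (𝓞 K) :=
  {x | x ∈ a ∧ Ord g x ∧ p ^ 2 * (Algebra.norm ℤ x).natAbs = Ideal.absNorm a * n}

theorem H20_S_mul (h2 : Module.finrank ℚ K = 2) {f p g n : ℕ} (hgf : g ∣ f) {κ : 𝓞 K} (hκ : Ord g κ)
    (hc : Cop f (Ideal.span {κ})) (a : Ideal (𝓞 K)) :
    (H20_S p g n (Ideal.span {κ} * a)).ncard = (H20_S p g n a).ncard := by
  have hκ0 : κ ≠ 0 := by
    rintro rfl
    exact hc.1 (by simp)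
  have hN0 : 0 < (Algebra.norm ℤ κ).natAbs := by
    have : Algebra.norm ℤ κ ≠ 0 := Algebra.norm_ne_zero_iff.2 hκ0
    exact Int.natAbs_pos.2 this
  have e : H20_S p g n (Ideal.span {κ} * a) = (fun x => κ * x) '' (H20_S p g n a) := by
    ext x
    constructor
    · rintro ⟨h1, h3, h4⟩
      rw [Ideal.mem_span_singleton_mul] at h1
      obtain ⟨z, hz, rfl⟩ := h1
      refine ⟨z, ⟨hz, H20_fact h2 hgf hκ hc h3, ?_⟩, rfl⟩
      rw [map_mul, map_mul, Ideal.absNorm_span_singleton, Int.natAbs_mul] at h4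
      refine Nat.eq_of_mul_eq_mul_left hN0 ?_
      linarith
    · rintro ⟨z, ⟨h1, h3, h4⟩, rfl⟩
      refine ⟨Ideal.mem_span_singleton_mul.2 ⟨z, h1, rfl⟩, H20_ord_mul hκ h3, ?_⟩
      rw [map_mul, map_mul, Ideal.absNorm_span_singleton, Int.natAbs_mul]
      calc p ^ 2 * ((Algebra.norm ℤ κ).natAbs * (Algebra.norm ℤ z).natAbs)
          = (Algebra.norm ℤ κ).natAbs * (p ^ 2 * (Algebra.norm ℤ z).natAbs) := by ring
        _ = _ := by rw [h4]; ring
  rw [e, Set.ncard_image_of_injective _ (mul_right_injective₀ hκ0)]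

theorem H20_S_eqv (h2 : Module.finrank ℚ K = 2) {f p g n : ℕ} (hgf : g ∣ f) {a b : Ideal (𝓞 K)}
    (h : Eqv f a b) : (H20_S p g n a).ncard = (H20_S p g n b).ncard := by
  obtain ⟨α, β, hα, hβ, cα, cβ, e⟩ := h
  rw [← H20_S_mul h2 hgf (H20_ord_mono hgf hα) cα a, e,
    H20_S_mul h2 hgf (H20_ord_mono hgf hβ) cβ b]

theorem H20_val {F : Fm} {N : ℕ} (hF : F.Pos N) (v : ℤ × ℤ) :
    4 * F.A * F.val v = (2 * F.A * v.1 + F.B * v.2) ^ 2 + N * v.2 ^ 2 := by
  rw [← hF.2.2]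
  unfold Fm.val
  ring

theorem H20_val_nonneg {F : Fm} {N : ℕ} (hF : F.Pos N) (v : ℤ × ℤ) : 0 ≤ F.val v := by
  have h1 := H20_val hF v
  have h2 := hF.2.1
  have h3 : (0 : ℤ) < N := by exact_mod_cast hF.1
  by_contra hneg
  push Not at hneg
  nlinarith [sq_nonneg (2 * F.A * v.1 + F.B * v.2), sq_nonneg v.2, mul_pos h2 (neg_pos.2 hneg),
    mul_nonneg h3.le (sq_nonneg v.2)]

theorem H20_val_zero {F : Fm} {N : ℕ} (hF : F.Pos N) {v : ℤ × ℤ} (h : F.val v = 0) : v = 0 := by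
  have h1 := H20_val hF v
  have h2 := hF.2.1
  have h3 : (0 : ℤ) < N := by exact_mod_cast hF.1
  rw [h, mul_zero] at h1
  have h4 : v.2 ^ 2 = 0 := by
    by_contra hne
    have : 0 < v.2 ^ 2 := lt_of_le_of_ne (sq_nonneg _) (Ne.symm hne)
    nlinarith [sq_nonneg (2 * F.A * v.1 + F.B * v.2), mul_pos h3 this]
  have h5 : v.2 = 0 := by simpa using h4
  rw [h5] at h1
  have h6 : v.1 = 0 := by
    have h7 : (2 * F.A * v.1) ^ 2 = 0 := by nlinarith
    have h8 : 2 * F.A * v.1 = 0 := by simpa using h7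
    rcases mul_eq_zero.1 h8 with h9 | h9
    · omega
    · exact h9
  exact Prod.ext h6 h5

/-- the number of representations by the form is the number of elements of the lattice -/
theorem H20_count {f : ℕ} {a : Ideal (𝓞 K)} {F : Fm} {N n : ℕ} (ha : a ≠ ⊥) (hF : FormOf f a F) (hP : F.Pos N) :
    {v : ℤ × ℤ | F.val v = n}.ncard =
      {x : 𝓞 K | x ∈ a ∧ Ord f x ∧ (Algebra.norm ℤ x).natAbs = Ideal.absNorm a * n}.ncard := by
  obtain ⟨v₁, v₂, hl, hn⟩ := hF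
  have hNa : 0 < Ideal.absNorm a := Nat.pos_of_ne_zero (fun h => ha (Ideal.absNorm_eq_zero_iff.1 h))
  have hinj : Function.Injective (fun v : ℤ × ℤ => (v.1 : 𝓞 K) * v₁ + v.2 * v₂) := by
    intro v w hvw
    have h0 : ((v.1 - w.1 : ℤ) : 𝓞 K) * v₁ + ((v.2 - w.2 : ℤ) : 𝓞 K) * v₂ = 0 := by
      push_cast
      simp only at hvw
      linear_combination hvw
    have h1 := hn (v.1 - w.1) (v.2 - w.2)
    rw [h0, Algebra.norm_zero] at h1
    have h2 : F.val (v.1 - w.1, v.2 - w.2) = 0 := by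
      have h3 : (0 : ℤ) < Ideal.absNorm a := by exact_mod_cast hNa
      rcases mul_eq_zero.1 h1.symm with h4 | h4
      · exact absurd h4 h3.ne'
      · exact h4
    have h5 := H20_val_zero hP h2
    have h6 := congrArg Prod.fst h5
    have h7 := congrArg Prod.snd h5
    simp only [Prod.fst_zero, Prod.snd_zero] at h6 h7
    exact Prod.ext (by omega) (by omega)
  rw [← Set.ncard_image_of_injective _ hinj]
  congr 1
  ext x
  constructor
  · rintro ⟨v, hv, rfl⟩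
    have h1 := (hl ((v.1 : 𝓞 K) * v₁ + v.2 * v₂)).2 ⟨v.1, v.2, rfl⟩
    refine ⟨h1.1, h1.2, ?_⟩
    show (Algebra.norm ℤ ((v.1 : 𝓞 K) * v₁ + v.2 * v₂)).natAbs = _
    rw [hn, Int.natAbs_mul, Int.natAbs_natCast]
    congr 1
    have : F.val (v.1, v.2) = n := hv
    rw [this, Int.natAbs_natCast]
  · rintro ⟨h1, h3, h4⟩
    obtain ⟨s, t, rfl⟩ := (hl x).1 ⟨h1, h3⟩
    refine ⟨(s, t), ?_, rfl⟩
    rw [hn, Int.natAbs_mul, Int.natAbs_natCast] at h4
    have h5 := Nat.eq_of_mul_eq_mul_left hNa h4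
    have h6 := H20_val_nonneg hP (s, t)
    show F.val (s, t) = n
    omega

theorem H20_div (h2 : Module.finrank ℚ K = 2) {p g n : ℕ} (hp : p.Prime) (hpn : p ∣ n)
    {a : Ideal (𝓞 K)} (ha : Cop (p * g) a) :
    {x : 𝓞 K | x ∈ a ∧ Ord (p * g) x ∧ (Algebra.norm ℤ x).natAbs = Ideal.absNorm a * n}.ncard =
      (H20_S p g n a).ncard := by
  have hp0 : (p : 𝓞 K) ≠ 0 := by exact_mod_cast hp.ne_zero
  rw [← Set.ncard_image_of_injective (H20_S p g n a) (mul_right_injective₀ hp0)]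
  congr 1
  have hnp : ∀ y : 𝓞 K, (Algebra.norm ℤ ((p : 𝓞 K) * y)).natAbs = p ^ 2 * (Algebra.norm ℤ y).natAbs := by
    intro y
    have h7 : Algebra.norm ℤ (((p : ℤ) : 𝓞 K)) = (p : ℤ) ^ 2 := H20_norm_int h2 _
    rw [Int.cast_natCast] at h7
    rw [map_mul, h7, Int.natAbs_mul, Int.natAbs_pow, Int.natAbs_natCast]
  ext x
  constructor
  · rintro ⟨h1, ⟨m, β, hm⟩, h4⟩
    have hx : x = m + ((p * g : ℕ) : 𝓞 K) * β := by rw [← hm]; ring
    -- p divides m
    have hpm : (p : ℤ) ∣ m := by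
      by_contra hnd
      have hcm : IsCoprime (p : ℤ) m := (Nat.prime_iff_prime_int.1 hp).coprime_iff_not_dvd.2 hnd
      obtain ⟨u, v, huv⟩ := hcm
      have hcast : (u : 𝓞 K) * p + v * m = 1 := by
        have := congrArg (Int.cast : ℤ → 𝓞 K) huv
        push_cast at this
        exact this
      have hx0 : x ≠ 0 := by
        rintro rfl
        have hd : (p : 𝓞 K) ∣ 1 := by
          rw [← hcast]
          refine dvd_add (dvd_mul_left _ _) (Dvd.dvd.mul_left ?_ _)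
          have : (m : 𝓞 K) = -(((p * g : ℕ) : 𝓞 K) * β) := by linear_combination -hx
          rw [this]
          push_cast
          exact (dvd_neg).2 ⟨g * β, by ring⟩
        obtain ⟨z, hz⟩ := hd
        have h6 := congrArg (Algebra.norm ℤ) hz
        have h7 : Algebra.norm ℤ (((p : ℤ) : 𝓞 K)) = (p : ℤ) ^ 2 := H20_norm_int h2 _
        rw [map_mul, map_one] at h6
        rw [Int.cast_natCast] at h7
        rw [h7] at h6
        have h8 : IsUnit ((p : ℤ)) := by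
          refine isUnit_of_dvd_one ⟨p * Algebra.norm ℤ z, ?_⟩
          rw [h6]; ring
        rw [Int.isUnit_iff_natAbs_eq, Int.natAbs_natCast] at h8
        exact hp.one_lt.ne' h8
      have hC : Cop p (Ideal.span {x}) := by
        refine ⟨by simpa using hx0, ?_⟩
        rw [Ideal.isCoprime_span_singleton_iff]
        refine ⟨v, u - v * g * β, ?_⟩
        rw [hx]
        push_cast
        linear_combination hcast
      have h9 := ((cop_iff h2 hp.pos).1 hC).2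
      rw [Ideal.absNorm_span_singleton, h4] at h9
      have h10 : p ∣ Nat.gcd (Ideal.absNorm a * n) p := Nat.dvd_gcd (hpn.mul_left _) dvd_rfl
      rw [h9] at h10
      exact hp.one_lt.ne' (Nat.dvd_one.1 h10)
    obtain ⟨m', rfl⟩ := hpm
    refine ⟨(m' : 𝓞 K) + g * β, ⟨?_, ⟨m', β, by ring⟩, ?_⟩, ?_⟩
    · -- membership
      obtain ⟨-, hco⟩ := ha
      rw [Ideal.isCoprime_iff_exists] at hco
      obtain ⟨i, hi, j, hj, hij⟩ := hco
      rw [Ideal.mem_span_singleton] at hj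
      obtain ⟨z, hz⟩ := hj
      have e : (m' : 𝓞 K) + g * β = ((m' : 𝓞 K) + g * β) * i + (g * z) * x := by
        rw [hx]
        push_cast at hz ⊢
        have : i = 1 - p * g * z := by rw [← hz, ← hij]; ring
        rw [this]
        ring
      rw [e]
      exact a.add_mem (a.mul_mem_left _ hi) (a.mul_mem_left _ h1)
    · rw [← hnp, ← h4, hx]
      congr 2
      push_cast
      ring
    · show (p : 𝓞 K) * (m' + g * β) = x
      rw [hx]
      push_cast
      ring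
  · rintro ⟨y, ⟨h1, ⟨m, β, hm⟩, h4⟩, rfl⟩
    refine ⟨a.mul_mem_left _ h1, ⟨p * m, β, ?_⟩, ?_⟩
    · have hy : y = m + g * β := by rw [← hm]; ring
      simp only
      rw [hy]
      push_cast
      ring
    · rw [← h4]
      exact hnp y

/-- Row H20. Coefficients at n not prime to f. -/
theorem ac_ncop (h2 : Module.finrank ℚ K = 2) {f : ℕ} {ψ : Ideal (𝓞 K) →*₀ ℂ} (h : RingClass f ψ) {n : ℕ}
    (hn : 0 < n) (hc : ¬ n.Coprime f) : ac ψ n = 0 := by
  unfold ac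
  apply finsum_eq_zero_of_forall_eq_zero
  intro I
  rw [finsum_eq_if]
  split_ifs with hI
  · apply h.ncop
    intro hcop
    have := ((cop_iff h2 h.pos).1 hcop).2
    rw [hI] at this
    exact hc this
  · rfl

theorem count_ncop [NumberField.IsTotallyComplex K] (h2 : Module.finrank ℚ K = 2) {f : ℕ}
    {ψ : Ideal (𝓞 K) →*₀ ℂ} (h : RingClass f ψ) {T : Finset (Ideal (𝓞 K))} {F : Ideal (𝓞 K) → Fm}
    (hT : Forms f T F) {n : ℕ} (hn : 0 < n) (hc : ¬ n.Coprime f) :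
    ∑ a ∈ T, conj (ψ a) * (({v : ℤ × ℤ | (F a).val v = n}.ncard : ℕ) : ℂ) = 0 := by
  classical
  obtain ⟨p, hp, hpn, hpf⟩ := Nat.Prime.not_coprime_iff_dvd.1 hc
  obtain ⟨κ, hκ, hκc, hκψ⟩ := h.prim p hp hpf
  obtain ⟨g, rfl⟩ := hpf
  rw [Nat.mul_div_cancel_left _ hp.pos] at hκ
  have hgf : g ∣ p * g := dvd_mul_left _ _
  obtain ⟨⟨hTc, hTu⟩, hTF⟩ := hT
  have hR : ∀ a ∈ T, {v : ℤ × ℤ | (F a).val v = n}.ncard = (H20_S p g n a).ncard := by
    intro a ha
    rw [H20_count (hTc a ha).1 (hTF a ha).1 (hTF a ha).2, H20_div h2 hp hpn (hTc a ha)]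
  have key : ∀ a ∈ T, ∃ a' ∈ T, Eqv (p * g) (Ideal.span {κ} * a) a' := by
    intro a ha
    obtain ⟨a', ⟨h1, h3⟩, -⟩ := hTu (Ideal.span {κ} * a) (cop_mul.2 ⟨hκc, hTc a ha⟩)
    exact ⟨a', h1, h3⟩
  choose! σ hσT hσE using key
  have hinj : Set.InjOn σ (T : Set (Ideal (𝓞 K))) := by
    intro a ha b hb hab
    have ha' : a ∈ T := ha
    have hb' : b ∈ T := hb
    have e1 := hσE a ha'
    have e2 := hσE b hb'
    rw [← hab] at e2
    have e3 := e1.trans h.pos e2.symm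
    rw [mul_comm _ a, mul_comm _ b] at e3
    have e4 := Eqv.cancel hκc e3
    obtain ⟨c, -, hcu⟩ := hTu a (hTc a ha')
    rw [hcu a ⟨ha', Eqv.refl h.pos a⟩, hcu b ⟨hb', e4⟩]
  have him : T.image σ = T := by
    refine Finset.eq_of_subset_of_card_le ?_ ?_
    · intro x hx
      obtain ⟨a, ha, rfl⟩ := Finset.mem_image.1 hx
      exact hσT a ha
    · rw [Finset.card_image_of_injOn hinj]
  set X := ∑ a ∈ T, conj (ψ a) * (({v : ℤ × ℤ | (F a).val v = n}.ncard : ℕ) : ℂ) with hX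
  have hXX : X = conj (ψ (Ideal.span {κ})) * X := by
    calc X = ∑ a ∈ T.image σ, conj (ψ a) * (({v : ℤ × ℤ | (F a).val v = n}.ncard : ℕ) : ℂ) := by rw [him]
      _ = ∑ a ∈ T, conj (ψ (σ a)) * (({v : ℤ × ℤ | (F (σ a)).val v = n}.ncard : ℕ) : ℂ) :=
          Finset.sum_image hinj
      _ = ∑ a ∈ T, conj (ψ (Ideal.span {κ})) *
            (conj (ψ a) * (({v : ℤ × ℤ | (F a).val v = n}.ncard : ℕ) : ℂ)) := by
          refine Finset.sum_congr rfl (fun a ha => ?_)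
          have e1 : ψ (σ a) = ψ (Ideal.span {κ}) * ψ a := by
            rw [← Eqv.char h (hσE a ha), map_mul]
          have e2 : {v : ℤ × ℤ | (F (σ a)).val v = n}.ncard = {v : ℤ × ℤ | (F a).val v = n}.ncard := by
            rw [hR _ (hσT a ha), hR _ ha, ← H20_S_eqv h2 hgf (hσE a ha), H20_S_mul h2 hgf hκ hκc]
          rw [e1, e2, map_mul, mul_assoc]
      _ = conj (ψ (Ideal.span {κ})) * X := by rw [hX, Finset.mul_sum]
  have h1 : (1 - conj (ψ (Ideal.span {κ}))) * X = 0 := by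
    rw [sub_mul, one_mul]
    exact sub_eq_zero.2 hXX
  rcases mul_eq_zero.1 h1 with h3 | h3
  · exfalso
    apply hκψ
    have h4 : conj (ψ (Ideal.span {κ})) = 1 := (sub_eq_zero.1 h3).symm
    have h5 := congrArg conj h4
    simpa using h5
  · exact h3

end HC
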