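import Mathlib
import Pool.Agent.Lib.MP_0f5a55_nt.HC.D
open Complex MeasureTheory Set Filter Topology
open scoped Real ComplexConjugate NumberField

namespace HC

variable {K : Type*} [Field K] [NumberField K]

/-- identity for commuting two by two matrices -/
theorem H14_comm (M N : Matrix (Fin 2) (Fin 2) ℤ) (h : M * N = N * M) :
    ((M + N).det - M.det - N.det) ^ 2 - 4 * M.det * N.det =
      (M * M).trace * (N * N).trace - (M * N).trace * (N * M).trace := by
  have h00 := congrFun (congrFun h 0) 0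
  have h01 := congrFun (congrFun h 0) 1
  have h10 := congrFun (congrFun h 1) 0
  simp only [Matrix.mul_apply, Fin.sum_univ_two] at h00 h01 h10
  simp only [Matrix.det_fin_two, Matrix.trace_fin_two, Matrix.mul_apply, Fin.sum_univ_two,
    Matrix.add_apply]
  linear_combination (2 * (M 1 0 * (N 0 0 - N 1 1) - N 1 0 * (M 0 0 - M 1 1))) * h01 +
    (2 * (M 0 1 * N 1 0 - N 0 1 * M 1 0)) * h00

/-- a definite form which represents a positive number is positive definite -/
theorem H14_pos (A B C : ℤ) (hD : 0 < 4 * A * C - B ^ 2) (x y : ℤ)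
    (h : 0 < A * x ^ 2 + B * x * y + C * y ^ 2) : 0 < A := by
  by_contra hA
  have hA' : A ≤ 0 := not_lt.mp hA
  have e : 4 * A * (A * x ^ 2 + B * x * y + C * y ^ 2) =
      (2 * A * x + B * y) ^ 2 + (4 * A * C - B ^ 2) * y ^ 2 := by ring
  have h1 : 4 * A * (A * x ^ 2 + B * x * y + C * y ^ 2) ≤ 0 :=
    mul_nonpos_of_nonpos_of_nonneg (by linarith) h.le
  have h2 : A ≠ 0 := by
    rintro rfl
    nlinarith [sq_nonneg B]
  have h3 : A < 0 := lt_of_le_of_ne hA' h2
  have h4 : 4 * A * (A * x ^ 2 + B * x * y + C * y ^ 2) < 0 :=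
    mul_neg_of_neg_of_pos (by linarith) h
  rw [e] at h4
  nlinarith [sq_nonneg (2 * A * x + B * y), mul_nonneg hD.le (sq_nonneg y)]

/-- Row H14. The norm form in a basis of a sublattice of index m. -/
theorem disc_form [NumberField.IsTotallyComplex K] (h2 : Module.finrank ℚ K = 2) {m : ℕ} (hm : 0 < m)
    {L : AddSubgroup (𝓞 K)} (hL : L.index = m) :
    ∃ (v₁ v₂ : 𝓞 K) (F : Fm), (∀ α : 𝓞 K, α ∈ L ↔ ∃ x y : ℤ, α = x * v₁ + y * v₂) ∧
      (∀ x y : ℤ, Algebra.norm ℤ ((x : 𝓞 K) * v₁ + y * v₂) = F.val (x, y)) ∧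
      F.Pos ((NumberField.discr K).natAbs * m ^ 2) := by
  classical
  have hr : Module.finrank ℤ (𝓞 K) = 2 := by rw [NumberField.RingOfIntegers.rank, h2]
  let e : Module.Basis (Fin 2) ℤ (𝓞 K) := Module.finBasisOfFinrankEq ℤ (𝓞 K) hr
  obtain ⟨n, snf⟩ := Submodule.smithNormalForm e (AddSubgroup.toIntSubmodule L)
  have hn : n = 2 := by
    have h3 := (snf.toAddSubgroup_index_ne_zero_iff).1 (by
      rw [AddSubgroup.toIntSubmodule_toAddSubgroup, hL]
      exact hm.ne')
    simpa using h3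
  subst hn
  obtain ⟨bL, hbL⟩ : ∃ b : Module.Basis (Fin 2) ℤ (AddSubgroup.toIntSubmodule L), b = snf.bN :=
    ⟨_, rfl⟩
  obtain ⟨v₁, hv1⟩ : ∃ v : 𝓞 K, v = (bL 0 : 𝓞 K) := ⟨_, rfl⟩
  obtain ⟨v₂, hv2⟩ : ∃ v : 𝓞 K, v = (bL 1 : 𝓞 K) := ⟨_, rfl⟩
  have hdet : (e.det (fun i => (bL i : 𝓞 K))).natAbs = m := by
    rw [← hL]
    exact Submodule.natAbs_det_basis_change e (AddSubgroup.toIntSubmodule L) bL
  -- membership
  have hmem : ∀ α : 𝓞 K, α ∈ L ↔ ∃ x y : ℤ, α = x * v₁ + y * v₂ := by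
    intro α
    constructor
    · intro hα
      have h3 := bL.sum_repr ⟨α, hα⟩
      rw [Fin.sum_univ_two] at h3
      refine ⟨bL.repr ⟨α, hα⟩ 0, bL.repr ⟨α, hα⟩ 1, ?_⟩
      have h4 := congrArg (fun z : AddSubgroup.toIntSubmodule L => (z : 𝓞 K)) h3
      simp only [Submodule.coe_add, Submodule.coe_smul] at h4
      rw [hv1, hv2, ← zsmul_eq_mul, ← zsmul_eq_mul]
      exact h4.symm
    · rintro ⟨x, y, rfl⟩
      have h5 : v₁ ∈ L := by
        rw [hv1]
        exact (bL 0).2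
      have h6 : v₂ ∈ L := by
        rw [hv2]
        exact (bL 1).2
      rw [← zsmul_eq_mul, ← zsmul_eq_mul]
      exact L.add_mem (L.zsmul_mem h5 x) (L.zsmul_mem h6 y)
  -- norms
  obtain ⟨M, hM⟩ : ∃ M, M = Algebra.leftMulMatrix e v₁ := ⟨_, rfl⟩
  obtain ⟨N, hN⟩ : ∃ N, N = Algebra.leftMulMatrix e v₂ := ⟨_, rfl⟩
  have hMN : M * N = N * M := by
    rw [hM, hN, ← map_mul, ← map_mul, mul_comm]
  obtain ⟨F, hF⟩ : ∃ F : Fm, F = ⟨M.det, (M + N).det - M.det - N.det, N.det⟩ := ⟨_, rfl⟩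
  have hnorm : ∀ x y : ℤ, Algebra.norm ℤ ((x : 𝓞 K) * v₁ + y * v₂) = F.val (x, y) := by
    intro x y
    rw [Algebra.norm_eq_matrix_det e, ← zsmul_eq_mul, ← zsmul_eq_mul, map_add, map_zsmul,
      map_zsmul, ← hM, ← hN, hF]
    simp only [Fm.val, Matrix.det_fin_two, Matrix.add_apply, Matrix.smul_apply, smul_eq_mul]
    ring
  -- discriminant
  have hdisc : Algebra.discr ℤ (fun i => (bL i : 𝓞 K)) =
      (e.det (fun i => (bL i : 𝓞 K))) ^ 2 * NumberField.discr K := by
    rw [← NumberField.discr_eq_discr K e, Module.Basis.det_apply, ← Algebra.discr_of_matrix_vecMul,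
      Module.Basis.toMatrix_map_vecMul]
  have htr : ∀ a b : 𝓞 K, Algebra.trace ℤ (𝓞 K) (a * b) =
      (Algebra.leftMulMatrix e a * Algebra.leftMulMatrix e b).trace := by
    intro a b
    rw [Algebra.trace_eq_matrix_trace e, map_mul]
  have hdisc2 : Algebra.discr ℤ (fun i => (bL i : 𝓞 K)) =
      (M * M).trace * (N * N).trace - (M * N).trace * (N * M).trace := by
    rw [Algebra.discr_def, Matrix.det_fin_two]
    simp only [Algebra.traceMatrix_apply, Algebra.traceForm_apply]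
    rw [htr, htr, htr, htr, ← hv1, ← hv2, ← hM, ← hN]
  have hsq : (e.det (fun i => (bL i : 𝓞 K))) ^ 2 = (m : ℤ) ^ 2 := by
    rw [← hdet, Int.natAbs_sq]
  have hneg : NumberField.discr K < 0 := by
    have h7 := NumberField.InfinitePlace.card_add_two_mul_card_eq_rank K
    have h8 : NumberField.InfinitePlace.nrRealPlaces K = 0 :=
      NumberField.IsTotallyComplex.nrRealPlaces_eq_zero K
    have h9 : NumberField.InfinitePlace.nrComplexPlaces K = 1 := by omega
    have h10 := NumberField.sign_discr K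
    rw [h9, pow_one] at h10
    exact Int.sign_eq_neg_one_iff_neg.mp h10
  have hkey : 4 * F.A * F.C - F.B ^ 2 = ((NumberField.discr K).natAbs : ℤ) * (m : ℤ) ^ 2 := by
    have h11 := H14_comm M N hMN
    rw [← hdisc2, hdisc, hsq] at h11
    have h12 : ((NumberField.discr K).natAbs : ℤ) = - NumberField.discr K := by
      rw [Int.natCast_natAbs, abs_of_neg hneg]
    rw [h12, hF]
    simp only
    linear_combination -h11
  have hN0 : 0 < (NumberField.discr K).natAbs := Int.natAbs_pos.mpr hneg.ne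
  refine ⟨v₁, v₂, F, hmem, hnorm, ?_, ?_, ?_⟩
  · positivity
  · have h13 : (m : 𝓞 K) ∈ L := by
      have h14 := L.nsmul_index_mem (1 : 𝓞 K)
      rwa [hL, nsmul_eq_mul, mul_one] at h14
    obtain ⟨x, y, hxy⟩ := (hmem _).1 h13
    have h15 := hnorm x y
    rw [← hxy] at h15
    have h16 : Algebra.norm ℤ (m : 𝓞 K) = (m : ℤ) ^ 2 := by
      have h17 := Algebra.norm_algebraMap_of_basis e (m : ℤ)
      rw [Fintype.card_fin] at h17
      rw [← h17]
      congr 1
      simp
    rw [h16] at h15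
    refine H14_pos F.A F.B F.C ?_ x y ?_
    · rw [hkey]
      positivity
    · have h18 : F.val (x, y) = F.A * x ^ 2 + F.B * x * y + F.C * y ^ 2 := rfl
      rw [← h18, ← h15]
      positivity
  · rw [hkey]
    push_cast
    rfl

end HC
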