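import Mathlib
import Pool.Agent.Lib.MP_0f5a55_nt.HC.D
open Complex MeasureTheory Set Filter Topology
open scoped Real ComplexConjugate NumberField

namespace HC

variable {K : Type*} [Field K] [NumberField K]

/-- The norm of a rational integer. -/
theorem H15_norm_int (h2 : Module.finrank ℚ K = 2) (n : ℤ) :
    Algebra.norm ℤ ((n : 𝓞 K)) = n ^ 2 := by
  have h := Algebra.norm_algebraMap (R := ℤ) (S := 𝓞 K) n
  rw [NumberField.RingOfIntegers.rank, h2] at h
  simpa using h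

theorem H15_dvd (h2 : Module.finrank ℚ K = 2) (f : ℕ) (n : ℤ) :
    (f : 𝓞 K) ∣ (n : 𝓞 K) ↔ (f : ℤ) ∣ n := by
  constructor
  · rintro ⟨x, hx⟩
    have h := congrArg (Algebra.norm ℤ) hx
    rw [map_mul, H15_norm_int h2] at h
    have h3 : Algebra.norm ℤ ((f : 𝓞 K)) = (f : ℤ) ^ 2 := by
      have := H15_norm_int (K := K) h2 (f : ℤ)
      simpa using this
    rw [h3] at h
    exact (Int.pow_dvd_pow_iff two_ne_zero).1 ⟨_, h⟩
  · rintro ⟨m, hm⟩
    refine ⟨(m : 𝓞 K), ?_⟩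
    rw [hm]
    push_cast
    ring

theorem H15_index_ideal (a : Ideal (𝓞 K)) :
    (Submodule.toAddSubgroup a).index = Ideal.absNorm a := rfl

theorem H15_index_f (h2 : Module.finrank ℚ K = 2) (f : ℕ) :
    (Submodule.toAddSubgroup (Ideal.span {(f : 𝓞 K)})).index = f ^ 2 := by
  rw [H15_index_ideal, Ideal.absNorm_span_singleton]
  have := H15_norm_int (K := K) h2 (f : ℤ)
  rw [Int.cast_natCast] at this
  rw [this]
  simp [Int.natAbs_pow]

omit [NumberField K] in
theorem H15_ord (f : ℕ) :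
    lat f (⊤ : Ideal (𝓞 K)) =
      Submodule.toAddSubgroup (Ideal.span {(f : 𝓞 K)}) ⊔ (Int.castAddHom (𝓞 K)).range := by
  ext x
  rw [AddSubgroup.mem_sup]
  constructor
  · rintro ⟨_, m, hm⟩
    exact ⟨x - m, Ideal.mem_span_singleton.2 hm, m, ⟨m, rfl⟩, by ring⟩
  · rintro ⟨y, hy, z, ⟨m, rfl⟩, rfl⟩
    refine ⟨trivial, m, ?_⟩
    have h : (f : 𝓞 K) ∣ y := Ideal.mem_span_singleton.1 hy
    simpa using h

theorem H15_index_ord (h2 : Module.finrank ℚ K = 2) {f : ℕ} (hf : 0 < f) :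
    (lat f (⊤ : Ideal (𝓞 K))).index = f := by
  have h1 := AddSubgroup.index_comap (Int.castAddHom (𝓞 K))
    (H := Submodule.toAddSubgroup (Ideal.span {(f : 𝓞 K)}))
  have h3 : (Submodule.toAddSubgroup (Ideal.span {(f : 𝓞 K)})).comap (Int.castAddHom (𝓞 K)) =
      AddSubgroup.zmultiples (f : ℤ) := by
    ext n
    rw [Int.mem_zmultiples_iff, ← H15_dvd (K := K) h2 f n]
    exact Ideal.mem_span_singleton
  rw [h3, Int.index_zmultiples] at h1
  have h4 : (Submodule.toAddSubgroup (Ideal.span {(f : 𝓞 K)})).relIndex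
      (lat f (⊤ : Ideal (𝓞 K))) = f := by
    rw [H15_ord, sup_comm, AddSubgroup.relIndex_sup_right, ← h1]
    simp
  have h5 := AddSubgroup.relIndex_mul_index
    (H := Submodule.toAddSubgroup (Ideal.span {(f : 𝓞 K)})) (K := lat f (⊤ : Ideal (𝓞 K)))
    (by rw [H15_ord]; exact le_sup_left)
  rw [h4, H15_index_f h2, pow_two] at h5
  exact Nat.eq_of_mul_eq_mul_left hf h5

/-- Row H15. The index of the lattice of an ideal. -/
theorem index_lat (h2 : Module.finrank ℚ K = 2) {f : ℕ} (hf : 0 < f) {a : Ideal (𝓞 K)} (ha : Cop f a) :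
    (lat f a).index = Ideal.absNorm a * f := by
  have h1 : lat f a = Submodule.toAddSubgroup a ⊓ lat f (⊤ : Ideal (𝓞 K)) := by
    ext x
    constructor
    · rintro ⟨h, h'⟩
      exact ⟨h, trivial, h'⟩
    · rintro ⟨h, _, h'⟩
      exact ⟨h, h'⟩
  have h3 : Submodule.toAddSubgroup a ⊔ lat f (⊤ : Ideal (𝓞 K)) = ⊤ := by
    rw [eq_top_iff]
    intro x _
    obtain ⟨u, hu, v, hv, huv⟩ := Ideal.isCoprime_iff_exists.1 ha.2
    rw [AddSubgroup.mem_sup]
    refine ⟨x * u, a.mul_mem_left x hu, x * v, ⟨trivial, 0, ?_⟩, ?_⟩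
    · have h : (f : 𝓞 K) ∣ v := Ideal.mem_span_singleton.1 hv
      simpa using h.mul_left x
    · rw [← mul_add, huv, mul_one]
  have h4 := AddSubgroup.relIndex_mul_index
    (H := Submodule.toAddSubgroup a ⊓ lat f (⊤ : Ideal (𝓞 K))) (K := lat f (⊤ : Ideal (𝓞 K)))
    inf_le_right
  rw [AddSubgroup.inf_relIndex_right, H15_index_ord h2 hf] at h4
  have h5 : (Submodule.toAddSubgroup a).relIndex (lat f (⊤ : Ideal (𝓞 K))) = Ideal.absNorm a := by
    rw [← AddSubgroup.relIndex_sup_right, sup_comm, h3, AddSubgroup.relIndex_top_right,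
      H15_index_ideal]
  rw [h1, ← h4, h5]

end HC
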