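import Mathlib
import Pool.Agent.Lib.MP_0f5a55_nt.HC.H14
import Pool.Agent.Lib.MP_0f5a55_nt.HC.H15
open Complex MeasureTheory Set Filter Topology
open scoped Real ComplexConjugate NumberField

namespace HC

variable {K : Type*} [Field K] [NumberField K]

theorem H16_dvd {a : Ideal (𝓞 K)} {x : 𝓞 K} (hx : x ∈ a) :
    (Ideal.absNorm a : ℤ) ∣ Algebra.norm ℤ x := by
  have h1 : Ideal.span {x} ≤ a := (Ideal.span_singleton_le_iff_mem a).2 hx
  have h2 : Ideal.absNorm a ∣ Ideal.absNorm (Ideal.span {x}) := Ideal.absNorm_dvd_absNorm_of_le h1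
  rw [Ideal.absNorm_span_singleton] at h2
  exact Int.natCast_dvd.2 h2

/-- Row H16. The form of an ideal. -/
theorem exists_form [NumberField.IsTotallyComplex K] (h2 : Module.finrank ℚ K = 2) {f : ℕ} (hf : 0 < f)
    {a : Ideal (𝓞 K)} (ha : Cop f a) : ∃ F : Fm, FormOf f a F ∧ F.Pos (lev K f) := by
  have hN0 : Ideal.absNorm a ≠ 0 := by
    intro h
    exact ha.1 (Ideal.absNorm_eq_zero_iff.1 h)
  have hN : 0 < Ideal.absNorm a := Nat.pos_of_ne_zero hN0
  have hm : 0 < Ideal.absNorm a * f := Nat.mul_pos hN hf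
  obtain ⟨v₁, v₂, F', hL, hval, hpos⟩ := disc_form h2 hm (index_lat h2 hf ha)
  have hmem : ∀ x y : ℤ, ((x : 𝓞 K) * v₁ + y * v₂) ∈ a := by
    intro x y
    have h := (hL ((x : 𝓞 K) * v₁ + y * v₂)).2 ⟨x, y, rfl⟩
    exact h.1
  have hd : ∀ x y : ℤ, (Ideal.absNorm a : ℤ) ∣ F'.val (x, y) := by
    intro x y
    rw [← hval x y]
    exact H16_dvd (hmem x y)
  have hA : (Ideal.absNorm a : ℤ) ∣ F'.A := by
    have h := hd 1 0
    simpa [Fm.val] using h
  have hC : (Ideal.absNorm a : ℤ) ∣ F'.C := by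
    have h := hd 0 1
    simpa [Fm.val] using h
  have hB : (Ideal.absNorm a : ℤ) ∣ F'.B := by
    have h := hd 1 1
    have h' : (Ideal.absNorm a : ℤ) ∣ F'.A + F'.B + F'.C := by simpa [Fm.val] using h
    have h3 := dvd_sub (dvd_sub h' hA) hC
    have h4 : F'.A + F'.B + F'.C - F'.A - F'.C = F'.B := by ring
    rwa [h4] at h3
  obtain ⟨A, hA⟩ := hA
  obtain ⟨B, hB⟩ := hB
  obtain ⟨C, hC⟩ := hC
  obtain ⟨hp1, hp2, hp3⟩ := hpos
  have hNz : (0 : ℤ) < (Ideal.absNorm a : ℤ) := by exact_mod_cast hN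
  refine ⟨⟨A, B, C⟩, ⟨v₁, v₂, hL, ?_⟩, ?_, ?_, ?_⟩
  · intro x y
    rw [hval x y]
    simp only [Fm.val]
    rw [hA, hB, hC]
    ring
  · -- positivity of the level
    have h1 : 0 < (NumberField.discr K).natAbs := by
      rcases Nat.eq_zero_or_pos (NumberField.discr K).natAbs with h | h
      · rw [h] at hp1
        simp at hp1
      · exact h
    exact Nat.mul_pos h1 (pow_pos hf 2)
  · show 0 < A
    rw [hA] at hp2
    exact (pos_iff_pos_of_mul_pos hp2).1 hNz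
  · show 4 * A * C - B ^ 2 = ((lev K f : ℕ) : ℤ)
    rw [hA, hB, hC] at hp3
    have hne : ((Ideal.absNorm a : ℤ)) ^ 2 ≠ 0 := pow_ne_zero 2 hNz.ne'
    apply mul_left_cancel₀ hne
    unfold lev
    push_cast at hp3 ⊢
    linear_combination hp3

end HC
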