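import Mathlib
import Pool.Agent.Lib.MP_0f5a55_nt.HC.D
open Complex MeasureTheory Set Filter Topology
open scoped Real ComplexConjugate NumberField

namespace HC

variable {K : Type*} [Field K] [NumberField K]

/-- an integral basis which contains 1 -/
theorem H11_basis (h2 : Module.finrank ℚ K = 2) :
    ∃ b : Module.Basis (Fin 2) ℤ (𝓞 K), b 0 = 1 := by
  have hr : Module.finrank ℤ (𝓞 K) = 2 := by rw [NumberField.RingOfIntegers.rank, h2]
  obtain ⟨b, -⟩ : ∃ b : Module.Basis (Fin 2) ℤ (𝓞 K), True :=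
    ⟨Module.finBasisOfFinrankEq ℤ (𝓞 K) hr, trivial⟩
  obtain ⟨x, hx⟩ : ∃ x, x = b.repr 1 0 := ⟨_, rfl⟩
  obtain ⟨y, hy⟩ : ∃ y, y = b.repr 1 1 := ⟨_, rfl⟩
  have h1 : (1 : 𝓞 K) = (x : 𝓞 K) * b 0 + (y : 𝓞 K) * b 1 := by
    have h := b.sum_repr 1
    rw [Fin.sum_univ_two, ← hx, ← hy, zsmul_eq_mul, zsmul_eq_mul] at h
    exact h.symm
  have hg : Int.gcd x y = 1 := by
    obtain ⟨g, hgdef⟩ : ∃ g, g = Int.gcd x y := ⟨_, rfl⟩
    obtain ⟨x', hx'⟩ : (g : ℤ) ∣ x := hgdef ▸ Int.gcd_dvd_left x y
    obtain ⟨y', hy'⟩ : (g : ℤ) ∣ y := hgdef ▸ Int.gcd_dvd_right x y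
    have h3 : (1 : 𝓞 K) = algebraMap ℤ (𝓞 K) (g : ℤ) * ((x' : 𝓞 K) * b 0 + (y' : 𝓞 K) * b 1) := by
      rw [hx', hy'] at h1
      push_cast at h1 ⊢
      linear_combination h1
    have h4 := congrArg (Algebra.norm ℤ) h3
    rw [map_one, map_mul, Algebra.norm_algebraMap] at h4
    have h5 : (g : ℤ) ∣ 1 := by
      rw [h4, hr]
      exact Dvd.dvd.mul_right (dvd_pow_self _ two_ne_zero) _
    have h6 : g ∣ 1 := by exact_mod_cast h5
    rw [← hgdef]
    exact Nat.dvd_one.1 h6
  obtain ⟨u, v, huv⟩ : ∃ u v : ℤ, x * u + y * v = 1 := by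
    refine ⟨Int.gcdA x y, Int.gcdB x y, ?_⟩
    rw [← Int.gcd_eq_gcd_ab, hg]
    rfl
  obtain ⟨w, hw⟩ : ∃ w : 𝓞 K, w = b.repr.symm (Finsupp.single 0 (-v) + Finsupp.single 1 u) :=
    ⟨_, rfl⟩
  have hw0 : b.repr w 0 = -v := by
    rw [hw, LinearEquiv.apply_symm_apply]
    simp
  have hw1 : b.repr w 1 = u := by
    rw [hw, LinearEquiv.apply_symm_apply]
    simp
  have hdet : IsUnit (b.det ![1, w]) := by
    rw [Module.Basis.det_apply, Matrix.det_fin_two]
    simp only [Module.Basis.toMatrix_apply, Matrix.cons_val_zero, Matrix.cons_val_one]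
    rw [← hx, ← hy, hw0, hw1]
    have : x * u - -v * y = 1 := by linear_combination huv
    rw [this]
    exact isUnit_one
  obtain ⟨hli, hsp⟩ := (Module.Basis.is_basis_iff_det b).2 hdet
  refine ⟨Module.Basis.mk hli hsp.ge, ?_⟩
  rw [Module.Basis.mk_apply]
  rfl

/-- an integral generator and the discriminant -/
theorem H11_quad (h2 : Module.finrank ℚ K = 2) : ∃ (w : 𝓞 K) (c d : ℤ),
    w * w = (c : 𝓞 K) + (d : 𝓞 K) * w ∧ NumberField.discr K = d ^ 2 + 4 * c := by
  obtain ⟨b, hb⟩ := H11_basis h2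
  obtain ⟨w, hw⟩ : ∃ w, w = b 1 := ⟨_, rfl⟩
  obtain ⟨c, hc⟩ : ∃ c, c = b.repr (w * w) 0 := ⟨_, rfl⟩
  obtain ⟨d, hd⟩ : ∃ d, d = b.repr (w * w) 1 := ⟨_, rfl⟩
  have h1 : w * w = (c : 𝓞 K) + (d : 𝓞 K) * w := by
    have h := b.sum_repr (w * w)
    rw [Fin.sum_univ_two, ← hc, ← hd, zsmul_eq_mul, zsmul_eq_mul, hb, ← hw, mul_one] at h
    exact h.symm
  have htr : ∀ z : 𝓞 K, Algebra.trace ℤ (𝓞 K) z = b.repr z 0 + b.repr (z * w) 1 := by
    intro z
    rw [Algebra.trace_eq_matrix_trace b, Matrix.trace, Fin.sum_univ_two, Matrix.diag_apply,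
      Matrix.diag_apply, Algebra.leftMulMatrix_eq_repr_mul, Algebra.leftMulMatrix_eq_repr_mul, hb,
      ← hw, mul_one]
  have hr1 : b.repr 1 = Finsupp.single 0 1 := by
    rw [← hb, Module.Basis.repr_self]
  have hrw : b.repr w = Finsupp.single 1 1 := by
    rw [hw, Module.Basis.repr_self]
  have ht1 : Algebra.trace ℤ (𝓞 K) 1 = 2 := by
    rw [htr, one_mul, hr1, hrw]
    simp
  have htw : Algebra.trace ℤ (𝓞 K) w = d := by
    rw [htr, hrw, ← hd]
    simp
  have htww : Algebra.trace ℤ (𝓞 K) (w * w) = 2 * c + d ^ 2 := by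
    have h3 : w * w = c • (1 : 𝓞 K) + d • w := by
      rw [h1, zsmul_eq_mul, zsmul_eq_mul, mul_one]
    rw [h3, map_add, map_zsmul, map_zsmul, ht1, htw]
    simp only [smul_eq_mul]
    ring
  refine ⟨w, c, d, h1, ?_⟩
  rw [← NumberField.discr_eq_discr K b, Algebra.discr_def, Matrix.det_fin_two]
  simp only [Algebra.traceMatrix_apply, Algebra.traceForm_apply, hb, ← hw, mul_one, one_mul]
  rw [ht1, htw, htww]
  ring

open scoped NumberTheorySymbols in
/-- the Jacobi symbol of a negative discriminant at `p = -1` -/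
theorem H11_jac {D c d : ℤ} (hD : D = d ^ 2 + 4 * c) (hneg : D < 0) (p : ℕ) (hp : p % 2 = 1)
    (hd : D.natAbs ∣ p + 1) : J(D | p) = -1 := by
  obtain ⟨m, hm⟩ : ∃ m, m = D.natAbs := ⟨_, rfl⟩
  have hDm : D = -(m : ℤ) := by omega
  have hm0 : 0 < m := by omega
  have hpo : Odd p := Nat.odd_iff.2 hp
  have h4 : D % 4 = 0 ∨ D % 4 = 1 := by
    rcases Int.even_or_odd' d with ⟨e, he | he⟩
    · left
      have : D = 4 * (e ^ 2 + c) := by rw [hD, he]; ring
      omega
    · right
      have : D = 4 * (e ^ 2 + e + c) + 1 := by rw [hD, he]; ring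
      omega
  rw [← hm] at hd
  rcases h4 with h4 | h4
  · -- D = 4 a
    obtain ⟨a, ha⟩ : ∃ a, D = 4 * a := ⟨D / 4, by omega⟩
    have hmm : m % 4 = 0 := by omega
    have h4a : 4 * a.natAbs = m := by omega
    have h5 : J(a | p) = J(a | p % m) := by
      rw [← h4a]
      exact jacobiSym.mod_right a hpo
    have h6 : p % m = m - 1 := by
      obtain ⟨k, hk⟩ := hd
      have hk0 : 0 < k := by
        rcases Nat.eq_zero_or_pos k with h | h
        · rw [h] at hk
          omega
        · exact h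
      obtain ⟨j, rfl⟩ : ∃ j, k = j + 1 := ⟨k - 1, by omega⟩
      have : p = (m - 1) + m * j := by
        have : m * (j + 1) = m * j + m := by ring
        omega
      rw [this, Nat.add_mul_mod_self_left, Nat.mod_eq_of_lt (by omega)]
    have hodd : Odd (m - 1) := Nat.odd_iff.2 (by omega)
    have h7 : J(D | p) = J(a | p) := by
      rw [ha, jacobiSym.mul_left, jacobiSym.at_four hpo, one_mul]
    have h8 : J(D | m - 1) = J(a | m - 1) := by
      rw [ha, jacobiSym.mul_left, jacobiSym.at_four hodd, one_mul]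
    have h9 : J(D | m - 1) = J(-1 | m - 1) := by
      apply jacobiSym.mod_left'
      have : D = -1 + ((m - 1 : ℕ) : ℤ) * (-1) := by
        rw [hDm]
        omega
      rw [this, Int.add_mul_emod_self_left]
    rw [h7, h5, h6, ← h8, h9, jacobiSym.at_neg_one hodd, ZMod.χ₄_nat_three_mod_four (by omega)]
  · -- D = 1 mod 4
    have hmm : m % 4 = 3 := by omega
    have h5 : J(D | p) = J(D | p % (4 * m)) := by
      rw [hm]
      exact jacobiSym.mod_right D hpo
    have h6 : p % (4 * m) = 2 * m - 1 ∨ p % (4 * m) = 4 * m - 1 := by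
      obtain ⟨k, hk⟩ := hd
      have hk2 : k % 2 = 0 := by
        rcases Nat.mod_two_eq_zero_or_one k with h | h
        · exact h
        · exfalso
          have h9 : (m * k) % 2 = 1 := by
            rw [Nat.mul_mod, h]
            omega
          omega
      obtain ⟨j, hj⟩ : ∃ j, k = 2 * j := ⟨k / 2, by omega⟩
      have hj0 : 0 < j := by
        rcases Nat.eq_zero_or_pos j with h | h
        · rw [hj, h] at hk
          omega
        · exact h
      rcases Nat.even_or_odd' j with ⟨i, hi | hi⟩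
      · right
        obtain ⟨i', rfl⟩ : ∃ i', i = i' + 1 := ⟨i - 1, by omega⟩
        have : p = (4 * m - 1) + (4 * m) * i' := by
          have : m * k = 4 * m * i' + 4 * m := by rw [hj, hi]; ring
          omega
        rw [this, Nat.add_mul_mod_self_left, Nat.mod_eq_of_lt (by omega)]
      · left
        have : p = (2 * m - 1) + (4 * m) * i := by
          have : m * k = 4 * m * i + 2 * m := by rw [hj, hi]; ring
          omega
        rw [this, Nat.add_mul_mod_self_left, Nat.mod_eq_of_lt (by omega)]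
    rw [h5]
    rcases h6 with h6 | h6
    · rw [h6]
      have hodd : Odd (2 * m - 1) := Nat.odd_iff.2 (by omega)
      have h7 : J(2 * D | 2 * m - 1) = J(-1 | 2 * m - 1) := by
        apply jacobiSym.mod_left'
        have : 2 * D = -1 + ((2 * m - 1 : ℕ) : ℤ) * (-1) := by
          rw [hDm]
          omega
        rw [this, Int.add_mul_emod_self_left]
      rw [jacobiSym.mul_left, jacobiSym.at_two hodd, jacobiSym.at_neg_one hodd,
        ZMod.χ₄_nat_one_mod_four (by omega), ZMod.χ₈_nat_eq_if_mod_eight] at h7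
      have h8 : ¬ (2 * m - 1) % 2 = 0 := by omega
      have h9 : ¬ ((2 * m - 1) % 8 = 1 ∨ (2 * m - 1) % 8 = 7) := by omega
      rw [if_neg h8, if_neg h9] at h7
      linarith
    · rw [h6]
      have hodd : Odd (4 * m - 1) := Nat.odd_iff.2 (by omega)
      have h7 : J(4 * D | 4 * m - 1) = J(-1 | 4 * m - 1) := by
        apply jacobiSym.mod_left'
        have : 4 * D = -1 + ((4 * m - 1 : ℕ) : ℤ) * (-1) := by
          rw [hDm]
          omega
        rw [this, Int.add_mul_emod_self_left]
      rw [jacobiSym.mul_left, jacobiSym.at_four hodd, jacobiSym.at_neg_one hodd,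
        ZMod.χ₄_nat_three_mod_four (by omega), one_mul] at h7
      exact h7

theorem H11_two : ∀ z : ZMod 2, z * z = 1 + 1 * z → False := by decide

theorem H11_discr_neg [NumberField.IsTotallyComplex K] (h2 : Module.finrank ℚ K = 2) :
    NumberField.discr K < 0 := by
  have h1 := NumberField.sign_discr K
  have h3 := NumberField.InfinitePlace.card_add_two_mul_card_eq_rank K
  rw [NumberField.IsTotallyComplex.nrRealPlaces_eq_zero, h2] at h3
  have h4 : NumberField.InfinitePlace.nrComplexPlaces K = 1 := by omega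
  rw [h4, pow_one] at h1
  exact Int.sign_eq_neg_one_iff_neg.1 h1

/-- Row H11. A prime p = -1 modulo the discriminant is inert. -/
theorem ac_inert [NumberField.IsTotallyComplex K] (h2 : Module.finrank ℚ K = 2) {f : ℕ}
    {ψ : Ideal (𝓞 K) →*₀ ℂ} (h : RingClass f ψ) (p : ℕ) (hp : p.Prime) (hd : lev K f ∣ p + 1) : ac ψ p = 0 := by
  have hfp : Fact p.Prime := ⟨hp⟩
  have hno : ∀ I : Ideal (𝓞 K), Ideal.absNorm I ≠ p := by
    intro I hI
    obtain ⟨w, c, d, hw, hD⟩ := H11_quad h2
    have hneg := H11_discr_neg h2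
    have hDd : (NumberField.discr K).natAbs ∣ p + 1 := (Dvd.intro _ rfl).trans hd
    obtain ⟨D, hDdef⟩ : ∃ D, D = NumberField.discr K := ⟨_, rfl⟩
    rw [← hDdef] at hD hneg hDd
    -- the residue field
    have hcard : Nat.card (𝓞 K ⧸ I) = p := by
      rw [← hI, Ideal.absNorm_apply, Submodule.cardQuot_apply]
    have hfin : Finite (𝓞 K ⧸ I) := Nat.finite_of_card_ne_zero (by rw [hcard]; exact hp.ne_zero)
    have hft : Fintype (𝓞 K ⧸ I) := Fintype.ofFinite _
    have hcard' : Fintype.card (𝓞 K ⧸ I) = p := by rw [← Nat.card_eq_fintype_card, hcard]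
    let φ : 𝓞 K →+* ZMod p :=
      ((ZMod.ringEquivOfPrime (𝓞 K ⧸ I) hp hcard').symm : (𝓞 K ⧸ I) →+* ZMod p).comp
        (Ideal.Quotient.mk I)
    have hφ : φ w * φ w = (c : ZMod p) + (d : ZMod p) * φ w := by
      have := congrArg φ hw
      rwa [map_mul, map_add, map_mul, map_intCast, map_intCast] at this
    have hsq : ((D : ℤ) : ZMod p) = (2 * φ w - d) * (2 * φ w - d) := by
      rw [hD]
      push_cast
      linear_combination -4 * hφ
    rcases hp.eq_two_or_odd with rfl | hodd
    · -- p = 2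
      have h3 : D.natAbs = 1 ∨ D.natAbs = 3 := by
        have : D.natAbs ∣ 3 := hDd
        exact (Nat.dvd_prime Nat.prime_three).1 this
      have h4 : D % 4 = 0 ∨ D % 4 = 1 := by
        rcases Int.even_or_odd' d with ⟨e, he | he⟩
        · left
          have : D = 4 * (e ^ 2 + c) := by rw [hD, he]; ring
          omega
        · right
          have : D = 4 * (e ^ 2 + e + c) + 1 := by rw [hD, he]; ring
          omega
      have h5 : D = -3 := by omega
      rcases Int.even_or_odd' d with ⟨e, he | he⟩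
      · have : D = 4 * (e ^ 2 + c) := by rw [hD, he]; ring
        omega
      · have h6 : e ^ 2 + e + c = -1 := by
          have : D = 4 * (e ^ 2 + e + c) + 1 := by rw [hD, he]; ring
          omega
        have h7 : c % 2 = 1 := by
          have h8 : (e * (e + 1)) % 2 = 0 := by
            rcases Int.emod_two_eq_zero_or_one e with h | h
            · rw [Int.mul_emod, h]
              simp
            · rw [Int.mul_emod, Int.add_emod, h]
              norm_num
          have h9 : e ^ 2 + e = e * (e + 1) := by ring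
          omega
        have hc : ((c : ℤ) : ZMod 2) = 1 := by
          have : c = 1 + 2 * (c / 2) := by omega
          rw [this]
          push_cast
          have : (2 : ZMod 2) = 0 := rfl
          rw [this]
          ring
        have hdd : ((d : ℤ) : ZMod 2) = 1 := by
          rw [he]
          push_cast
          have : (2 : ZMod 2) = 0 := rfl
          rw [this]
          ring
        rw [hc, hdd] at hφ
        exact H11_two _ hφ
    · have hJ := H11_jac hD hneg p hodd hDd
      have := ZMod.nonsquare_of_jacobiSym_eq_neg_one hJ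
      exact this ⟨_, hsq⟩
  unfold ac
  refine finsum_eq_zero_of_forall_eq_zero fun I => ?_
  have : IsEmpty (Ideal.absNorm I = p) := ⟨hno I⟩
  exact finsum_of_isEmpty _

end HC
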