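import Mathlib
import Pool.Agent.Lib.MP_0f5a55_nt.HC.D
open Complex MeasureTheory Set Filter Topology
open scoped Real ComplexConjugate NumberField

namespace HC

/-- Row H01. Lower bound for a positive form; Gaussian sums over Z^2 without the origin. -/
theorem val_lower {F : Fm} {N : ℕ} (h : F.Pos N) :
    ∃ c : ℝ, 0 < c ∧ ∀ v : ℤ × ℤ, c * ((v.1 : ℝ) ^ 2 + (v.2 : ℝ) ^ 2) ≤ (F.val v : ℝ) := by
  obtain ⟨hN, hA, hD⟩ := h
  have hN' : (0 : ℤ) < N := by exact_mod_cast hN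
  have hC : 0 < F.C := by
    by_contra hc
    have hc' : F.C ≤ 0 := not_lt.mp hc
    nlinarith [sq_nonneg F.B, mul_nonneg hA.le (neg_nonneg.mpr hc')]
  have hAR : (0 : ℝ) < F.A := by exact_mod_cast hA
  have hCR : (0 : ℝ) < F.C := by exact_mod_cast hC
  have hNR : (0 : ℝ) < N := by exact_mod_cast hN
  have hDR : 4 * (F.A : ℝ) * F.C - (F.B : ℝ) ^ 2 = N := by exact_mod_cast hD
  refine ⟨N / (4 * (F.A + F.C)), by positivity, ?_⟩
  intro v
  have hv : ((F.val v : ℤ) : ℝ) = F.A * (v.1 : ℝ) ^ 2 + F.B * v.1 * v.2 + F.C * (v.2 : ℝ) ^ 2 := by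
    simp only [Fm.val]
    push_cast
    ring
  rw [hv, div_mul_eq_mul_div, div_le_iff₀ (by positivity)]
  rw [← hDR]
  nlinarith [sq_nonneg (2 * (F.A : ℝ) * v.1 + F.B * v.2), sq_nonneg ((F.B : ℝ) * v.1 + 2 * F.C * v.2)]

/-- the one dimensional majorant -/
private noncomputable def H01_h (s : ℝ) (n : ℤ) : ℝ := 1 / (1 + s * (n : ℝ) ^ 2)

private noncomputable def H01_k (s : ℝ) (n : ℤ) : ℝ := if n = 0 then 0 else H01_h s n

private theorem H01_h_nonneg {s : ℝ} (hs : 0 < s) (n : ℤ) : 0 ≤ H01_h s n := by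
  unfold H01_h
  positivity

private theorem H01_k_nonneg {s : ℝ} (hs : 0 < s) (n : ℤ) : 0 ≤ H01_k s n := by
  unfold H01_k
  split_ifs
  · exact le_rfl
  · exact H01_h_nonneg hs n

private theorem H01_sumA {s : ℝ} (hs : 0 < s) (n : ℕ) :
    ∑ i ∈ Finset.range (n + 1), H01_k s (i : ℤ) ≤ (2 - 2 / ((n : ℝ) + 1)) / s := by
  induction n with
  | zero => simp [H01_k]
  | succ n ih =>
    rw [Finset.sum_range_succ]
    have hk : H01_k s ((n + 1 : ℕ) : ℤ) ≤ (1 / ((n : ℝ) + 1) ^ 2) / s := by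
      have hne : ((n + 1 : ℕ) : ℤ) ≠ 0 := by positivity
      unfold H01_k H01_h
      rw [if_neg hne]
      rw [div_div]
      push_cast
      apply one_div_le_one_div_of_le (by positivity)
      nlinarith [sq_nonneg ((n : ℝ) + 1)]
    have hstep : (1 / ((n : ℝ) + 1) ^ 2) ≤ 2 / ((n : ℝ) + 1) - 2 / ((n : ℝ) + 1 + 1) := by
      rw [div_sub_div _ _ (by positivity) (by positivity), div_le_div_iff₀ (by positivity) (by positivity)]
      have hn : (0 : ℝ) ≤ n := Nat.cast_nonneg n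
      nlinarith [sq_nonneg ((n : ℝ) + 1), mul_nonneg hn (sq_nonneg ((n : ℝ) + 1)), mul_nonneg hn hn]
    have hstep' : (1 / ((n : ℝ) + 1) ^ 2) / s ≤ (2 / ((n : ℝ) + 1) - 2 / ((n : ℝ) + 1 + 1)) / s :=
      div_le_div_of_nonneg_right hstep hs.le
    push_cast
    calc _ ≤ (2 - 2 / ((n : ℝ) + 1)) / s + (2 / ((n : ℝ) + 1) - 2 / ((n : ℝ) + 1 + 1)) / s := by
          have := add_le_add ih (hk.trans hstep')
          simpa using this
      _ = (2 - 2 / ((n : ℝ) + 1 + 1)) / s := by ring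

private theorem H01_arctan {a b : ℝ} (ha : 0 ≤ a) (hab : a < b) :
    (b - a) / (1 + b ^ 2) ≤ Real.arctan b - Real.arctan a := by
  have hmvt := exists_deriv_eq_slope Real.arctan hab
    (Real.continuous_arctan.continuousOn) (Real.differentiable_arctan.differentiableOn)
  obtain ⟨c, hc, hcd⟩ := hmvt
  rw [Real.deriv_arctan] at hcd
  have hcd2 : 1 / (1 + c ^ 2) = (Real.arctan b - Real.arctan a) / (b - a) := hcd
  have hba : 0 < b - a := sub_pos.mpr hab
  have h1 : Real.arctan b - Real.arctan a = (b - a) * (1 / (1 + c ^ 2)) := by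
    rw [hcd2]
    field_simp
  rw [h1, div_eq_mul_one_div]
  apply mul_le_mul_of_nonneg_left _ hba.le
  apply one_div_le_one_div_of_le (by positivity)
  have : c ^ 2 ≤ b ^ 2 := by
    apply pow_le_pow_left₀ (ha.trans hc.1.le) hc.2.le
  linarith

private theorem H01_sumB {s : ℝ} (hs : 0 < s) (n : ℕ) :
    ∑ i ∈ Finset.range (n + 1), H01_k s (i : ℤ) ≤ Real.arctan (√s * n) / √s := by
  have hr : 0 < √s := Real.sqrt_pos.mpr hs
  induction n with
  | zero => simp [H01_k]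
  | succ n ih =>
    rw [Finset.sum_range_succ]
    have hk : H01_k s ((n + 1 : ℕ) : ℤ) ≤
        (Real.arctan (√s * ((n : ℝ) + 1)) - Real.arctan (√s * n)) / √s := by
      have hne : ((n + 1 : ℕ) : ℤ) ≠ 0 := by positivity
      unfold H01_k H01_h
      rw [if_neg hne]
      have h1 := H01_arctan (a := √s * n) (b := √s * ((n : ℝ) + 1)) (by positivity) (by nlinarith)
      rw [le_div_iff₀ hr]
      refine le_trans (le_of_eq ?_) h1
      push_cast
      have hsq : (√s * ((n : ℝ) + 1)) ^ 2 = s * ((n : ℝ) + 1) ^ 2 := by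
        rw [mul_pow, Real.sq_sqrt hs.le]
      rw [hsq]
      ring
    push_cast
    calc _ ≤ Real.arctan (√s * n) / √s +
          (Real.arctan (√s * ((n : ℝ) + 1)) - Real.arctan (√s * n)) / √s := by
          have := add_le_add ih hk
          simpa using this
      _ = Real.arctan (√s * ((n : ℝ) + 1)) / √s := by ring

private theorem H01_natA {s : ℝ} (hs : 0 < s) (n : ℕ) :
    ∑ i ∈ Finset.range n, H01_k s (i : ℤ) ≤ 2 / s := by
  rcases n with _ | n
  · simp only [Finset.range_zero, Finset.sum_empty]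
    positivity
  · refine (H01_sumA hs n).trans ?_
    apply div_le_div_of_nonneg_right _ hs.le
    have : 0 ≤ 2 / ((n : ℝ) + 1) := by positivity
    linarith

private theorem H01_natB {s : ℝ} (hs : 0 < s) (n : ℕ) :
    ∑ i ∈ Finset.range n, H01_k s (i : ℤ) ≤ (π / 2) / √s := by
  have hr : 0 < √s := Real.sqrt_pos.mpr hs
  rcases n with _ | n
  · simp only [Finset.range_zero, Finset.sum_empty]
    positivity
  · refine (H01_sumB hs n).trans ?_
    exact div_le_div_of_nonneg_right (Real.arctan_lt_pi_div_two _).le hr.le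

private theorem H01_summable_nat {s : ℝ} (hs : 0 < s) : Summable (fun n : ℕ => H01_k s (n : ℤ)) :=
  summable_of_sum_range_le (fun _ => H01_k_nonneg hs _) (H01_natA hs)

private theorem H01_hasSum {s : ℝ} (hs : 0 < s) :
    HasSum (H01_k s) (2 * ∑' n : ℕ, H01_k s (n : ℤ)) := by
  have h1 := (H01_summable_nat hs).hasSum
  have h2 : HasSum (fun n : ℕ => H01_k s (-(n : ℤ))) (∑' n : ℕ, H01_k s (n : ℤ)) := by
    convert h1 using 2 with n
    unfold H01_k H01_h
    simp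
  have h3 := HasSum.of_nat_of_neg h1 h2
  have h4 : H01_k s 0 = 0 := by simp [H01_k]
  rw [h4, sub_zero, ← two_mul] at h3
  exact h3

private theorem H01_hasSum_h {s : ℝ} (hs : 0 < s) :
    HasSum (H01_h s) (1 + 2 * ∑' n : ℕ, H01_k s (n : ℤ)) := by
  have h1 := H01_hasSum hs
  have h2 : HasSum (fun n : ℤ => if n = 0 then (1 : ℝ) else 0) 1 := hasSum_ite_eq 0 1
  have h3 := h2.add h1
  convert h3 using 2 with n
  unfold H01_k
  by_cases hn : n = 0
  · rw [if_pos hn, if_pos hn, hn]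
    simp [H01_h]
  · rw [if_neg hn, if_neg hn]
    simp

private theorem H01_exp {x : ℝ} (hx : 0 ≤ x) : Real.exp (-x) ≤ 2 / (1 + x) ^ 2 := by
  have h1 := Real.quadratic_le_exp_of_nonneg hx
  rw [Real.exp_neg, inv_eq_one_div, div_le_div_iff₀ (Real.exp_pos x) (by positivity)]
  nlinarith

private theorem H01_pt {s x y : ℝ} (hs : 0 < s) :
    2 / (1 + s * (x ^ 2 + y ^ 2)) ^ 2 ≤ 2 * (1 / (1 + s * x ^ 2) * (1 / (1 + s * y ^ 2))) := by
  have e : 2 * (1 / (1 + s * x ^ 2) * (1 / (1 + s * y ^ 2)))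
      = 2 / ((1 + s * x ^ 2) * (1 + s * y ^ 2)) := by
    field_simp
  rw [e]
  apply div_le_div_of_nonneg_left (by norm_num) (by positivity)
  have h1 : 1 + s * x ^ 2 ≤ 1 + s * (x ^ 2 + y ^ 2) := by nlinarith [sq_nonneg y]
  have h2 : 1 + s * y ^ 2 ≤ 1 + s * (x ^ 2 + y ^ 2) := by nlinarith [sq_nonneg x]
  rw [sq (1 + s * (x ^ 2 + y ^ 2))]
  exact mul_le_mul h1 h2 (by positivity) (by positivity)

private theorem H01_le {F : Fm} {c t : ℝ} (hc : 0 < c) (ht : 0 < t)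
    (hv : ∀ v : ℤ × ℤ, c * ((v.1 : ℝ) ^ 2 + (v.2 : ℝ) ^ 2) ≤ (F.val v : ℝ)) (v : ℤ × ℤ) :
    Real.exp (-(t * (F.val v : ℝ))) ≤ 2 * (H01_h (c * t) v.1 * H01_h (c * t) v.2) := by
  have h1 : -(t * (F.val v : ℝ)) ≤ -(c * t * ((v.1 : ℝ) ^ 2 + (v.2 : ℝ) ^ 2)) := by
    have := mul_le_mul_of_nonneg_left (hv v) ht.le
    nlinarith
  have h2 : 0 ≤ c * t * ((v.1 : ℝ) ^ 2 + (v.2 : ℝ) ^ 2) := by positivity
  calc Real.exp (-(t * (F.val v : ℝ)))
      ≤ Real.exp (-(c * t * ((v.1 : ℝ) ^ 2 + (v.2 : ℝ) ^ 2))) := Real.exp_le_exp.mpr h1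
    _ ≤ 2 / (1 + c * t * ((v.1 : ℝ) ^ 2 + (v.2 : ℝ) ^ 2)) ^ 2 := H01_exp h2
    _ ≤ _ := H01_pt (mul_pos hc ht)

private theorem H01_prod {s : ℝ} (hs : 0 < s) :
    HasSum (fun v : ℤ × ℤ => 2 * (H01_h s v.1 * H01_h s v.2))
      (2 * ((1 + 2 * ∑' n : ℕ, H01_k s (n : ℤ)) * (1 + 2 * ∑' n : ℕ, H01_k s (n : ℤ)))) := by
  have h1 := H01_hasSum_h hs
  have h2 : Summable (fun v : ℤ × ℤ => H01_h s v.1 * H01_h s v.2) :=
    h1.summable.mul_of_nonneg h1.summable (H01_h_nonneg hs) (H01_h_nonneg hs)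
  exact (h1.mul h1 h2).mul_left 2

theorem gauss_summable {F : Fm} {N : ℕ} (h : F.Pos N) {t : ℝ} (ht : 0 < t) :
    Summable (fun v : ℤ × ℤ => Real.exp (-(t * (F.val v : ℝ)))) := by
  obtain ⟨c, hc, hv⟩ := val_lower h
  exact Summable.of_nonneg_of_le (fun v => (Real.exp_pos _).le) (H01_le hc ht hv)
    (H01_prod (mul_pos hc ht)).summable

theorem gauss_sum {F : Fm} {N : ℕ} (h : F.Pos N) :
    ∃ C : ℝ, 0 ≤ C ∧ ∀ t : ℝ, 0 < t →
      ∑' v : ℤ × ℤ, (if v = 0 then 0 else Real.exp (-(t * (F.val v : ℝ)))) ≤ C / t := by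
  obtain ⟨c, hc, hv⟩ := val_lower h
  refine ⟨(2 * π ^ 2 + 16) / c, by positivity, ?_⟩
  intro t ht
  have hs : 0 < c * t := mul_pos hc ht
  set s := c * t with hsdef
  set K := ∑' n : ℕ, H01_k s (n : ℤ) with hK
  have hK0 : 0 ≤ K := tsum_nonneg (fun n => H01_k_nonneg hs _)
  have hKA : K ≤ 2 / s := Real.tsum_le_of_sum_range_le (fun n => H01_k_nonneg hs _) (H01_natA hs)
  have hKB : K ≤ (π / 2) / √s :=
    Real.tsum_le_of_sum_range_le (fun n => H01_k_nonneg hs _) (H01_natB hs)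
  have hKB2 : K ^ 2 ≤ (π ^ 2 / 4) / s := by
    have := pow_le_pow_left₀ hK0 hKB 2
    rw [div_pow, Real.sq_sqrt hs.le] at this
    calc K ^ 2 ≤ (π / 2) ^ 2 / s := this
      _ = (π ^ 2 / 4) / s := by ring
  have h1 := H01_prod hs
  have h2 : HasSum (fun v : ℤ × ℤ => if v = 0 then 0 else 2 * (H01_h s v.1 * H01_h s v.2))
      (2 * ((1 + 2 * K) * (1 + 2 * K)) - 2 * (H01_h s 0 * H01_h s 0)) :=
    hasSum_ite_sub_hasSum h1 (0 : ℤ × ℤ)
  have h3 : ∑' v : ℤ × ℤ, (if v = 0 then 0 else Real.exp (-(t * (F.val v : ℝ)))) ≤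
      2 * ((1 + 2 * K) * (1 + 2 * K)) - 2 * (H01_h s 0 * H01_h s 0) := by
    rw [← h2.tsum_eq]
    apply Summable.tsum_le_tsum
    · intro v
      split_ifs
      · exact le_rfl
      · exact H01_le hc ht hv v
    · apply Summable.of_nonneg_of_le _ _ (gauss_summable h ht)
      · intro v
        split_ifs
        · exact le_rfl
        · exact (Real.exp_pos _).le
      · intro v
        split_ifs
        · exact (Real.exp_pos _).le
        · exact le_rfl
    · exact h2.summable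
  have h4 : H01_h s 0 = 1 := by simp [H01_h]
  rw [h4] at h3
  refine h3.trans ?_
  have e : (2 * π ^ 2 + 16) / c / t = (2 * π ^ 2 + 16) / s := by
    rw [div_div]
  rw [e]
  calc 2 * ((1 + 2 * K) * (1 + 2 * K)) - 2 * (1 * 1) = 8 * K + 8 * K ^ 2 := by ring
    _ ≤ 8 * (2 / s) + 8 * ((π ^ 2 / 4) / s) := by nlinarith
    _ = (2 * π ^ 2 + 16) / s := by ring

end HC
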