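import Mathlib
import Pool.Agent.Lib.MP_0f5a55_nt.HC.H01
open Complex MeasureTheory Set Filter Topology
open scoped Real ComplexConjugate NumberField

namespace HC

theorem H02_step1 (A B C N q w r y : ℂ) (hA : A ≠ 0) (hq : q ≠ 0) (hw : w ≠ 0)
    (hN : N = 4 * A * C - B ^ 2) (ha : 0 < (-(2 * I * w * A * q ^ 2)).re) :
    ∑' m : ℤ, cexp (2 * π * I * ((A * (r + q * m) ^ 2 + B * (r + q * m) * y + C * y ^ 2) * w)) =
      1 / (-(2 * I * w * A * q ^ 2)) ^ (1 / 2 : ℂ) *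
        ∑' n : ℤ, cexp (-(π * I * n ^ 2 / (2 * w * A * q ^ 2)) + 2 * π * I * n * r / q +
          π * I * n * B * y / (A * q) + 2 * π * I * w * N * y ^ 2 / (4 * A)) := by
  set a : ℂ := -(2 * I * w * A * q ^ 2) with had
  have h := Complex.tsum_exp_neg_quadratic ha (I * w * q * (2 * A * r + B * y))
  have e1 : ∀ m : ℤ, cexp (2 * π * I * ((A * (r + q * m) ^ 2 + B * (r + q * m) * y + C * y ^ 2) * w)) =
      cexp (2 * π * I * w * (A * r ^ 2 + B * r * y + C * y ^ 2)) *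
        cexp (-π * a * m ^ 2 + 2 * π * (I * w * q * (2 * A * r + B * y)) * m) := by
    intro m
    rw [← Complex.exp_add]
    congr 1
    rw [had]
    ring
  rw [tsum_congr e1, tsum_mul_left, h, ← mul_assoc, mul_comm (cexp _) (1 / a ^ (1 / 2 : ℂ)), mul_assoc,
    ← tsum_mul_left]
  congr 1
  refine tsum_congr fun n => ?_
  rw [← Complex.exp_add]
  congr 1
  rw [had, hN]
  have hI : I ≠ 0 := I_ne_zero
  field_simp
  ring_nf
  simp only [Complex.I_sq, Complex.I_pow_four]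
  ring

theorem H02_step2 (A B N q w s n : ℂ) (hA : A ≠ 0) (hq : q ≠ 0) (hw : w ≠ 0) (hN : N ≠ 0)
    (hb : 0 < (-(I * w * N * q ^ 2 / (2 * A))).re) :
    ∑' m : ℤ, cexp (π * I * n * B * (s + q * m) / (A * q) + 2 * π * I * w * N * (s + q * m) ^ 2 / (4 * A)) =
      1 / (-(I * w * N * q ^ 2 / (2 * A))) ^ (1 / 2 : ℂ) *
        ∑' k : ℤ, cexp (2 * π * I * k * s / q - π * I * (2 * A * k - n * B) ^ 2 / (2 * A * w * N * q ^ 2)) := by
  set b : ℂ := -(I * w * N * q ^ 2 / (2 * A)) with hbd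
  have h := Complex.tsum_exp_neg_quadratic hb (I * (w * N * s * q + n * B) / (2 * A))
  have e1 : ∀ m : ℤ, cexp (π * I * n * B * (s + q * m) / (A * q) +
        2 * π * I * w * N * (s + q * m) ^ 2 / (4 * A)) =
      cexp (2 * π * I * w * N * s ^ 2 / (4 * A) + π * I * n * B * s / (A * q)) *
        cexp (-π * b * m ^ 2 + 2 * π * (I * (w * N * s * q + n * B) / (2 * A)) * m) := by
    intro m
    rw [← Complex.exp_add]
    congr 1
    rw [hbd]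
    field_simp
    ring
  rw [tsum_congr e1, tsum_mul_left, h, ← mul_assoc, mul_comm (cexp _) (1 / b ^ (1 / 2 : ℂ)), mul_assoc,
    ← tsum_mul_left]
  congr 1
  refine tsum_congr fun k => ?_
  rw [← Complex.exp_add]
  congr 1
  rw [hbd]
  have hI : I ≠ 0 := I_ne_zero
  field_simp
  ring_nf
  simp only [Complex.I_sq, Complex.I_pow_four]
  ring

theorem H02_norm (z : ℂ) : ‖ee z‖ = Real.exp (-(2 * π * z.im)) := by
  rw [ee, Complex.norm_exp]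
  congr 1
  have : (2 * (π : ℂ) * I * z).re = -(2 * π * z.im) := by
    simp [Complex.mul_re, Complex.mul_im]
  exact this

theorem H02_add (x y : ℂ) : ee (x + y) = ee x * ee y := by
  rw [ee, ee, ee, ← Complex.exp_add]
  congr 1
  ring

theorem H02_int (n : ℤ) : ee (n : ℂ) = 1 := by
  rw [ee]
  have : 2 * (π : ℂ) * I * n = n * (2 * π * I) := by ring
  rw [this]
  exact Complex.exp_int_mul_two_pi_mul_I n

/-- summability on the lattice -/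
theorem H02_sum1 {F : Fm} {N : ℕ} (h : F.Pos N) {w : ℂ} (hw : 0 < w.im) :
    Summable (fun v : ℤ × ℤ => ee ((F.val v : ℂ) * w)) := by
  refine Summable.of_norm ?_
  have hs := gauss_summable h (t := 2 * π * w.im) (by positivity)
  refine hs.congr fun v => ?_
  rw [H02_norm]
  congr 1
  simp [Complex.mul_im]
  ring

theorem H02_inv_im {w : ℂ} (hw : 0 < w.im) : 0 < (-(w⁻¹)).im := by
  rw [Complex.neg_im, Complex.inv_im]
  have hw0 : w ≠ 0 := by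
    intro h0
    rw [h0] at hw
    simp at hw
  have h2 : 0 < Complex.normSq w := Complex.normSq_pos.2 hw0
  have h3 : -(-w.im / Complex.normSq w) = w.im / Complex.normSq w := by ring
  rw [h3]
  positivity

theorem H02_const {a b : ℝ} (ha : 0 < a) (hb : 0 < b) {z : ℂ} (hz : z ≠ 0) :
    ((a : ℂ) * z) ^ (1 / 2 : ℂ) * ((b : ℂ) * z) ^ (1 / 2 : ℂ) = ((√(a * b) : ℝ) : ℂ) * z := by
  have ha' : (a : ℂ) ≠ 0 := by exact_mod_cast ha.ne'
  have hb' : (b : ℂ) ≠ 0 := by exact_mod_cast hb.ne'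
  rw [Complex.cpow_def_of_ne_zero (mul_ne_zero ha' hz), Complex.cpow_def_of_ne_zero (mul_ne_zero hb' hz),
    ← Complex.exp_add, Complex.log_ofReal_mul ha hz, Complex.log_ofReal_mul hb hz]
  have e1 : ((Real.log a : ℂ) + Complex.log z) * (1 / 2) + ((Real.log b : ℂ) + Complex.log z) * (1 / 2) =
      (((Real.log a + Real.log b) / 2 : ℝ) : ℂ) + Complex.log z := by
    push_cast; ring
  rw [e1, Complex.exp_add, Complex.exp_log hz, ← Complex.ofReal_exp]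
  congr 2
  rw [← Real.log_mul ha.ne' hb.ne']
  have h2 : 0 < a * b := by positivity
  symm
  rw [Real.sqrt_eq_iff_mul_self_eq h2.le (Real.exp_pos _).le, ← Real.exp_add]
  rw [add_halves, Real.exp_log h2]

/-- the Poisson summation formula in one residue class -/
theorem H02_class {F : Fm} {N : ℕ} (h : F.Pos N) {q : ℕ} (hq : 0 < q) {w : ℂ} (hw : 0 < w.im)
    (r : ℤ × ℤ) :
    Summable (fun ξ : ℤ × ℤ => ee (((r.1 : ℂ) * ξ.1 + r.2 * ξ.2) / q) *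
      ee (-((F.val (-ξ.2, ξ.1) : ℂ) / (N * (q : ℂ) ^ 2 * w)))) ∧
    ∑' m : ℤ × ℤ, ee ((F.val (r.1 + q * m.1, r.2 + q * m.2) : ℂ) * w) =
      I / (w * ((√N : ℝ) : ℂ) * (q : ℂ) ^ 2) *
        ∑' ξ : ℤ × ℤ, ee (((r.1 : ℂ) * ξ.1 + r.2 * ξ.2) / q) *
          ee (-((F.val (-ξ.2, ξ.1) : ℂ) / (N * (q : ℂ) ^ 2 * w))) := by
  obtain ⟨hN, hA, hD⟩ := h
  have h : F.Pos N := ⟨hN, hA, hD⟩
  have hw0 : w ≠ 0 := by
    intro h0
    rw [h0] at hw
    simp at hw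
  have hAr : (0 : ℝ) < (F.A : ℝ) := by exact_mod_cast hA
  have hNr : (0 : ℝ) < (N : ℝ) := by exact_mod_cast hN
  have hqr : (0 : ℝ) < (q : ℝ) := by exact_mod_cast hq
  have hAc : (F.A : ℂ) ≠ 0 := by exact_mod_cast hA.ne'
  have hNc : (N : ℂ) ≠ 0 := by exact_mod_cast hN.ne'
  have hqc : (q : ℂ) ≠ 0 := by exact_mod_cast hq.ne'
  have hqz : (q : ℤ) ≠ 0 := by exact_mod_cast hq.ne'
  have hDc : (N : ℂ) = 4 * F.A * F.C - F.B ^ 2 := by
    have : ((N : ℤ) : ℂ) = ((4 * F.A * F.C - F.B ^ 2 : ℤ) : ℂ) := by rw [hD]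
    push_cast at this
    exact this
  -- the final summability
  have hS3 : Summable (fun ξ : ℤ × ℤ => ee (((r.1 : ℂ) * ξ.1 + r.2 * ξ.2) / q) *
      ee (-((F.val (-ξ.2, ξ.1) : ℂ) / (N * (q : ℂ) ^ 2 * w)))) := by
    refine Summable.of_norm ?_
    have h1 := H02_inv_im hw
    set t : ℝ := 2 * π * ((-(w⁻¹)).im / (N * (q : ℝ) ^ 2)) with ht
    have ht0 : 0 < t := by positivity
    have hs := gauss_summable h ht0
    have hinj : Function.Injective (fun ξ : ℤ × ℤ => ((-ξ.2, ξ.1) : ℤ × ℤ)) := by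
      rintro ⟨a, b⟩ ⟨c, d⟩ hab
      simp only [Prod.mk.injEq, neg_inj] at hab
      exact Prod.ext hab.2 hab.1
    refine (hs.comp_injective hinj).congr fun ξ => ?_
    rw [norm_mul, H02_norm, H02_norm]
    have e1 : (((r.1 : ℂ) * ξ.1 + r.2 * ξ.2) / q).im = 0 := by
      have : (((r.1 : ℂ) * ξ.1 + r.2 * ξ.2) / q) = (((r.1 * ξ.1 + r.2 * ξ.2) / q : ℝ) : ℂ) := by
        push_cast; ring
      rw [this, Complex.ofReal_im]
    have e2 : (-((F.val (-ξ.2, ξ.1) : ℂ) / (N * (q : ℂ) ^ 2 * w))).im =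
        (F.val (-ξ.2, ξ.1) : ℝ) * ((-(w⁻¹)).im / (N * (q : ℝ) ^ 2)) := by
      have : (-((F.val (-ξ.2, ξ.1) : ℂ) / (N * (q : ℂ) ^ 2 * w))) =
          (((F.val (-ξ.2, ξ.1) : ℝ) / (N * (q : ℝ) ^ 2) : ℝ) : ℂ) * (-(w⁻¹)) := by
        push_cast
        field_simp
      rw [this, Complex.im_ofReal_mul]
      ring
    rw [e1, e2]
    simp only [Function.comp_apply, mul_zero, neg_zero, Real.exp_zero, one_mul]
    congr 1
    rw [ht]
    ring
  refine ⟨hS3, ?_⟩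
  -- the constants
  set α : ℂ := -(2 * I * w * F.A * (q : ℂ) ^ 2) with hα
  set β : ℂ := -(I * w * N * (q : ℂ) ^ 2 / (2 * F.A)) with hβ
  have hz0 : -(I * w) ≠ 0 := neg_ne_zero.2 (mul_ne_zero I_ne_zero hw0)
  have hzre : (-(I * w)).re = w.im := by simp
  have hα2 : α = ((2 * (F.A : ℝ) * (q : ℝ) ^ 2 : ℝ) : ℂ) * (-(I * w)) := by
    rw [hα]; push_cast; ring
  have hβ2 : β = (((N : ℝ) * (q : ℝ) ^ 2 / (2 * (F.A : ℝ)) : ℝ) : ℂ) * (-(I * w)) := by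
    rw [hβ]; push_cast; ring
  have hαre : 0 < α.re := by
    rw [hα2, Complex.re_ofReal_mul, hzre]; positivity
  have hβre : 0 < β.re := by
    rw [hβ2, Complex.re_ofReal_mul, hzre]; positivity
  have hconst : 1 / α ^ (1 / 2 : ℂ) * (1 / β ^ (1 / 2 : ℂ)) =
      I / (w * ((√N : ℝ) : ℂ) * (q : ℂ) ^ 2) := by
    have h1 := H02_const (a := 2 * (F.A : ℝ) * (q : ℝ) ^ 2) (b := (N : ℝ) * (q : ℝ) ^ 2 / (2 * (F.A : ℝ)))
      (by positivity) (by positivity) hz0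
    rw [← hα2, ← hβ2] at h1
    have h2 : √(2 * (F.A : ℝ) * (q : ℝ) ^ 2 * ((N : ℝ) * (q : ℝ) ^ 2 / (2 * (F.A : ℝ)))) =
        √(N : ℝ) * (q : ℝ) ^ 2 := by
      have : 2 * (F.A : ℝ) * (q : ℝ) ^ 2 * ((N : ℝ) * (q : ℝ) ^ 2 / (2 * (F.A : ℝ))) =
          (N : ℝ) * ((q : ℝ) ^ 2) ^ 2 := by
        field_simp
      rw [this, Real.sqrt_mul hNr.le, Real.sqrt_sq (by positivity)]
    rw [h2] at h1
    rw [div_mul_div_comm, one_mul, h1]
    have h3 : ((√(N : ℝ) : ℝ) : ℂ) ≠ 0 := by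
      exact_mod_cast (Real.sqrt_pos.2 hNr).ne'
    push_cast
    rw [div_eq_div_iff (by
      refine mul_ne_zero (mul_ne_zero h3 (pow_ne_zero 2 hqc)) hz0) (by
      refine mul_ne_zero (mul_ne_zero hw0 h3) (pow_ne_zero 2 hqc))]
    have hI2 : I * I = -1 := Complex.I_mul_I
    linear_combination (w * ((√(N : ℝ) : ℝ) : ℂ) * (q : ℂ) ^ 2) * hI2
  -- first summation
  let hh : ℤ → ℤ → ℂ := fun m n => cexp (-(π * I * n ^ 2 / (2 * w * F.A * (q : ℂ) ^ 2)) +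
    2 * π * I * n * r.1 / q + π * I * n * F.B * (r.2 + q * m) / (F.A * q) +
    2 * π * I * w * N * (r.2 + q * m) ^ 2 / (4 * F.A))
  have hS1 : Summable (fun m : ℤ × ℤ => ee ((F.val (r.1 + q * m.2, r.2 + q * m.1) : ℂ) * w)) := by
    have hinj : Function.Injective (fun m : ℤ × ℤ => ((r.1 + q * m.2, r.2 + q * m.1) : ℤ × ℤ)) := by
      rintro ⟨a, b⟩ ⟨c, d⟩ hab
      simp only [Prod.mk.injEq, add_right_inj, mul_eq_mul_left_iff, hqz, or_false] at hab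
      exact Prod.ext hab.2 hab.1
    exact (H02_sum1 h hw).comp_injective hinj
  have hstep1 : ∀ m : ℤ, ∑' n : ℤ, ee ((F.val (r.1 + q * n, r.2 + q * m) : ℂ) * w) =
      1 / α ^ (1 / 2 : ℂ) * ∑' n : ℤ, hh m n := by
    intro m
    have h1 := H02_step1 F.A F.B F.C N q w r.1 (r.2 + q * m) hAc hqc hw0 hDc hαre
    rw [← h1]
    refine tsum_congr fun n => ?_
    rw [ee]
    congr 1
    simp only [Fm.val]
    push_cast
    ring
  have hS2 : Summable (Function.uncurry hh) := by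
    refine Summable.of_norm ?_
    have h1 := H02_inv_im hw
    set c₁ : ℝ := π * (-(w⁻¹)).im / (2 * F.A * (q : ℝ) ^ 2) with hc₁
    set c₂ : ℝ := π * N * w.im / (2 * F.A) with hc₂
    have hc₁0 : 0 < c₁ := by positivity
    have hc₂0 : 0 < c₂ := by positivity
    set t : ℝ := min c₁ c₂ with ht
    have ht0 : 0 < t := lt_min hc₁0 hc₂0
    have hpos : (Fm.mk 1 0 1).Pos 4 := ⟨by norm_num, by norm_num, by norm_num⟩
    have hs := gauss_summable hpos ht0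
    have hinj : Function.Injective (fun m : ℤ × ℤ => ((m.2, r.2 + q * m.1) : ℤ × ℤ)) := by
      rintro ⟨a, b⟩ ⟨c, d⟩ hab
      simp only [Prod.mk.injEq, add_right_inj, mul_eq_mul_left_iff, hqz, or_false] at hab
      exact Prod.ext hab.2 hab.1
    refine Summable.of_nonneg_of_le (fun _ => norm_nonneg _) (fun m => ?_) (hs.comp_injective hinj)
    obtain ⟨m, n⟩ := m
    simp only [Function.uncurry_apply_pair, Function.comp_apply, hh]
    rw [Complex.norm_exp]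
    apply Real.exp_le_exp.2
    have e1 : (-(π * I * n ^ 2 / (2 * w * F.A * (q : ℂ) ^ 2)) +
        2 * π * I * n * r.1 / q + π * I * n * F.B * (r.2 + q * m) / (F.A * q) +
        2 * π * I * w * N * (r.2 + q * m) ^ 2 / (4 * F.A)) =
        (((π * (n : ℝ) ^ 2 / (2 * F.A * (q : ℝ) ^ 2) : ℝ) : ℂ) * (-(w⁻¹)) +
          ((2 * π * n * r.1 / q + π * n * F.B * (r.2 + q * m) / (F.A * q) : ℝ) : ℂ) +
          ((π * N * (r.2 + q * m : ℝ) ^ 2 / (2 * F.A) : ℝ) : ℂ) * w) * I := by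
      push_cast
      field_simp
      ring
    rw [e1, Complex.mul_I_re, Complex.add_im, Complex.add_im, Complex.im_ofReal_mul, Complex.ofReal_im,
      Complex.im_ofReal_mul]
    have e2 : (((Fm.mk 1 0 1).val (n, r.2 + q * m) : ℤ) : ℝ) = (n : ℝ) ^ 2 + (r.2 + q * m : ℝ) ^ 2 := by
      simp only [Fm.val]
      push_cast
      ring
    rw [e2]
    have e3 : π * (n : ℝ) ^ 2 / (2 * F.A * (q : ℝ) ^ 2) * (-(w⁻¹)).im = c₁ * (n : ℝ) ^ 2 := by
      rw [hc₁]; ring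
    have e4 : π * N * (r.2 + q * m : ℝ) ^ 2 / (2 * F.A) * w.im = c₂ * (r.2 + q * m : ℝ) ^ 2 := by
      rw [hc₂]; ring
    rw [e3, e4]
    have h5 : t * (n : ℝ) ^ 2 ≤ c₁ * (n : ℝ) ^ 2 :=
      mul_le_mul_of_nonneg_right (min_le_left _ _) (sq_nonneg _)
    have h6 : t * (r.2 + q * m : ℝ) ^ 2 ≤ c₂ * (r.2 + q * m : ℝ) ^ 2 :=
      mul_le_mul_of_nonneg_right (min_le_right _ _) (sq_nonneg _)
    linarith
  have hstep2 : ∀ n : ℤ, ∑' m : ℤ, hh m n = 1 / β ^ (1 / 2 : ℂ) * ∑' k : ℤ,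
      ee (((r.1 : ℂ) * n + r.2 * k) / q) * ee (-((F.val (-k, n) : ℂ) / (N * (q : ℂ) ^ 2 * w))) := by
    intro n
    have h1 := H02_step2 F.A F.B N q w r.2 n hAc hqc hw0 hNc hβre
    have e1 : ∀ m : ℤ, hh m n = cexp (-(π * I * n ^ 2 / (2 * w * F.A * (q : ℂ) ^ 2)) +
        2 * π * I * n * r.1 / q) * cexp (π * I * n * F.B * (r.2 + q * m) / (F.A * q) +
          2 * π * I * w * N * (r.2 + q * m) ^ 2 / (4 * F.A)) := by
      intro m
      rw [← Complex.exp_add]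
      simp only [hh]
      congr 1
      ring
    rw [tsum_congr e1, tsum_mul_left, h1, ← mul_assoc, mul_comm (cexp _) (1 / β ^ (1 / 2 : ℂ)), mul_assoc,
      ← tsum_mul_left]
    congr 1
    refine tsum_congr fun k => ?_
    rw [ee, ee, ← Complex.exp_add, ← Complex.exp_add]
    congr 1
    simp only [Fm.val]
    push_cast
    field_simp
    linear_combination (-(n : ℂ) ^ 2) * hDc
  have hswap : ∑' m : ℤ × ℤ, ee ((F.val (r.1 + q * m.1, r.2 + q * m.2) : ℂ) * w) =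
      ∑' m : ℤ × ℤ, ee ((F.val (r.1 + q * m.2, r.2 + q * m.1) : ℂ) * w) := by
    rw [← (Equiv.prodComm ℤ ℤ).tsum_eq]
    rfl
  rw [hswap, hS1.tsum_prod]
  have e2 : ∀ m : ℤ, ∑' n : ℤ, ee ((F.val (r.1 + q * (m, n).2, r.2 + q * (m, n).1) : ℂ) * w) =
      1 / α ^ (1 / 2 : ℂ) * ∑' n : ℤ, hh m n := hstep1
  rw [tsum_congr e2, tsum_mul_left, ← hS2.tsum_comm, tsum_congr hstep2, tsum_mul_left, ← mul_assoc, hconst,
    hS3.tsum_prod]

/-- Row H02. Poisson summation over Z^2 in residue classes modulo q. -/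
theorem poisson {F : Fm} {N : ℕ} (h : F.Pos N) (u : ℤ) {q : ℕ} (hq : 0 < q) {w : ℂ} (hw : 0 < w.im) :
    ∑' v : ℤ × ℤ, ee ((F.val v : ℂ) * ((u : ℂ) / q + w)) =
      I / (w * ((√N : ℝ) : ℂ) * (q : ℂ) ^ 2) *
        ∑' ξ : ℤ × ℤ, F.G u q ξ * ee (-((F.val (-ξ.2, ξ.1) : ℂ) / (N * (q : ℂ) ^ 2 * w))) := by
  have : NeZero q := ⟨hq.ne'⟩
  have hqc : (q : ℂ) ≠ 0 := by exact_mod_cast hq.ne'
  -- the decomposition into residue classes
  let e : (Fin q × Fin q) × (ℤ × ℤ) ≃ ℤ × ℤ :=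
    (Equiv.prodProdProdComm (Fin q) (Fin q) ℤ ℤ).trans
      (((Equiv.prodComm (Fin q) ℤ).trans (Int.divModEquiv q).symm).prodCongr
        ((Equiv.prodComm (Fin q) ℤ).trans (Int.divModEquiv q).symm))
  have he : ∀ (r : Fin q × Fin q) (m : ℤ × ℤ), e (r, m) =
      ((r.1 : ℕ) + q * m.1, ((r.2 : ℕ) : ℤ) + q * m.2) := by
    rintro ⟨r1, r2⟩ ⟨m1, m2⟩
    show ((m1 * q + ((r1 : ℕ) : ℤ), m2 * q + ((r2 : ℕ) : ℤ)) : ℤ × ℤ) = _
    ext <;> simp <;> ring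
  have hval : ∀ (r m : ℤ × ℤ), ee ((F.val (r.1 + q * m.1, r.2 + q * m.2) : ℂ) * ((u : ℂ) / q + w)) =
      ee ((u * F.val r : ℤ) / q) * ee ((F.val (r.1 + q * m.1, r.2 + q * m.2) : ℂ) * w) := by
    intro r m
    rw [mul_add, H02_add]
    congr 1
    have e1 : (F.val (r.1 + q * m.1, r.2 + q * m.2) : ℂ) * ((u : ℂ) / q) = ((u * F.val r : ℤ) : ℂ) / q +
        ((u * (F.A * (2 * r.1 * m.1 + q * m.1 ^ 2) + F.B * (r.1 * m.2 + m.1 * r.2 + q * m.1 * m.2) +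
          F.C * (2 * r.2 * m.2 + q * m.2 ^ 2)) : ℤ) : ℂ) := by
      simp only [Fm.val]
      push_cast
      field_simp
      ring
    rw [e1, H02_add, H02_int, mul_one]
  have hS0 : Summable (fun v : ℤ × ℤ => ee ((F.val v : ℂ) * ((u : ℂ) / q + w))) := by
    refine H02_sum1 h ?_
    have : ((u : ℂ) / q + w).im = w.im := by
      have e1 : (u : ℂ) / q = (((u : ℝ) / q : ℝ) : ℂ) := by push_cast; ring
      rw [e1, Complex.add_im, Complex.ofReal_im, zero_add]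
    rw [this]; exact hw
  have hS0' : Summable (fun c : (Fin q × Fin q) × (ℤ × ℤ) =>
      ee ((F.val (e c) : ℂ) * ((u : ℂ) / q + w))) := e.summable_iff.2 hS0
  rw [← e.tsum_eq, hS0'.tsum_prod, tsum_fintype]
  have e2 : ∀ r : Fin q × Fin q, ∑' m : ℤ × ℤ, ee ((F.val (e (r, m)) : ℂ) * ((u : ℂ) / q + w)) =
      ee ((u * F.val (((r.1 : ℕ) : ℤ), ((r.2 : ℕ) : ℤ)) : ℤ) / q) *
        (I / (w * ((√N : ℝ) : ℂ) * (q : ℂ) ^ 2) *
        ∑' ξ : ℤ × ℤ, ee (((((r.1 : ℕ) : ℤ) : ℂ) * ξ.1 + (((r.2 : ℕ) : ℤ) : ℂ) * ξ.2) / q) *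
          ee (-((F.val (-ξ.2, ξ.1) : ℂ) / (N * (q : ℂ) ^ 2 * w)))) := by
    intro r
    rw [← (H02_class h hq hw ((((r.1 : ℕ) : ℤ), ((r.2 : ℕ) : ℤ)) : ℤ × ℤ)).2, ← tsum_mul_left]
    refine tsum_congr fun m => ?_
    rw [he]
    exact hval (((r.1 : ℕ) : ℤ), ((r.2 : ℕ) : ℤ)) m
  have e3 : ∀ r : Fin q × Fin q, ee ((u * F.val (((r.1 : ℕ) : ℤ), ((r.2 : ℕ) : ℤ)) : ℤ) / q) *
        (I / (w * ((√N : ℝ) : ℂ) * (q : ℂ) ^ 2) *
        ∑' ξ : ℤ × ℤ, ee (((((r.1 : ℕ) : ℤ) : ℂ) * ξ.1 + (((r.2 : ℕ) : ℤ) : ℂ) * ξ.2) / q) *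
          ee (-((F.val (-ξ.2, ξ.1) : ℂ) / (N * (q : ℂ) ^ 2 * w)))) =
      I / (w * ((√N : ℝ) : ℂ) * (q : ℂ) ^ 2) * ∑' ξ : ℤ × ℤ,
        ee (((u * F.val (((r.1 : ℕ) : ℤ), ((r.2 : ℕ) : ℤ)) + (r.1 : ℕ) * ξ.1 + (r.2 : ℕ) * ξ.2 : ℤ) : ℂ) / q) *
          ee (-((F.val (-ξ.2, ξ.1) : ℂ) / (N * (q : ℂ) ^ 2 * w))) := by
    intro r
    rw [mul_left_comm, ← tsum_mul_left]
    congr 1
    refine tsum_congr fun ξ => ?_
    rw [← mul_assoc, ← H02_add]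
    congr 2
    push_cast
    ring
  have hSr : ∀ r : Fin q × Fin q, Summable (fun ξ : ℤ × ℤ =>
      ee (((u * F.val (((r.1 : ℕ) : ℤ), ((r.2 : ℕ) : ℤ)) + (r.1 : ℕ) * ξ.1 + (r.2 : ℕ) * ξ.2 : ℤ) : ℂ) / q) *
          ee (-((F.val (-ξ.2, ξ.1) : ℂ) / (N * (q : ℂ) ^ 2 * w)))) := by
    intro r
    have h1 := ((H02_class h hq hw ((((r.1 : ℕ) : ℤ), ((r.2 : ℕ) : ℤ)) : ℤ × ℤ)).1).mul_left
      (ee ((u * F.val (((r.1 : ℕ) : ℤ), ((r.2 : ℕ) : ℤ)) : ℤ) / q))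
    refine h1.congr fun ξ => ?_
    rw [← mul_assoc, ← H02_add]
    congr 2
    push_cast
    ring
  rw [Finset.sum_congr rfl fun r _ => (e2 r).trans (e3 r), ← Finset.mul_sum,
    ← Summable.tsum_finsetSum fun r _ => hSr r]
  congr 1
  refine tsum_congr fun ξ => ?_
  rw [← Finset.sum_mul]
  congr 1
  rw [Fm.G, Fintype.sum_prod_type, Finset.sum_range]
  refine Finset.sum_congr rfl fun x _ => ?_
  rw [Finset.sum_range]

end HC
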