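import Mathlib
import Pool.Agent.Lib.MP_0f5a55_nt.HC.D
open Complex MeasureTheory Set Filter Topology
open scoped Real ComplexConjugate NumberField

namespace HC

theorem H03_card (N q : ℕ) [NeZero q] (hN : 0 < N) :
    (Finset.univ.filter (fun x : ZMod q => (N : ZMod q) * x = 0)).card ≤ N := by
  have hq : 0 < q := Nat.pos_of_ne_zero (NeZero.ne q)
  have hdvd : ∀ x : ZMod q, (N : ZMod q) * x = 0 → q ∣ N * x.val := by
    intro x hx
    rw [← ZMod.natCast_eq_zero_iff, Nat.cast_mul, ZMod.natCast_zmod_val]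
    exact hx
  calc (Finset.univ.filter (fun x : ZMod q => (N : ZMod q) * x = 0)).card
      ≤ (Finset.range N).card := by
        refine Finset.card_le_card_of_injOn (fun x : ZMod q => N * x.val / q) ?_ ?_
        · intro x hx
          simp only [Finset.coe_range, Set.mem_Iio]
          rw [Nat.div_lt_iff_lt_mul hq]
          exact Nat.mul_lt_mul_of_pos_left (ZMod.val_lt x) hN
        · intro x hx y hy hxy
          simp only [Finset.coe_filter, Finset.mem_univ, true_and, Set.mem_ofPred_eq] at hx hy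
          obtain ⟨a, ha⟩ := hdvd x hx
          obtain ⟨b, hb⟩ := hdvd y hy
          simp only [ha, hb] at hxy
          rw [Nat.mul_div_cancel_left _ hq, Nat.mul_div_cancel_left _ hq] at hxy
          rw [hxy, ← hb] at ha
          exact ZMod.val_injective q (Nat.eq_of_mul_eq_mul_left hN ha)
    _ = N := Finset.card_range N

theorem H03_range {M : Type*} [AddCommMonoid M] (q : ℕ) [NeZero q] (f : ZMod q → M) :
    ∑ x ∈ Finset.range q, f (x : ZMod q) = ∑ x : ZMod q, f x := by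
  refine Finset.sum_nbij' (fun x : ℕ => (x : ZMod q)) (fun x : ZMod q => x.val) ?_ ?_ ?_ ?_ ?_
  · intro x _; exact Finset.mem_univ _
  · intro x _; exact Finset.mem_range.2 (ZMod.val_lt x)
  · intro x hx; exact ZMod.val_cast_of_lt (Finset.mem_range.1 hx)
  · intro x _; exact ZMod.natCast_zmod_val x
  · intro x _; rfl

theorem H03_G (F : Fm) (u : ℤ) (q : ℕ) [NeZero q] (ξ : ℤ × ℤ) :
    F.G u q ξ = ∑ v : ZMod q × ZMod q,
      (ZMod.stdAddChar (N := q)) ((u : ZMod q) * (F.A * v.1 ^ 2 + F.B * v.1 * v.2 + F.C * v.2 ^ 2)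
        + v.1 * ξ.1 + v.2 * ξ.2) := by
  rw [Fm.G, Fintype.sum_prod_type, ← H03_range q]
  refine Finset.sum_congr rfl fun x _ => ?_
  rw [← H03_range q]
  refine Finset.sum_congr rfl fun y _ => ?_
  have h1 : ((u : ZMod q) * (F.A * (x : ZMod q) ^ 2 + F.B * x * y + F.C * y ^ 2)
        + x * ξ.1 + y * ξ.2) = ((u * F.val ((x : ℤ), (y : ℤ)) + x * ξ.1 + y * ξ.2 : ℤ) : ZMod q) := by
    simp only [Fm.val]; push_cast; ring
  simp only
  rw [h1, ZMod.stdAddChar_coe, ee]
  congr 1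
  ring

theorem H03_sq (F : Fm) (u : ℤ) (q : ℕ) [NeZero q] (ξ : ℤ × ℤ) :
    ‖F.G u q ξ‖ ^ 2 ≤ ∑ h : ZMod q × ZMod q,
      (if (u : ZMod q) * (2 * F.A * h.1 + F.B * h.2) = 0 ∧ (u : ZMod q) * (F.B * h.1 + 2 * F.C * h.2) = 0
        then (q : ℝ) ^ 2 else 0) := by
  set ψ := (ZMod.stdAddChar (N := q)) with hψ
  set Φ : ZMod q × ZMod q → ZMod q := fun v =>
    ((u : ZMod q) * (F.A * v.1 ^ 2 + F.B * v.1 * v.2 + F.C * v.2 ^ 2) + v.1 * ξ.1 + v.2 * ξ.2) with hΦ
  have hG : F.G u q ξ = ∑ v : ZMod q × ZMod q, ψ (Φ v) := H03_G F u q ξ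
  have hsq : ((‖F.G u q ξ‖ ^ 2 : ℝ) : ℂ) =
      ∑ h : ZMod q × ZMod q, ψ (Φ h) *
        (if (u : ZMod q) * (2 * F.A * h.1 + F.B * h.2) = 0 ∧ (u : ZMod q) * (F.B * h.1 + 2 * F.C * h.2) = 0
        then (q : ℂ) ^ 2 else 0) := by
    have e1 : ((‖F.G u q ξ‖ ^ 2 : ℝ) : ℂ) = F.G u q ξ * conj (F.G u q ξ) := by
      rw [Complex.mul_conj, Complex.normSq_eq_norm_sq]
    rw [e1, hG, map_sum, Finset.sum_mul_sum, Finset.sum_comm]
    have e2 : ∀ w : ZMod q × ZMod q, ∑ v : ZMod q × ZMod q, ψ (Φ v) * conj (ψ (Φ w)) =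
        ∑ h : ZMod q × ZMod q, ψ (Φ (h + w)) * conj (ψ (Φ w)) := by
      intro w
      exact (Fintype.sum_equiv (Equiv.addRight w) _ _ (fun h => rfl)).symm
    rw [Finset.sum_congr rfl (fun w _ => e2 w), Finset.sum_comm]
    refine Finset.sum_congr rfl fun h _ => ?_
    have e3 : ∀ w : ZMod q × ZMod q, ψ (Φ (h + w)) * conj (ψ (Φ w)) =
        ψ (Φ h) * (ψ (w.1 * ((u : ZMod q) * (2 * F.A * h.1 + F.B * h.2))) *
          ψ (w.2 * ((u : ZMod q) * (F.B * h.1 + 2 * F.C * h.2)))) := by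
      intro w
      have : conj (ψ (Φ w)) = ψ (-(Φ w)) := by
        rw [AddChar.map_neg_eq_conj]
      rw [this, ← AddChar.map_add_eq_mul, ← AddChar.map_add_eq_mul, ← AddChar.map_add_eq_mul]
      congr 1
      simp only [hΦ, Prod.fst_add, Prod.snd_add]
      ring
    rw [Finset.sum_congr rfl (fun w _ => e3 w), ← Finset.mul_sum, Fintype.sum_prod_type]
    congr 1
    simp only
    rw [← Fintype.sum_mul_sum, AddChar.sum_mulShift _ (ZMod.isPrimitive_stdAddChar q),
      AddChar.sum_mulShift _ (ZMod.isPrimitive_stdAddChar q), ZMod.card]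
    by_cases h1 : (u : ZMod q) * (2 * F.A * h.1 + F.B * h.2) = 0
    · by_cases h2 : (u : ZMod q) * (F.B * h.1 + 2 * F.C * h.2) = 0
      · rw [if_pos h1, if_pos h2, if_pos ⟨h1, h2⟩]; ring
      · simp [h2]
    · simp [h1]
  have hn : ‖F.G u q ξ‖ ^ 2 = ‖((‖F.G u q ξ‖ ^ 2 : ℝ) : ℂ)‖ := by
    rw [Complex.norm_real, Real.norm_eq_abs, abs_of_nonneg (by positivity)]
  rw [hn, hsq]
  refine (norm_sum_le _ _).trans (Finset.sum_le_sum fun h _ => ?_)
  rw [norm_mul, AddChar.norm_apply, one_mul]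
  split_ifs with hh
  · simp
  · simp

/-- Row H03. Bound for the Gauss sum. -/
theorem gauss_bound {F : Fm} {N : ℕ} (h : F.Pos N) {u : ℤ} {q : ℕ} (hq : 0 < q) (hu : IsCoprime u (q : ℤ))
    (ξ : ℤ × ℤ) : ‖F.G u q ξ‖ ≤ N * q := by
  have : NeZero q := ⟨hq.ne'⟩
  obtain ⟨hN, hA, hD⟩ := h
  have hunit : IsUnit (u : ZMod q) := by
    obtain ⟨a, b, hab⟩ := hu
    have : (a : ZMod q) * (u : ZMod q) = 1 := by
      have h1 := congrArg (fun t : ℤ => (t : ZMod q)) hab
      push_cast at h1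
      simpa using h1
    exact IsUnit.of_mul_eq_one (a : ZMod q) (by rw [mul_comm]; exact this)
  have hDz : (4 * F.A * F.C - F.B ^ 2 : ZMod q) = N := by
    have h1 := congrArg (fun t : ℤ => (t : ZMod q)) hD
    push_cast at h1
    exact h1
  have hsq := H03_sq F u q ξ
  have hcard : ∑ h : ZMod q × ZMod q,
      (if (u : ZMod q) * (2 * F.A * h.1 + F.B * h.2) = 0 ∧ (u : ZMod q) * (F.B * h.1 + 2 * F.C * h.2) = 0
        then (q : ℝ) ^ 2 else 0) ≤ (N : ℝ) ^ 2 * (q : ℝ) ^ 2 := by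
    rw [← Finset.sum_filter, Finset.sum_const, nsmul_eq_mul]
    refine mul_le_mul_of_nonneg_right ?_ (by positivity)
    have hsub : (Finset.univ.filter (fun h : ZMod q × ZMod q =>
        (u : ZMod q) * (2 * F.A * h.1 + F.B * h.2) = 0 ∧ (u : ZMod q) * (F.B * h.1 + 2 * F.C * h.2) = 0))
        ⊆ (Finset.univ.filter (fun x : ZMod q => (N : ZMod q) * x = 0)) ×ˢ
          (Finset.univ.filter (fun x : ZMod q => (N : ZMod q) * x = 0)) := by
      intro x hx
      simp only [Finset.mem_filter, Finset.mem_univ, true_and] at hx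
      obtain ⟨h1, h2⟩ := hx
      have h1' := (hunit.mul_right_eq_zero).1 h1
      have h2' := (hunit.mul_right_eq_zero).1 h2
      simp only [Finset.mem_product, Finset.mem_filter, Finset.mem_univ, true_and]
      rw [← hDz]
      constructor
      · linear_combination 2 * (F.C : ZMod q) * h1' - (F.B : ZMod q) * h2'
      · linear_combination 2 * (F.A : ZMod q) * h2' - (F.B : ZMod q) * h1'
    have hc := (Finset.card_le_card hsub)
    rw [Finset.card_product] at hc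
    have hc2 := hc.trans (Nat.mul_le_mul (H03_card N q hN) (H03_card N q hN))
    calc (((Finset.univ.filter (fun h : ZMod q × ZMod q =>
        (u : ZMod q) * (2 * F.A * h.1 + F.B * h.2) = 0 ∧ (u : ZMod q) * (F.B * h.1 + 2 * F.C * h.2) = 0)).card : ℕ) : ℝ)
        ≤ ((N * N : ℕ) : ℝ) := by exact_mod_cast hc2
      _ = (N : ℝ) ^ 2 := by push_cast; ring
  have h3 : ‖F.G u q ξ‖ ^ 2 ≤ ((N : ℝ) * q) ^ 2 := by
    refine (hsq.trans hcard).trans (le_of_eq ?_)
    ring
  exact (pow_le_pow_iff_left₀ (norm_nonneg _) (by positivity) two_ne_zero).1 h3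

end HC
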