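import Mathlib
import Pool.Agent.Lib.MP_0f5a55_nt.HC.H02
open Complex MeasureTheory Set Filter Topology
open scoped Real ComplexConjugate NumberField

namespace HC

/-- the rotation of the plane lattice -/
def H04_rot : ℤ × ℤ ≃ ℤ × ℤ where
  toFun ξ := (-ξ.2, ξ.1)
  invFun ξ := (ξ.2, -ξ.1)
  left_inv := by rintro ⟨a, b⟩; simp
  right_inv := by rintro ⟨a, b⟩; simp

theorem H04_G (F : Fm) (ξ : ℤ × ℤ) : F.G 0 1 ξ = 1 := by
  simp [Fm.G, ee]

/-- Row H04. Inversion of the theta function. -/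
theorem th_inv {F : Fm} {N : ℕ} (h : F.Pos N) {z : ℂ} (hz : 0 < z.re) : F.th N (1 / z) = z * F.th N z := by
  have hN : (0 : ℝ) < (N : ℝ) := by exact_mod_cast h.1
  have hs : (0 : ℝ) < √(N : ℝ) := Real.sqrt_pos.2 hN
  have hsc : ((√(N : ℝ) : ℝ) : ℂ) ≠ 0 := by exact_mod_cast hs.ne'
  have hss : ((√(N : ℝ) : ℝ) : ℂ) * ((√(N : ℝ) : ℝ) : ℂ) = (N : ℂ) := by
    rw [← Complex.ofReal_mul, Real.mul_self_sqrt hN.le]; simp
  have hz0 : z ≠ 0 := by
    rintro rfl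
    simp at hz
  have hw : 0 < (I * z / ((√(N : ℝ) : ℝ) : ℂ)).im := by
    rw [Complex.div_ofReal_im]
    have : (I * z).im = z.re := by simp
    rw [this]
    exact div_pos hz hs
  have key := poisson (F := F) (N := N) h 0 (q := 1) one_pos (w := I * z / ((√(N : ℝ) : ℝ) : ℂ)) hw
  have hL : ∑' v : ℤ × ℤ, ee ((F.val v : ℂ) * (((0 : ℤ) : ℂ) / ((1 : ℕ) : ℂ) + I * z / ((√(N : ℝ) : ℝ) : ℂ))) = F.th N z := by
    unfold Fm.th
    refine tsum_congr fun v => ?_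
    unfold ee
    congr 1
    have : (I : ℂ) * I = -1 := I_mul_I
    push_cast
    field_simp
    ring_nf
    rw [I_sq]
    ring
  have hR : ∑' ξ : ℤ × ℤ, F.G 0 1 ξ * ee (-((F.val (-ξ.2, ξ.1) : ℂ) / ((N : ℂ) * (((1 : ℕ) : ℂ)) ^ 2 * (I * z / ((√(N : ℝ) : ℝ) : ℂ))))) = F.th N (1 / z) := by
    unfold Fm.th
    rw [← H04_rot.tsum_eq]
    refine tsum_congr fun ξ => ?_
    rw [H04_G, one_mul]
    unfold ee
    congr 1
    simp only [H04_rot, Equiv.coe_fn_mk]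
    rw [← hss]
    push_cast
    have hI : (I : ℂ) ≠ 0 := I_ne_zero
    have hv : F.val (-ξ.1, -ξ.2) = F.val ξ := by
      simp only [Fm.val]; ring
    field_simp
    rw [hv]
  rw [hL, hR] at key
  have hc : I / (I * z / ((√(N : ℝ) : ℝ) : ℂ) * ((√(N : ℝ) : ℝ) : ℂ) * (((1 : ℕ) : ℂ)) ^ 2) = 1 / z := by
    have hI : (I : ℂ) ≠ 0 := I_ne_zero
    push_cast
    field_simp
  rw [hc] at key
  rw [key]
  field_simp

end HC
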