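import Mathlib
import Pool.Agent.Lib.MP_0f5a55_nt.HC.H02
import Pool.Agent.Lib.MP_0f5a55_nt.HC.H03
open Complex MeasureTheory Set Filter Topology
open scoped Real ComplexConjugate NumberField

namespace HC

theorem H05_norm_ee (z : ℂ) : ‖ee z‖ = Real.exp (-(2 * π * z.im)) := by
  unfold ee
  rw [Complex.norm_exp]
  congr 1
  simp

theorem H05_gen {F : Fm} {N : ℕ} (h : F.Pos N) {C0 : ℝ}
    (hC : ∀ t : ℝ, 0 < t →
      ∑' v : ℤ × ℤ, (if v = 0 then 0 else Real.exp (-(t * (F.val v : ℝ)))) ≤ C0 / t)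
    (g : ℤ × ℤ → ℂ) {M t : ℝ} (ht : 0 < t) (hM : 0 ≤ M)
    (hg : ∀ v, ‖g v‖ ≤ M * Real.exp (-(t * (F.val v : ℝ)))) :
    ‖∑' v, g v - g 0‖ ≤ M * (C0 / t) := by
  have hs0 : Summable (fun v : ℤ × ℤ => M * Real.exp (-(t * (F.val v : ℝ)))) :=
    (gauss_summable h ht).mul_left M
  have hs : Summable g := Summable.of_norm_bounded hs0 hg
  rw [hs.tsum_eq_add_tsum_ite 0, add_sub_cancel_left]
  have hs1 : Summable (fun v : ℤ × ℤ => M * (if v = 0 then 0 else Real.exp (-(t * (F.val v : ℝ))))) := by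
    apply Summable.mul_left
    refine Summable.of_nonneg_of_le (fun v => ?_) (fun v => ?_) (gauss_summable h ht)
    · split_ifs
      · exact le_rfl
      · exact (Real.exp_pos _).le
    · split_ifs
      · exact (Real.exp_pos _).le
      · exact le_rfl
  have hb : ∀ v : ℤ × ℤ, ‖(if v = 0 then 0 else g v : ℂ)‖ ≤
      M * (if v = 0 then 0 else Real.exp (-(t * (F.val v : ℝ)))) := by
    intro v
    split_ifs
    · simp
    · exact hg v
  have h1 := tsum_of_norm_bounded hs1.hasSum hb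
  refine h1.trans ?_
  rw [tsum_mul_left]
  exact mul_le_mul_of_nonneg_left (hC t ht) hM

/-- the rotation of the lattice -/
def H05_rot : ℤ × ℤ ≃ ℤ × ℤ where
  toFun ξ := (-ξ.2, ξ.1)
  invFun v := (v.2, -v.1)
  left_inv ξ := by simp
  right_inv v := by simp

theorem H05_direct {F : Fm} {N : ℕ} (h : F.Pos N) {C0 : ℝ}
    (hC : ∀ t : ℝ, 0 < t →
      ∑' v : ℤ × ℤ, (if v = 0 then 0 else Real.exp (-(t * (F.val v : ℝ)))) ≤ C0 / t)
    {w : ℂ} (hw : 0 < w.im) :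
    ‖∑' v : ℤ × ℤ, ee ((F.val v : ℂ) * w) - 1‖ ≤ C0 / (2 * π * w.im) := by
  have ht : 0 < 2 * π * w.im := by positivity
  have h0 : ee ((F.val 0 : ℂ) * w) = 1 := by
    simp [Fm.val, ee]
  have := H05_gen h hC (fun v => ee ((F.val v : ℂ) * w)) (M := 1) ht zero_le_one (fun v => by
    rw [H05_norm_ee, one_mul]
    apply le_of_eq
    congr 1
    have : ((F.val v : ℂ) * w).im = (F.val v : ℝ) * w.im := by
      simp
    rw [this]
    ring)
  simp only [h0, one_mul] at this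
  exact this

theorem H05_dual {F : Fm} {N : ℕ} (h : F.Pos N) {C0 : ℝ}
    (hC : ∀ t : ℝ, 0 < t →
      ∑' v : ℤ × ℤ, (if v = 0 then 0 else Real.exp (-(t * (F.val v : ℝ)))) ≤ C0 / t)
    {u : ℤ} {q : ℕ} (hq : 0 < q) (hu : IsCoprime u (q : ℤ)) {w : ℂ} (hw : 0 < w.im) :
    ‖∑' ξ : ℤ × ℤ, F.G u q ξ * ee (-((F.val (-ξ.2, ξ.1) : ℂ) / (N * (q : ℂ) ^ 2 * w))) - F.G u q 0‖ ≤
      (N * q) * (C0 / (2 * π * w.im / (N * q ^ 2 * ‖w‖ ^ 2))) := by
  have hN : 0 < N := h.1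
  have hw0 : w ≠ 0 := by
    rintro rfl
    simp at hw
  have hnw : 0 < ‖w‖ := norm_pos_iff.2 hw0
  have hqr : (0:ℝ) < q := by exact_mod_cast hq
  have hNr : (0:ℝ) < N := by exact_mod_cast hN
  have ht : 0 < 2 * π * w.im / (N * q ^ 2 * ‖w‖ ^ 2) := by positivity
  have key := H05_gen h hC
    (fun v => F.G u q (v.2, -v.1) * ee (-((F.val v : ℂ) / (N * (q : ℂ) ^ 2 * w))))
    (M := N * q) ht (by positivity) (fun v => by
      rw [norm_mul]
      refine mul_le_mul (gauss_bound h hq hu _) ?_ (norm_nonneg _) (by positivity)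
      rw [H05_norm_ee]
      apply le_of_eq
      congr 1
      have e1 : (-((F.val v : ℂ) / (N * (q : ℂ) ^ 2 * w))).im
          = (F.val v : ℝ) * w.im / (N * q ^ 2 * ‖w‖ ^ 2) := by
        have e2 : -((F.val v : ℂ) / (N * (q : ℂ) ^ 2 * w))
            = (((-((F.val v : ℝ) / (N * q ^ 2)) : ℝ)) : ℂ) * w⁻¹ := by
          push_cast
          rw [div_eq_mul_inv, mul_inv, div_eq_mul_inv]
          ring
        rw [e2, Complex.im_ofReal_mul, Complex.inv_im, Complex.normSq_eq_norm_sq]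
        field_simp
      rw [e1]
      ring)
  have e := H05_rot.tsum_eq
    (fun v => F.G u q (v.2, -v.1) * ee (-((F.val v : ℂ) / (N * (q : ℂ) ^ 2 * w))))
  have e3 : ∑' ξ : ℤ × ℤ, F.G u q ξ * ee (-((F.val (-ξ.2, ξ.1) : ℂ) / (N * (q : ℂ) ^ 2 * w))) =
      ∑' v : ℤ × ℤ, F.G u q (v.2, -v.1) * ee (-((F.val v : ℂ) / (N * (q : ℂ) ^ 2 * w))) := by
    rw [← e]
    apply tsum_congr
    intro ξ
    simp [H05_rot]
  rw [e3]
  have h0 : F.G u q ((0 : ℤ × ℤ).2, -(0 : ℤ × ℤ).1) *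
      ee (-((F.val 0 : ℂ) / (N * (q : ℂ) ^ 2 * w))) = F.G u q 0 := by
    have : ee (-((F.val 0 : ℂ) / (N * (q : ℂ) ^ 2 * w))) = 1 := by
      simp [Fm.val, ee]
    rw [this, mul_one]
    congr 1
  simp only [h0] at key
  exact key

/-- value of the transformed sum -/
theorem H05_transf {ι : Type*} {T : Finset ι} {F : ι → Fm} {N : ℕ} (hF : ∀ i ∈ T, (F i).Pos N) {c : ι → ℂ}
    {C0 : ι → ℝ} (hC : ∀ i ∈ T, ∀ t : ℝ, 0 < t →
      ∑' v : ℤ × ℤ, (if v = 0 then 0 else Real.exp (-(t * ((F i).val v : ℝ)))) ≤ C0 i / t)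
    {u : ℤ} {q : ℕ} (hq : 0 < q) (hu : IsCoprime u (q : ℤ)) (hN : 0 < N)
    (hG : ∑ i ∈ T, c i * (F i).G u q 0 = 0) {w : ℂ} (hw : 0 < w.im) :
    ‖∑ i ∈ T, c i * ∑' v : ℤ × ℤ, ee (((F i).val v : ℂ) * ((u : ℂ) / q + w))‖ ≤
      (N ^ 2 / (2 * π * √N) * ∑ i ∈ T, ‖c i‖ * C0 i) * (q * ‖w‖ / w.im) := by
  have hw0 : w ≠ 0 := by
    rintro rfl
    simp at hw
  have hnw : 0 < ‖w‖ := norm_pos_iff.2 hw0
  have hqr : (0:ℝ) < q := by exact_mod_cast hq
  have hNr : (0:ℝ) < N := by exact_mod_cast hN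
  have hsN : 0 < √(N:ℝ) := Real.sqrt_pos.2 hNr
  set D : ι → ℂ := fun i => ∑' ξ : ℤ × ℤ, (F i).G u q ξ *
    ee (-(((F i).val (-ξ.2, ξ.1) : ℂ) / (N * (q : ℂ) ^ 2 * w))) with hD
  have e1 : ∑ i ∈ T, c i * ∑' v : ℤ × ℤ, ee (((F i).val v : ℂ) * ((u : ℂ) / q + w)) =
      I / (w * ((√N : ℝ) : ℂ) * (q : ℂ) ^ 2) * ∑ i ∈ T, c i * (D i - (F i).G u q 0) := by
    have e2 : ∑ i ∈ T, c i * (D i - (F i).G u q 0) = ∑ i ∈ T, c i * D i := by
      simp only [mul_sub, Finset.sum_sub_distrib, hG, sub_zero]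
    rw [e2, Finset.mul_sum]
    refine Finset.sum_congr rfl (fun i hi => ?_)
    rw [poisson (hF i hi) u hq hw]
    ring
  rw [e1, norm_mul]
  have h1 : ‖I / (w * ((√N : ℝ) : ℂ) * (q : ℂ) ^ 2)‖ = 1 / (‖w‖ * √N * q ^ 2) := by
    rw [norm_div, norm_mul, norm_mul, norm_pow]
    simp [abs_of_pos hsN]
  have h2 : ‖∑ i ∈ T, c i * (D i - (F i).G u q 0)‖ ≤
      ∑ i ∈ T, ‖c i‖ * C0 i * ((N * q) * ((N * q ^ 2 * ‖w‖ ^ 2) / (2 * π * w.im))) := by
    refine (norm_sum_le _ _).trans (Finset.sum_le_sum (fun i hi => ?_))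
    rw [norm_mul, mul_assoc]
    refine mul_le_mul_of_nonneg_left ?_ (norm_nonneg _)
    refine (H05_dual (hF i hi) (hC i hi) hq hu hw).trans (le_of_eq ?_)
    field_simp
  rw [← Finset.sum_mul] at h2
  rw [h1]
  refine (mul_le_mul_of_nonneg_left h2 (by positivity)).trans (le_of_eq ?_)
  field_simp

/-- Row H05. Bound for a combination of theta functions whose constant terms at all rationals vanish. -/
theorem pt_forms {ι : Type*} {T : Finset ι} {F : ι → Fm} {N : ℕ} (hF : ∀ i ∈ T, (F i).Pos N) {c : ι → ℂ}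
    (hG : ∀ (u : ℤ) (q : ℕ), 0 < q → IsCoprime u (q : ℤ) → ∑ i ∈ T, c i * (F i).G u q 0 = 0) :
    ∃ C : ℝ, 0 ≤ C ∧ ∀ x y : ℝ, 0 < y →
      ‖∑ i ∈ T, c i * ∑' v : ℤ × ℤ, ee (((F i).val v : ℂ) * (x + y * I))‖ ≤ C / √y := by
  classical
  rcases T.eq_empty_or_nonempty with rfl | hne
  · exact ⟨0, le_rfl, fun x y hy => by simp⟩
  obtain ⟨i0, hi0⟩ := hne
  have hN : 0 < N := (hF i0 hi0).1
  have hNr : (0:ℝ) < N := by exact_mod_cast hN
  have hsN : 0 < √(N:ℝ) := Real.sqrt_pos.2 hNr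
  have hex : ∀ i : ι, ∃ C0 : ℝ, 0 ≤ C0 ∧ (i ∈ T → ∀ t : ℝ, 0 < t →
      ∑' v : ℤ × ℤ, (if v = 0 then 0 else Real.exp (-(t * ((F i).val v : ℝ)))) ≤ C0 / t) := by
    intro i
    by_cases hi : i ∈ T
    · obtain ⟨C, h0, h1⟩ := gauss_sum (hF i hi)
      exact ⟨C, h0, fun _ => h1⟩
    · exact ⟨0, le_rfl, fun h => absurd h hi⟩
  choose C0 hC0 hC using hex
  set S : ℝ := ∑ i ∈ T, ‖c i‖ * C0 i with hS
  have hS0 : 0 ≤ S := Finset.sum_nonneg (fun i _ => mul_nonneg (norm_nonneg _) (hC0 i))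
  refine ⟨S / (2 * π) + 2 * (N ^ 2 / (2 * π * √N) * S), by positivity, fun x y hy => ?_⟩
  have hsy : 0 < √y := Real.sqrt_pos.2 hy
  have hsy2 : √y * √y = y := Real.mul_self_sqrt hy.le
  rcases le_or_gt 1 y with h1 | h1
  · -- large y
    have hG1 : ∑ i ∈ T, c i = 0 := by
      have h := hG 0 1 one_pos (isCoprime_one_right)
      have h2 : ∀ i, (F i).G 0 1 0 = 1 := by
        intro i
        simp [Fm.G, ee, Fm.val]
      simpa only [h2, mul_one] using h
    have e : ∑ i ∈ T, c i * ∑' v : ℤ × ℤ, ee (((F i).val v : ℂ) * (x + y * I)) =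
        ∑ i ∈ T, c i * (∑' v : ℤ × ℤ, ee (((F i).val v : ℂ) * (x + y * I)) - 1) := by
      simp only [mul_sub, mul_one, Finset.sum_sub_distrib, hG1, sub_zero]
    rw [e]
    have him : ((x : ℂ) + y * I).im = y := by simp
    have h3 : ‖∑ i ∈ T, c i * (∑' v : ℤ × ℤ, ee (((F i).val v : ℂ) * (x + y * I)) - 1)‖ ≤
        ∑ i ∈ T, ‖c i‖ * C0 i * (1 / (2 * π * y)) := by
      refine (norm_sum_le _ _).trans (Finset.sum_le_sum (fun i hi => ?_))
      rw [norm_mul, mul_assoc]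
      refine mul_le_mul_of_nonneg_left ?_ (norm_nonneg _)
      have h4 := H05_direct (hF i hi) (hC i hi) (w := (x : ℂ) + y * I) (by rw [him]; exact hy)
      rw [him] at h4
      rw [mul_one_div]
      exact h4
    refine h3.trans ?_
    rw [← Finset.sum_mul, ← hS]
    have h5 : √y ≤ y := by
      have h6 : 1 ≤ √y := Real.one_le_sqrt.2 h1
      nlinarith
    have h6 : 1 / (2 * π * y) ≤ 1 / (2 * π) * (1 / √y) := by
      rw [one_div_mul_one_div]
      apply one_div_le_one_div_of_le (by positivity)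
      exact mul_le_mul_of_nonneg_left h5 (by positivity)
    calc S * (1 / (2 * π * y)) ≤ S * (1 / (2 * π) * (1 / √y)) := mul_le_mul_of_nonneg_left h6 hS0
      _ = (S / (2 * π)) / √y := by ring
      _ ≤ (S / (2 * π) + 2 * (N ^ 2 / (2 * π * √N) * S)) / √y := by
        apply div_le_div_of_nonneg_right _ hsy.le
        have : 0 ≤ 2 * (N ^ 2 / (2 * π * √N) * S) := by positivity
        linarith
  · -- small y: Dirichlet approximation
    have hsy1 : √y ≤ 1 := by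
      rw [Real.sqrt_le_one]
      exact h1.le
    set n : ℕ := ⌊1 / √y⌋₊ with hn
    have hn1 : 0 < n := by
      rw [hn]
      apply Nat.floor_pos.2
      rw [le_div_iff₀ hsy]
      linarith
    obtain ⟨r, hr1, hr2⟩ := Real.exists_rat_abs_sub_le_and_den_le x hn1
    have hq : 0 < r.den := r.den_pos
    have hqr : (0:ℝ) < r.den := by exact_mod_cast hq
    have hu : IsCoprime r.num (r.den : ℤ) := by
      rw [Int.isCoprime_iff_nat_coprime]
      simpa using r.reduced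
    set w : ℂ := ((x - r : ℝ) : ℂ) + y * I with hw
    have him : w.im = y := by simp [hw]
    have hwpos : 0 < w.im := by rw [him]; exact hy
    have e : ∀ v : ℂ, v * ((x : ℂ) + y * I) = v * (((r.num : ℤ) : ℂ) / (r.den : ℕ) + w) := by
      intro v
      congr 1
      rw [hw]
      have h2 : ((r.num : ℤ) : ℂ) / (r.den : ℕ) = (r : ℂ) := by
        rw [Rat.cast_def]
      rw [h2]
      push_cast
      ring
    simp only [e]
    have h3 := H05_transf hF (c := c) (fun i hi => hC i hi) hq hu hN (hG _ _ hq hu) hwpos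
    refine h3.trans ?_
    rw [← hS, him]
    have hqn : (r.den : ℝ) ≤ n := by exact_mod_cast hr2
    have hn2 : (n : ℝ) ≤ 1 / √y := Nat.floor_le (by positivity)
    have hn3 : 1 / √y < n + 1 := Nat.lt_floor_add_one _
    have h4 : ‖w‖ ≤ |x - r| + y := by
      rw [hw]
      refine (norm_add_le _ _).trans (le_of_eq ?_)
      rw [Complex.norm_real, Real.norm_eq_abs, norm_mul, Complex.norm_I, mul_one, Complex.norm_real,
        Real.norm_eq_abs, abs_of_pos hy]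
    have h5 : r.den * |x - r| ≤ √y := by
      have h6 : (r.den : ℝ) * |x - r| ≤ r.den * (1 / ((n + 1) * r.den)) :=
        mul_le_mul_of_nonneg_left hr1 hqr.le
      have h7 : (r.den : ℝ) * (1 / ((n + 1) * r.den)) = 1 / (n + 1) := by
        field_simp
      rw [h7] at h6
      refine h6.trans ?_
      rw [div_le_iff₀ (by positivity)]
      rw [div_lt_iff₀ hsy] at hn3
      linarith
    have h6 : r.den * y ≤ √y := by
      have h7 : (r.den : ℝ) ≤ 1 / √y := hqn.trans hn2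
      calc (r.den : ℝ) * y ≤ 1 / √y * y := mul_le_mul_of_nonneg_right h7 hy.le
        _ = √y := by
          rw [one_div, inv_mul_eq_iff_eq_mul₀ hsy.ne', hsy2]
    have h7 : r.den * ‖w‖ ≤ 2 * √y := by
      calc (r.den : ℝ) * ‖w‖ ≤ r.den * (|x - r| + y) := mul_le_mul_of_nonneg_left h4 hqr.le
        _ = r.den * |x - r| + r.den * y := by ring
        _ ≤ 2 * √y := by linarith
    have h8 : r.den * ‖w‖ / y ≤ 2 / √y := by
      rw [div_le_div_iff₀ hy hsy]
      calc r.den * ‖w‖ * √y ≤ 2 * √y * √y := mul_le_mul_of_nonneg_right h7 hsy.le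
        _ = 2 * y := by rw [mul_assoc, hsy2]
    have hK : 0 ≤ (N:ℝ) ^ 2 / (2 * π * √N) * S := by positivity
    calc (N ^ 2 / (2 * π * √N) * S) * (r.den * ‖w‖ / y)
        ≤ (N ^ 2 / (2 * π * √N) * S) * (2 / √y) := mul_le_mul_of_nonneg_left h8 hK
      _ = (2 * (N ^ 2 / (2 * π * √N) * S)) / √y := by ring
      _ ≤ (S / (2 * π) + 2 * (N ^ 2 / (2 * π * √N) * S)) / √y := by
        apply div_le_div_of_nonneg_right _ hsy.le
        have : 0 ≤ S / (2 * π) := by positivity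
        linarith

end HC
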