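import Mathlib
import Pool.Agent.Lib.MP_0f5a55_nt.HC.H04
import Pool.Agent.Lib.MP_0f5a55_nt.HC.H05
import Pool.Agent.Lib.MP_0f5a55_nt.NH.D
open Complex MeasureTheory Set Filter Topology
open scoped Real ComplexConjugate NumberField

namespace HC

theorem H06_nonneg {F : Fm} {N : ℕ} (h : F.Pos N) (v : ℤ × ℤ) : 0 ≤ F.val v := by
  obtain ⟨c, hc, hv⟩ := val_lower h
  have h1 := hv v
  have h2 : 0 ≤ c * ((v.1 : ℝ) ^ 2 + (v.2 : ℝ) ^ 2) := by positivity
  exact_mod_cast h2.trans h1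

theorem H06_zero {F : Fm} {N : ℕ} (h : F.Pos N) (v : ℤ × ℤ) : F.val v = 0 ↔ v = 0 := by
  constructor
  · intro h0
    obtain ⟨c, hc, hv⟩ := val_lower h
    have h1 := hv v
    rw [h0, Int.cast_zero] at h1
    have h2 : (v.1 : ℝ) ^ 2 + (v.2 : ℝ) ^ 2 ≤ 0 := by
      by_contra hcon
      push Not at hcon
      have := mul_pos hc hcon
      linarith
    have h3 : (v.1 : ℝ) = 0 := by nlinarith [sq_nonneg (v.1 : ℝ), sq_nonneg (v.2 : ℝ)]
    have h4 : (v.2 : ℝ) = 0 := by nlinarith [sq_nonneg (v.1 : ℝ), sq_nonneg (v.2 : ℝ)]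
    exact Prod.ext (by exact_mod_cast h3) (by exact_mod_cast h4)
  · rintro rfl
    simp [Fm.val]

theorem H06_summable {F : Fm} {N : ℕ} (h : F.Pos N) {s : ℂ} (hs : 0 < s.re) :
    Summable (fun v : ℤ × ℤ => exp (-((F.val v : ℂ) * s))) := by
  refine Summable.of_norm ?_
  refine (gauss_summable h hs).congr fun v => ?_
  rw [norm_exp]
  congr 1
  simp [mul_comm]

theorem H06_hasSum {F : Fm} {N : ℕ} (h : F.Pos N) {s : ℂ} (hs : 0 < s.re) :
    HasSum (fun n : ℕ => (({v : ℤ × ℤ | F.val v = n}.ncard : ℕ) : ℂ) * exp (-((n : ℂ) * s)))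
      (∑' v : ℤ × ℤ, exp (-((F.val v : ℂ) * s))) := by
  have h1 := (H06_summable h hs).hasSum.tsum_fiberwise (fun v : ℤ × ℤ => (F.val v).toNat)
  refine (congrArg (fun g => HasSum g (∑' v : ℤ × ℤ, exp (-((F.val v : ℂ) * s)))) ?_).mpr h1
  funext n
  have hset : {v : ℤ × ℤ | F.val v = n} = (fun v : ℤ × ℤ => (F.val v).toNat) ⁻¹' {n} := by
    ext v
    have h2 := H06_nonneg h v
    simp only [Set.mem_ofPred_eq, Set.mem_preimage, Set.mem_singleton_iff]
    omega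
  rw [hset]
  have h2 : ∀ b : ((fun v : ℤ × ℤ => (F.val v).toNat) ⁻¹' {n} : Set (ℤ × ℤ)),
      exp (-((F.val b : ℂ) * s)) = exp (-((n : ℂ) * s)) := by
    rintro ⟨v, hv⟩
    have h3 := H06_nonneg h v
    have h4 : (F.val v).toNat = n := hv
    have h5 : F.val v = (n : ℤ) := by omega
    change exp (-((F.val v : ℂ) * s)) = _
    rw [h5]
    simp
  rw [tsum_congr h2, tsum_const, Nat.card_coe_set_eq, nsmul_eq_mul]

theorem H06_const {ι : Type*} {T : Finset ι} {F : ι → Fm} {c : ι → ℂ}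
    (hG : ∀ (u : ℤ) (q : ℕ), 0 < q → IsCoprime u (q : ℤ) → ∑ i ∈ T, c i * (F i).G u q 0 = 0) :
    ∑ i ∈ T, c i = 0 := by
  have h1 := hG 0 1 one_pos (by simpa using isCoprime_one_right)
  rw [← h1]
  refine Finset.sum_congr rfl fun i _ => ?_
  have h2 : (F i).G 0 1 0 = 1 := by
    simp [Fm.G, ee]
  rw [h2, mul_one]

/-- the power series -/
theorem H06_series {ι : Type*} {T : Finset ι} {F : ι → Fm} {N : ℕ} (hF : ∀ i ∈ T, (F i).Pos N) {c : ι → ℂ}
    (hG : ∀ (u : ℤ) (q : ℕ), 0 < q → IsCoprime u (q : ℤ) → ∑ i ∈ T, c i * (F i).G u q 0 = 0)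
    {a : ℕ → ℂ} {w : ℂ}
    (ha : ∀ n : ℕ, 0 < n → w * a n = ∑ i ∈ T, c i * (({v : ℤ × ℤ | (F i).val v = n}.ncard : ℕ) : ℂ))
    {s : ℂ} (hs : 0 < s.re) :
    w * ∑' n : ℕ, a (n + 1) * exp (-(((n : ℂ) + 1) * s)) =
      ∑ i ∈ T, c i * ∑' v : ℤ × ℤ, exp (-(((F i).val v : ℂ) * s)) := by
  have h1 : HasSum (fun n : ℕ => ∑ i ∈ T, c i *
      ((({v : ℤ × ℤ | (F i).val v = n}.ncard : ℕ) : ℂ) * exp (-((n : ℂ) * s))))
      (∑ i ∈ T, c i * ∑' v : ℤ × ℤ, exp (-(((F i).val v : ℂ) * s))) :=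
    hasSum_sum fun i hi => (H06_hasSum (hF i hi) hs).mul_left (c i)
  have h2 := (hasSum_nat_add_iff' 1).2 h1
  have h3 : ∑ n ∈ Finset.range 1, ∑ i ∈ T, c i *
      ((({v : ℤ × ℤ | (F i).val v = n}.ncard : ℕ) : ℂ) * exp (-((n : ℂ) * s))) = 0 := by
    rw [Finset.sum_range_one, ← H06_const hG]
    refine Finset.sum_congr rfl fun i hi => ?_
    have h4 : {v : ℤ × ℤ | (F i).val v = ((0 : ℕ) : ℤ)} = {0} := by
      ext v
      rw [Set.mem_ofPred_eq, Set.mem_singleton_iff, Nat.cast_zero, H06_zero (hF i hi)]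
    rw [h4]
    simp
  rw [h3, sub_zero] at h2
  rw [← h2.tsum_eq, ← tsum_mul_left]
  refine tsum_congr fun n => ?_
  have h5 := ha (n + 1) (Nat.succ_pos n)
  rw [← mul_assoc, h5, Finset.sum_mul]
  refine Finset.sum_congr rfl fun i _ => ?_
  push_cast
  ring

/-- Row H06. The power series with coefficients a, w a(n) = sum of c(i) times the number of representations by F i. -/
theorem pt_of {ι : Type*} {T : Finset ι} {F : ι → Fm} {N : ℕ} (hF : ∀ i ∈ T, (F i).Pos N) {c : ι → ℂ}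
    (hG : ∀ (u : ℤ) (q : ℕ), 0 < q → IsCoprime u (q : ℤ) → ∑ i ∈ T, c i * (F i).G u q 0 = 0)
    {a : ℕ → ℂ} {w : ℂ} (hw : w ≠ 0)
    (ha : ∀ n : ℕ, 0 < n → w * a n = ∑ i ∈ T, c i * (({v : ℤ × ℤ | (F i).val v = n}.ncard : ℕ) : ℂ)) :
    ∃ C : ℝ, 0 ≤ C ∧ ∀ x y : ℝ, 0 < y →
      ‖∑' n : ℕ, a (n + 1) * exp (2 * π * ((n : ℂ) + 1) * (x + y * I) * I)‖ ≤ C / √y := by
  obtain ⟨C, hC0, hC⟩ := pt_forms hF hG
  refine ⟨C / ‖w‖, by positivity, fun x y hy => ?_⟩
  have hw' : 0 < ‖w‖ := norm_pos_iff.2 hw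
  set s : ℂ := -(2 * π * (x + y * I) * I) with hs
  have hsre : 0 < s.re := by
    have h1 : s.re = 2 * π * y := by
      rw [hs]
      simp
    rw [h1]
    positivity
  have h1 := H06_series hF hG ha hsre
  have h2 : ∑' n : ℕ, a (n + 1) * exp (2 * π * ((n : ℂ) + 1) * (x + y * I) * I) =
      ∑' n : ℕ, a (n + 1) * exp (-(((n : ℂ) + 1) * s)) := by
    refine tsum_congr fun n => ?_
    rw [hs]
    congr 2
    ring
  have h3 : ∑ i ∈ T, c i * ∑' v : ℤ × ℤ, exp (-(((F i).val v : ℂ) * s)) =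
      ∑ i ∈ T, c i * ∑' v : ℤ × ℤ, ee (((F i).val v : ℂ) * (x + y * I)) := by
    refine Finset.sum_congr rfl fun i _ => ?_
    congr 1
    refine tsum_congr fun v => ?_
    unfold ee
    rw [hs]
    congr 1
    ring
  have h4 := hC x y hy
  rw [← h3, ← h1, norm_mul] at h4
  rw [h2, div_right_comm, le_div_iff₀ hw', mul_comm]
  exact h4

theorem fe_of {ι : Type*} {T : Finset ι} {F : ι → Fm} {N : ℕ} (hF : ∀ i ∈ T, (F i).Pos N) {c : ι → ℂ}
    (hG : ∀ (u : ℤ) (q : ℕ), 0 < q → IsCoprime u (q : ℤ) → ∑ i ∈ T, c i * (F i).G u q 0 = 0)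
    {a : ℕ → ℂ} {w : ℂ} (hw : w ≠ 0)
    (ha : ∀ n : ℕ, 0 < n → w * a n = ∑ i ∈ T, c i * (({v : ℤ × ℤ | (F i).val v = n}.ncard : ℕ) : ℂ))
    (hr : ∀ n : ℕ, 0 < n → conj (a n) = a n) {z : ℂ} (hz : 0 < z.re) :
    NH.FF N a (1 / z) = z * conj (NH.FF N a (conj z)) := by
  -- the conjugate
  have hconj : conj (NH.FF N a (conj z)) = NH.FF N a z := by
    unfold NH.FF
    rw [conj_tsum]
    refine tsum_congr fun n => ?_
    rw [map_mul, hr _ (Nat.succ_pos n), ← exp_conj]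
    congr 2
    simp [map_div₀, map_ofNat]
  rw [hconj]
  rcases T.eq_empty_or_nonempty with rfl | ⟨i₀, hi₀⟩
  · have h0 : ∀ n : ℕ, a (n + 1) = 0 := by
      intro n
      have h1 := ha (n + 1) (Nat.succ_pos n)
      rw [Finset.sum_empty] at h1
      exact (mul_eq_zero.1 h1).resolve_left hw
    simp [NH.FF, h0]
  · have hN : 0 < N := (hF i₀ hi₀).1
    have hsN : 0 < √(N : ℝ) := Real.sqrt_pos.2 (by exact_mod_cast hN)
    have key : ∀ y : ℂ, 0 < y.re → w * NH.FF N a y = ∑ i ∈ T, c i * (F i).th N y := by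
      intro y hy
      set s : ℂ := 2 * π * y / ((√N : ℝ) : ℂ) with hs
      have hsre : 0 < s.re := by
        have h1 : s.re = 2 * π * y.re / √N := by
          rw [hs, div_ofReal_re]
          congr 1
          simp
        rw [h1]
        positivity
      have h1 := H06_series hF hG ha hsre
      have h2 : NH.FF N a y = ∑' n : ℕ, a (n + 1) * exp (-(((n : ℂ) + 1) * s)) := by
        unfold NH.FF
        refine tsum_congr fun n => ?_
        rw [hs]
        congr 2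
        ring
      rw [h2, h1]
      refine Finset.sum_congr rfl fun i _ => ?_
      unfold Fm.th
      congr 1
      refine tsum_congr fun v => ?_
      rw [hs]
      congr 1
      ring
    have hz0 : z ≠ 0 := by
      rintro rfl
      simp at hz
    have hzi : 0 < (1 / z).re := by
      rw [one_div, inv_re]
      exact div_pos hz (normSq_pos.2 hz0)
    have h1 := key z hz
    have h2 := key (1 / z) hzi
    have h3 : ∑ i ∈ T, c i * (F i).th N (1 / z) = z * ∑ i ∈ T, c i * (F i).th N z := by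
      rw [Finset.mul_sum]
      refine Finset.sum_congr rfl fun i hi => ?_
      rw [th_inv (hF i hi) hz]
      ring
    rw [h3, ← h1] at h2
    have h4 : w * NH.FF N a (1 / z) = w * (z * NH.FF N a z) := by
      rw [h2]
      ring
    exact mul_left_cancel₀ hw h4

end HC
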