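import Mathlib
import Pool.Agent.Lib.MP_0f5a55_nt.NH.D
open Complex MeasureTheory Set Filter Topology
open scoped Real ComplexConjugate NumberField

namespace HC

theorem H07_summ {a : ℕ → ℂ} (hbd : ∀ n : ℕ, 0 < n → ‖a n‖ ≤ (n.divisors.card : ℝ)) {t : ℝ}
    (ht : 0 < t) : Summable fun n : ℕ => ‖a (n + 1)‖ * Real.exp (-(2 * π * t * ((n : ℝ) + 1))) := by
  set r : ℝ := Real.exp (-(2 * π * t)) with hr
  have hr0 : 0 < r := Real.exp_pos _
  have hr1 : r < 1 := by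
    rw [hr, Real.exp_lt_one_iff]
    have : 0 < 2 * π * t := by positivity
    linarith
  have h1 : Summable fun n : ℕ => ((n : ℝ) ^ 1 * r ^ n) :=
    summable_pow_mul_geometric_of_norm_lt_one 1 (by rwa [Real.norm_of_nonneg hr0.le])
  have h2 : Summable fun n : ℕ => (((n + 1 : ℕ) : ℝ) ^ 1 * r ^ (n + 1)) :=
    (summable_nat_add_iff (f := fun n : ℕ => ((n : ℝ) ^ 1 * r ^ n)) 1).2 h1
  refine Summable.of_nonneg_of_le (fun n => by positivity) (fun n => ?_) h2
  have h3 : ‖a (n + 1)‖ ≤ ((n + 1 : ℕ) : ℝ) := by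
    refine (hbd (n + 1) (Nat.succ_pos n)).trans ?_
    exact_mod_cast Nat.card_divisors_le_self (n + 1)
  have h4 : Real.exp (-(2 * π * t * ((n : ℝ) + 1))) = r ^ (n + 1) := by
    rw [hr, ← Real.exp_nat_mul]
    congr 1
    push_cast
    ring
  rw [h4, pow_one]
  exact mul_le_mul_of_nonneg_right h3 (by positivity)

theorem H07_coe {a : ℕ → ℂ} (hbd : ∀ n : ℕ, 0 < n → ‖a n‖ ≤ (n.divisors.card : ℝ)) {t : ℝ}
    (ht : 0 < t) (k : ℕ) :
    fourierCoeffOn (zero_lt_one' ℝ) (fun u : ℝ =>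
      ∑' n : ℕ, a (n + 1) * exp (2 * π * ((n : ℂ) + 1) * (u + t * I) * I)) ((k : ℤ) + 1) =
      a (k + 1) * exp (-(2 * π * t * ((k : ℂ) + 1))) := by
  have hnorm : ∀ (n : ℕ) (u : ℝ), ‖a (n + 1) * exp (2 * π * ((n : ℂ) + 1) * (u + t * I) * I)‖ =
      ‖a (n + 1)‖ * Real.exp (-(2 * π * t * ((n : ℝ) + 1))) := by
    intro n u
    rw [norm_mul, norm_exp]
    congr 2
    have : (2 * π * ((n : ℂ) + 1) * (u + t * I) * I : ℂ) =
        ((-(2 * π * t * ((n : ℝ) + 1)) : ℝ) : ℂ) + ((2 * π * ((n : ℝ) + 1) * u : ℝ) : ℂ) * I := by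
      push_cast
      linear_combination (2 * π * ((n : ℂ) + 1) * t) * I_mul_I
    rw [this]
    simp
  rw [fourierCoeffOn_eq_integral]
  have h4 : ((1 : ℝ) / (1 - 0)) = 1 := by norm_num
  rw [h4, one_smul]
  have hterm : ∀ n : ℕ, ∫ u in (0 : ℝ)..1, (fourier (-((k : ℤ) + 1)) (u : AddCircle ((1 : ℝ) - 0)) : ℂ) •
      (a (n + 1) * exp (2 * π * ((n : ℂ) + 1) * (u + t * I) * I)) =
      if n = k then a (k + 1) * exp (-(2 * π * t * ((k : ℂ) + 1))) else 0 := by
    intro n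
    have e1 : ∀ u : ℝ, (fourier (-((k : ℤ) + 1)) (u : AddCircle ((1 : ℝ) - 0)) : ℂ) •
        (a (n + 1) * exp (2 * π * ((n : ℂ) + 1) * (u + t * I) * I)) =
        (a (n + 1) * exp (-(2 * π * t * ((n : ℂ) + 1)))) *
          exp ((2 * π * I * ((n : ℂ) - k)) * u) := by
      intro u
      rw [fourier_coe_apply, smul_eq_mul]
      have : exp (2 * π * ((n : ℂ) + 1) * (u + t * I) * I) =
          exp (-(2 * π * t * ((n : ℂ) + 1))) * exp (2 * π * I * ((n : ℂ) + 1) * u) := by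
        rw [← exp_add]
        congr 1
        linear_combination (2 * π * ((n : ℂ) + 1) * t) * I_mul_I
      rw [this]
      have h2 : exp ((2 * π * I * ((n : ℂ) - k)) * u) =
          exp (2 * π * I * ((-((k : ℤ) + 1) : ℤ) : ℂ) * u / ((1 : ℝ) - 0 : ℝ)) *
            exp (2 * π * I * ((n : ℂ) + 1) * u) := by
        rw [← exp_add]
        congr 1
        push_cast
        ring
      rw [h2]
      ring
    rw [intervalIntegral.integral_congr (fun u _ => e1 u), intervalIntegral.integral_const_mul]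
    split_ifs with hnk
    · subst hnk
      have : ∀ u : ℝ, exp ((2 * π * I * ((n : ℂ) - n)) * u) = 1 := by
        intro u
        rw [sub_self, mul_zero, zero_mul, exp_zero]
      rw [intervalIntegral.integral_congr (fun u _ => this u)]
      simp
    · have hc : (2 * π * I * ((n : ℂ) - k)) ≠ 0 := by
        refine mul_ne_zero two_pi_I_ne_zero ?_
        rw [sub_ne_zero]
        exact_mod_cast hnk
      rw [integral_exp_mul_complex hc]
      have : exp ((2 * π * I * ((n : ℂ) - k)) * (1 : ℝ)) = 1 := by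
        rw [exp_eq_one_iff]
        refine ⟨(n : ℤ) - k, ?_⟩
        push_cast
        ring
      rw [this]
      simp
  have hsum := intervalIntegral.hasSum_integral_of_dominated_convergence
    (μ := volume) (a := (0 : ℝ)) (b := 1)
    (F := fun (n : ℕ) (u : ℝ) => (fourier (-((k : ℤ) + 1)) (u : AddCircle ((1 : ℝ) - 0)) : ℂ) •
      (a (n + 1) * exp (2 * π * ((n : ℂ) + 1) * (u + t * I) * I)))
    (f := fun u : ℝ => (fourier (-((k : ℤ) + 1)) (u : AddCircle ((1 : ℝ) - 0)) : ℂ) •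
      (∑' n : ℕ, a (n + 1) * exp (2 * π * ((n : ℂ) + 1) * (u + t * I) * I)))
    (bound := fun (n : ℕ) (_ : ℝ) => ‖a (n + 1)‖ * Real.exp (-(2 * π * t * ((n : ℝ) + 1))))
    (fun n => by
      refine Continuous.aestronglyMeasurable ?_
      have c1 : Continuous fun u : ℝ =>
          (fourier (-((k : ℤ) + 1)) (u : AddCircle ((1 : ℝ) - 0)) : ℂ) :=
        (map_continuous (fourier (-((k : ℤ) + 1)))).comp (AddCircle.continuous_mk' _)
      have c2 : Continuous fun u : ℝ =>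
          a (n + 1) * exp (2 * π * ((n : ℂ) + 1) * (u + t * I) * I) := by fun_prop
      exact c1.smul c2)
    (fun n => Filter.Eventually.of_forall fun u _ => by
      rw [norm_smul, hnorm]
      have : ‖(fourier (-((k : ℤ) + 1)) (u : AddCircle ((1 : ℝ) - 0)) : ℂ)‖ = 1 := by
        rw [fourier_apply]
        exact Circle.norm_coe _
      rw [this, one_mul])
    (Filter.Eventually.of_forall fun u _ => H07_summ hbd ht)
    intervalIntegrable_const
    (Filter.Eventually.of_forall fun u _ => by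
      refine HasSum.const_smul _ (Summable.hasSum ?_)
      refine Summable.of_norm ?_
      simp_rw [hnorm]
      exact H07_summ hbd ht)
  have h5 := hsum.tsum_eq
  rw [← h5]
  rw [tsum_congr hterm, tsum_ite_eq]

theorem H07_cont {a : ℕ → ℂ} (hbd : ∀ n : ℕ, 0 < n → ‖a n‖ ≤ (n.divisors.card : ℝ)) {t : ℝ}
    (ht : 0 < t) : Continuous fun u : ℝ =>
      ∑' n : ℕ, a (n + 1) * exp (2 * π * ((n : ℂ) + 1) * (u + t * I) * I) := by
  refine continuous_tsum (u := fun n => ‖a (n + 1)‖ * Real.exp (-(2 * π * t * ((n : ℝ) + 1))))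
    (fun n => by fun_prop) (H07_summ hbd ht) (fun n u => ?_)
  rw [norm_mul, norm_exp]
  refine le_of_eq ?_
  congr 2
  have : (2 * π * ((n : ℂ) + 1) * (u + t * I) * I : ℂ) =
      ((-(2 * π * t * ((n : ℝ) + 1)) : ℝ) : ℂ) + ((2 * π * ((n : ℝ) + 1) * u : ℝ) : ℂ) * I := by
    push_cast
    linear_combination (2 * π * ((n : ℂ) + 1) * t) * I_mul_I
  rw [this]
  simp

theorem H07_par {a : ℕ → ℂ} (hbd : ∀ n : ℕ, 0 < n → ‖a n‖ ≤ (n.divisors.card : ℝ)) {C : ℝ}
    (hC : ∀ x y : ℝ, 0 < y →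
      ‖∑' n : ℕ, a (n + 1) * exp (2 * π * ((n : ℂ) + 1) * (x + y * I) * I)‖ ≤ C / √y)
    {t : ℝ} (ht : 0 < t) (M : ℕ) :
    ∑ n ∈ Finset.range M, ‖a (n + 1)‖ ^ 2 * Real.exp (-(4 * π * t * ((n : ℝ) + 1))) ≤ C ^ 2 / t := by
  set F : ℝ → ℂ := fun u =>
    ∑' n : ℕ, a (n + 1) * exp (2 * π * ((n : ℂ) + 1) * (u + t * I) * I) with hF
  have hb : ∀ u, ‖F u‖ ≤ C / √t := fun u => hC u t ht
  have hcont : Continuous F := H07_cont hbd ht
  have hL2 : MemLp F 2 (volume.restrict (Ioc (0 : ℝ) 1)) := by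
    refine MemLp.of_bound hcont.aestronglyMeasurable (C / √t) ?_
    exact Filter.Eventually.of_forall hb
  have hpar := hasSum_sq_fourierCoeffOn (zero_lt_one' ℝ) hL2
  have hint : ((1 : ℝ) - 0)⁻¹ • ∫ x in (0 : ℝ)..1, ‖F x‖ ^ 2 ≤ C ^ 2 / t := by
    rw [sub_zero, inv_one, one_smul]
    have h1 : ∫ x in (0 : ℝ)..1, ‖F x‖ ^ 2 ≤ ∫ x in (0 : ℝ)..1, C ^ 2 / t := by
      refine intervalIntegral.integral_mono_on zero_le_one ?_ ?_ ?_
      · exact (hcont.norm.pow 2).intervalIntegrable _ _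
      · exact intervalIntegrable_const
      · intro x _
        have h2 := pow_le_pow_left₀ (norm_nonneg _) (hb x) 2
        rwa [div_pow, Real.sq_sqrt ht.le] at h2
    simpa using h1
  have hco : ∀ n : ℕ, ‖fourierCoeffOn (zero_lt_one' ℝ) F ((n : ℤ) + 1)‖ ^ 2 =
      ‖a (n + 1)‖ ^ 2 * Real.exp (-(4 * π * t * ((n : ℝ) + 1))) := by
    intro n
    rw [hF, H07_coe hbd ht n, norm_mul, mul_pow, norm_exp]
    have hre : (-(2 * π * t * ((n : ℂ) + 1)) : ℂ).re = -(2 * π * t * ((n : ℝ) + 1)) := by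
      have : (-(2 * π * t * ((n : ℂ) + 1)) : ℂ) = ((-(2 * π * t * ((n : ℝ) + 1)) : ℝ) : ℂ) := by
        push_cast
        ring
      rw [this, ofReal_re]
    rw [hre, ← Real.exp_nat_mul]
    congr 2
    push_cast
    ring
  calc ∑ n ∈ Finset.range M, ‖a (n + 1)‖ ^ 2 * Real.exp (-(4 * π * t * ((n : ℝ) + 1)))
      = ∑ n ∈ Finset.range M, ‖fourierCoeffOn (zero_lt_one' ℝ) F ((n : ℤ) + 1)‖ ^ 2 := by
        refine Finset.sum_congr rfl fun n _ => (hco n).symm
    _ = ∑ i ∈ (Finset.range M).image (fun n : ℕ => (n : ℤ) + 1),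
          ‖fourierCoeffOn (zero_lt_one' ℝ) F i‖ ^ 2 := by
        rw [Finset.sum_image]
        intro a _ b _ h
        simpa using h
    _ ≤ _ := (sum_le_hasSum _ (fun _ _ => by positivity) hpar).trans hint

/-- Row H07. Mean square from the pointwise bound (Parseval on a horizontal line). -/
theorem ms_of_pt {a : ℕ → ℂ} (hbd : ∀ n : ℕ, 0 < n → ‖a n‖ ≤ (n.divisors.card : ℝ))
    (hpt : ∃ C : ℝ, 0 ≤ C ∧ ∀ x y : ℝ, 0 < y →
      ‖∑' n : ℕ, a (n + 1) * exp (2 * π * ((n : ℂ) + 1) * (x + y * I) * I)‖ ≤ C / √y) :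
    ∃ C : ℝ, 0 ≤ C ∧ ∀ x : ℝ, 0 < x →
      ∑' n : ℕ, ‖a (n + 1)‖ ^ 2 * Real.exp (-(x * ((n : ℝ) + 1))) ≤ C / x := by
  obtain ⟨C, hC0, hC⟩ := hpt
  refine ⟨4 * π * C ^ 2, by positivity, fun x hx => ?_⟩
  have ht : 0 < x / (4 * π) := by positivity
  apply Real.tsum_le_of_sum_range_le (fun n => by positivity)
  intro M
  have h := H07_par hbd hC ht M
  have e : 4 * π * (x / (4 * π)) = x := by field_simp
  rw [e] at h
  refine h.trans (le_of_eq ?_)
  field_simp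

end HC
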