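import Mathlib
import Pool.Agent.Lib.MP_0f5a55_nt.NH.D
open Complex MeasureTheory Set Filter Topology
open scoped Real ComplexConjugate NumberField

namespace HC

theorem H08_div {σ : ℝ} (hσ : 1 < σ) :
    Summable (fun n : ℕ => ((n + 1).divisors.card : ℝ) / ((n : ℝ) + 1) ^ σ) := by
  have hs : 1 < ((σ : ℝ) : ℂ).re := by rwa [ofReal_re]
  have h0 : LSeriesSummable (fun n => ((ArithmeticFunction.zeta : ArithmeticFunction ℂ) n)) (σ : ℂ) :=
    ArithmeticFunction.LSeriesSummable_zeta_iff.mpr hs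
  have h1 := ArithmeticFunction.LSeriesSummable_mul h0 h0
  have h2 := (summable_nat_add_iff 1).mpr h1.norm
  refine h2.congr fun n => ?_
  rw [LSeries.norm_term_eq, if_neg (Nat.succ_ne_zero n), ArithmeticFunction.coe_zeta_mul_apply, ofReal_re]
  have h3 : (∑ i ∈ (n + 1).divisors, (ArithmeticFunction.zeta : ArithmeticFunction ℂ) i) =
      (((n + 1).divisors.card : ℕ) : ℂ) := by
    rw [Finset.card_eq_sum_ones, Nat.cast_sum]
    refine Finset.sum_congr rfl fun i hi => ?_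
    have h4 : i ≠ 0 := (Nat.pos_of_mem_divisors hi).ne'
    simp [h4]
  rw [h3, Complex.norm_natCast]
  push_cast
  rfl

theorem H08_a {a : ℕ → ℂ} (hbd : ∀ n : ℕ, 0 < n → ‖a n‖ ≤ (n.divisors.card : ℝ)) (n : ℕ) :
    ‖a (n + 1)‖ ≤ (n : ℝ) + 1 := by
  refine (hbd (n + 1) (Nat.succ_pos n)).trans ?_
  have h1 := Nat.card_divisors_le_self (n + 1)
  have h2 : (((n + 1).divisors.card : ℕ) : ℝ) ≤ ((n + 1 : ℕ) : ℝ) := by exact_mod_cast h1
  push_cast at h2
  exact h2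

theorem H08_term (N n : ℕ) (z : ℂ) : ‖exp (-(2 * π * ((n : ℂ) + 1) * z / ((√N : ℝ) : ℂ)))‖ =
    Real.exp (-(2 * π / √N * z.re * ((n : ℝ) + 1))) := by
  have h1 : (-(2 * π * ((n : ℂ) + 1) * z / ((√N : ℝ) : ℂ)) : ℂ) =
      ((-(2 * π / √N * ((n : ℝ) + 1)) : ℝ) : ℂ) * z := by
    push_cast
    ring
  rw [h1, Complex.norm_exp, Complex.re_ofReal_mul]
  congr 1
  ring

theorem H08_summ {a : ℕ → ℂ} (hbd : ∀ n : ℕ, 0 < n → ‖a n‖ ≤ (n.divisors.card : ℝ)) {x : ℝ} (hx : 0 < x) :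
    Summable (fun n : ℕ => ‖a (n + 1)‖ * Real.exp (-(x * ((n : ℝ) + 1)))) := by
  have h1 := (summable_nat_add_iff 1).mpr (Real.summable_pow_mul_exp_neg_nat_mul 1 hx)
  refine Summable.of_nonneg_of_le (fun n => by positivity) (fun n => ?_) h1
  rw [pow_one]
  push_cast
  rw [neg_mul]
  exact mul_le_mul_of_nonneg_right (H08_a hbd n) (Real.exp_pos _).le

theorem H08_hasSum {N : ℕ} (hN : 0 < N) {a : ℕ → ℂ} (hbd : ∀ n : ℕ, 0 < n → ‖a n‖ ≤ (n.divisors.card : ℝ))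
    {z : ℂ} (hz : 0 < z.re) :
    Summable (fun n : ℕ => ‖a (n + 1) * exp (-(2 * π * ((n : ℂ) + 1) * z / ((√N : ℝ) : ℂ)))‖) := by
  have hN' : 0 < √(N : ℝ) := Real.sqrt_pos.2 (by exact_mod_cast hN)
  have hx : 0 < 2 * π / √N * z.re := by
    have := Real.pi_pos
    positivity
  refine (H08_summ hbd hx).congr fun n => ?_
  rw [norm_mul, H08_term]

theorem H08_diff {N : ℕ} (hN : 0 < N) {a : ℕ → ℂ} (hbd : ∀ n : ℕ, 0 < n → ‖a n‖ ≤ (n.divisors.card : ℝ))
    {z : ℂ} (hz : 0 < z.re) : DifferentiableAt ℂ (NH.FF N a) z := by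
  have hN' : 0 < √(N : ℝ) := Real.sqrt_pos.2 (by exact_mod_cast hN)
  have hpi := Real.pi_pos
  have hU : IsOpen {w : ℂ | z.re / 2 < w.re} := isOpen_lt continuous_const continuous_re
  have hx : 0 < 2 * π / √N * (z.re / 2) := by positivity
  have key : DifferentiableOn ℂ (fun w : ℂ => ∑' n : ℕ, a (n + 1) *
      exp (-(2 * π * ((n : ℂ) + 1) * w / ((√N : ℝ) : ℂ)))) {w : ℂ | z.re / 2 < w.re} := by
    refine differentiableOn_tsum_of_summable_norm (H08_summ hbd hx) (fun n => ?_) hU (fun n w hw => ?_)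
    · refine Differentiable.differentiableOn ?_
      fun_prop
    · rw [norm_mul, H08_term]
      refine mul_le_mul_of_nonneg_left (Real.exp_le_exp.2 ?_) (norm_nonneg _)
      have h1 : z.re / 2 < w.re := hw
      have h2 : 0 < 2 * π / √N * ((n : ℝ) + 1) := by positivity
      nlinarith [mul_lt_mul_of_pos_left h1 h2]
  have hz2 : z ∈ {w : ℂ | z.re / 2 < w.re} := by
    change z.re / 2 < z.re
    linarith
  exact key.differentiableAt (hU.mem_nhds hz2)

theorem H08_cont {N : ℕ} (hN : 0 < N) {a : ℕ → ℂ} (hbd : ∀ n : ℕ, 0 < n → ‖a n‖ ≤ (n.divisors.card : ℝ)) :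
    ContinuousOn (fun y : ℝ => NH.FF N a (y : ℂ)) (Ioi 0) := by
  intro y hy
  have hy0 : 0 < ((y : ℝ) : ℂ).re := by
    rw [ofReal_re]
    exact hy
  have h2 : ContinuousAt (NH.FF N a) ((y : ℝ) : ℂ) := (H08_diff hN hbd hy0).continuousAt
  have h3 : ContinuousAt (fun y : ℝ => (y : ℂ)) y := continuous_ofReal.continuousAt
  exact (ContinuousAt.comp (f := fun y : ℝ => (y : ℂ)) (g := NH.FF N a) h2 h3).continuousWithinAt

theorem H08_top {N : ℕ} (hN : 0 < N) {a : ℕ → ℂ} (hbd : ∀ n : ℕ, 0 < n → ‖a n‖ ≤ (n.divisors.card : ℝ)) (r : ℝ) :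
    (fun y : ℝ => NH.FF N a (y : ℂ)) =O[atTop] (fun y : ℝ => y ^ r) := by
  have hN' : 0 < √(N : ℝ) := Real.sqrt_pos.2 (by exact_mod_cast hN)
  have hpi := Real.pi_pos
  obtain ⟨k, hk⟩ : ∃ k : ℝ, k = 2 * π / √N := ⟨_, rfl⟩
  have hk0 : 0 < k := by
    rw [hk]
    positivity
  obtain ⟨C, hC⟩ : ∃ C : ℝ, C = ∑' n : ℕ, ‖a (n + 1)‖ * Real.exp (-(k / 2 * ((n : ℝ) + 1))) := ⟨_, rfl⟩
  have h2 : (fun y : ℝ => NH.FF N a (y : ℂ)) =O[atTop] (fun y : ℝ => Real.exp (-(k / 2) * y)) := by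
    refine Asymptotics.IsBigO.of_bound C ?_
    filter_upwards [eventually_ge_atTop (1 : ℝ)] with y hy
    have hy0 : 0 < y := by linarith
    have hyre : 0 < ((y : ℝ) : ℂ).re := by
      rw [ofReal_re]
      exact hy0
    have h3 : ‖NH.FF N a (y : ℂ)‖ ≤
        ∑' n : ℕ, ‖a (n + 1) * exp (-(2 * π * ((n : ℂ) + 1) * (y : ℂ) / ((√N : ℝ) : ℂ)))‖ := by
      unfold NH.FF
      exact norm_tsum_le_tsum_norm (H08_hasSum hN hbd hyre)
    refine h3.trans ?_
    rw [Real.norm_of_nonneg (Real.exp_pos _).le, hC, ← tsum_mul_right]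
    refine (H08_hasSum hN hbd hyre).tsum_le_tsum (fun n => ?_) ((H08_summ hbd (half_pos hk0)).mul_right _)
    rw [norm_mul, H08_term, ofReal_re, ← hk, mul_assoc (‖a (n + 1)‖) (Real.exp _) (Real.exp _), ← Real.exp_add]
    refine mul_le_mul_of_nonneg_left (Real.exp_le_exp.2 ?_) (norm_nonneg _)
    have h4 : (0 : ℝ) ≤ n := Nat.cast_nonneg n
    have h5 : 0 ≤ (y - 1) * n := mul_nonneg (by linarith) h4
    have h6 : 0 ≤ y * n := by positivity
    have h7 : ((n : ℝ) + 1) + y ≤ 2 * y * ((n : ℝ) + 1) := by nlinarith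
    have h8 := mul_le_mul_of_nonneg_left h7 (half_pos hk0).le
    nlinarith
  exact h2.trans (isLittleO_exp_neg_mul_rpow_atTop (half_pos hk0) _).isBigO

theorem H08_alg {k : ℝ} (hk0 : 0 < k) {s : ℂ} (hs0 : 0 < s.re) (i : ℕ) (b : ℂ) :
    b * ((i : ℂ) + 1) ^ (-s) = (k : ℂ) ^ s * (Gamma s)⁻¹ *
      (Gamma s * b / ((k * ((i : ℝ) + 1) : ℝ) : ℂ) ^ s) := by
  have hG : Gamma s ≠ 0 := Gamma_ne_zero_of_re_pos hs0
  have hks : (k : ℂ) ^ s ≠ 0 := by
    rw [Ne, cpow_eq_zero_iff]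
    intro h
    exact ofReal_ne_zero.2 hk0.ne' h.1
  have hi : ((i : ℂ) + 1) ^ s ≠ 0 := by
    rw [Ne, cpow_eq_zero_iff]
    intro h
    have h2 : ((i : ℂ) + 1) ≠ 0 := by exact_mod_cast Nat.succ_ne_zero i
    exact h2 h.1
  have e1 : ((k * ((i : ℝ) + 1) : ℝ) : ℂ) ^ s = (k : ℂ) ^ s * ((i : ℂ) + 1) ^ s := by
    have := mul_cpow_ofReal_nonneg hk0.le (by positivity : (0 : ℝ) ≤ (i : ℝ) + 1) s
    rw [ofReal_mul, this]
    push_cast
    rfl
  rw [e1, cpow_neg]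
  field_simp

/-- Row H08. The entire L-function (Mellin transform of FF). -/
theorem exists_L {N : ℕ} (hN : 0 < N) {a : ℕ → ℂ} (hbd : ∀ n : ℕ, 0 < n → ‖a n‖ ≤ (n.divisors.card : ℝ))
    (hfe : ∃ c : ℂ, ‖c‖ = 1 ∧ ∀ z : ℂ, 0 < z.re → NH.FF N a (1 / z) = c * z * conj (NH.FF N a (conj z))) :
    ∃ L : ℂ → ℂ, Differentiable ℂ L ∧ ∀ s : ℂ, 1 < s.re →
      HasSum (fun n : ℕ => a (n + 1) * ((n : ℂ) + 1) ^ (-s)) (L s) := by
  obtain ⟨c, hc, hfe⟩ := hfe
  have hN' : 0 < √(N : ℝ) := Real.sqrt_pos.2 (by exact_mod_cast hN)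
  have hpi := Real.pi_pos
  obtain ⟨k, hk⟩ : ∃ k : ℝ, k = 2 * π / √N := ⟨_, rfl⟩
  have hk0 : 0 < k := by
    rw [hk]
    positivity
  have hcont := H08_cont hN hbd
  have hf_int : LocallyIntegrableOn (fun y : ℝ => NH.FF N a (y : ℂ)) (Ioi 0) :=
    hcont.locallyIntegrableOn measurableSet_Ioi
  have hg_int : LocallyIntegrableOn (fun y : ℝ => conj (NH.FF N a (y : ℂ))) (Ioi 0) := by
    refine ContinuousOn.locallyIntegrableOn ?_ measurableSet_Ioi
    exact Complex.continuous_conj.comp_continuousOn hcont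
  let P : WeakFEPair ℂ :=
    { f := fun y : ℝ => NH.FF N a (y : ℂ)
      g := fun y : ℝ => conj (NH.FF N a (y : ℂ))
      k := 1
      ε := c
      f₀ := 0
      g₀ := 0
      hf_int := hf_int
      hg_int := hg_int
      hk := one_pos
      hε := by
        intro h
        rw [h, norm_zero] at hc
        exact zero_ne_one hc
      h_feq := by
        intro x hx
        have hx0 : 0 < ((x : ℝ) : ℂ).re := by
          rw [ofReal_re]
          exact hx
        have h1 := hfe (x : ℂ) hx0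
        rw [conj_ofReal] at h1
        rw [Real.rpow_one, smul_eq_mul, ← h1]
        push_cast
        rfl
      hf_top := by
        intro r
        simpa using H08_top hN hbd r
      hg_top := by
        intro r
        have h1 := H08_top hN hbd r
        rw [← Asymptotics.isBigO_norm_left] at h1 ⊢
        refine h1.congr_left fun y => ?_
        rw [sub_zero, RCLike.norm_conj] }
  have hP : IsStrongFEPair P := ⟨rfl, rfl⟩
  obtain ⟨Λ, hΛ⟩ : ∃ Λ : ℂ → ℂ, Λ = P.Λ := ⟨_, rfl⟩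
  have hΛd : Differentiable ℂ Λ := by
    rw [hΛ]
    exact hP.differentiable_Λ
  have hΛm : ∀ s, mellin (fun y : ℝ => NH.FF N a (y : ℂ)) s = Λ s := by
    intro s
    rw [hΛ]
    exact (hP.hasMellin s).2
  refine ⟨fun s => (k : ℂ) ^ s * (Gamma s)⁻¹ * Λ s, ?_, ?_⟩
  · have hkc : (k : ℂ) ≠ 0 := ofReal_ne_zero.2 hk0.ne'
    have h1 : Differentiable ℂ (fun s : ℂ => (k : ℂ) ^ s) := by
      intro s
      exact DifferentiableAt.const_cpow differentiableAt_id (Or.inl hkc)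
    exact (h1.mul differentiable_one_div_Gamma).mul hΛd
  · intro s hs
    have hs0 : 0 < s.re := by linarith
    have hp : ∀ i : ℕ, a (i + 1) = 0 ∨ 0 < k * ((i : ℝ) + 1) := fun i => Or.inr (by positivity)
    have hF : ∀ t ∈ Ioi (0 : ℝ), HasSum (fun i : ℕ => a (i + 1) * ((Real.exp (-(k * ((i : ℝ) + 1)) * t) : ℝ) : ℂ))
        (NH.FF N a (t : ℂ)) := by
      intro t ht
      have hyre : 0 < ((t : ℝ) : ℂ).re := by
        rw [ofReal_re]
        exact ht
      have h1 := (H08_hasSum hN hbd hyre).of_norm.hasSum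
      have h2 : (fun i : ℕ => a (i + 1) * ((Real.exp (-(k * ((i : ℝ) + 1)) * t) : ℝ) : ℂ)) =
          fun n : ℕ => a (n + 1) * exp (-(2 * π * ((n : ℂ) + 1) * (t : ℂ) / ((√N : ℝ) : ℂ))) := by
        funext i
        rw [ofReal_exp]
        congr 2
        rw [hk]
        push_cast
        ring
      rw [h2]
      exact h1
    have h_sum : Summable fun i : ℕ => ‖a (i + 1)‖ / (k * ((i : ℝ) + 1)) ^ s.re := by
      have h1 := (H08_div hs).mul_left (k ^ s.re)⁻¹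
      refine Summable.of_nonneg_of_le (fun n => by positivity) (fun n => ?_) h1
      rw [Real.mul_rpow hk0.le (by positivity), div_eq_mul_inv, mul_inv, ← mul_assoc, mul_comm (‖a (n + 1)‖),
        mul_assoc, ← div_eq_mul_inv (‖a (n + 1)‖)]
      refine mul_le_mul_of_nonneg_left ?_ (by positivity)
      exact div_le_div_of_nonneg_right (hbd (n + 1) (Nat.succ_pos n)) (by positivity)
    have h1 := hasSum_mellin hp hs0 hF h_sum
    rw [hΛm] at h1
    have h2 := h1.mul_left ((k : ℂ) ^ s * (Gamma s)⁻¹)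
    have h3 : (fun n : ℕ => a (n + 1) * ((n : ℂ) + 1) ^ (-s)) = fun i : ℕ => (k : ℂ) ^ s * (Gamma s)⁻¹ *
        (Gamma s * a (i + 1) / ((k * ((i : ℝ) + 1) : ℝ) : ℂ) ^ s) := by
      funext i
      exact H08_alg hk0 hs0 i (a (i + 1))
    rw [h3]
    exact h2

end HC
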