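import Mathlib
import Pool.Agent.Lib.MP_0f5a55_nt.HC.D
open Complex MeasureTheory Set Filter Topology
open scoped Real ComplexConjugate NumberField

namespace HC

variable {K : Type*} [Field K] [NumberField K]


/-- the additive character as a function on `ZMod q` -/
noncomputable def H21_E (q : ℕ) (a : ZMod q) : ℂ := ee ((a.val : ℂ) / q)

private theorem H21_ee {q : ℕ} (hq : 0 < q) (n : ℤ) :
    ee ((n : ℂ) / q) = H21_E q ((n : ℤ) : ZMod q) := by
  have : NeZero q := ⟨hq.ne'⟩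
  have hq' : (q : ℂ) ≠ 0 := by exact_mod_cast hq.ne'
  have h1 : (((n : ZMod q).val : ℕ) : ℤ) = n % q := ZMod.val_intCast n
  have h2 : n = (((n : ZMod q).val : ℕ) : ℤ) + q * (n / q) := by
    rw [h1]; exact (Int.emod_add_mul_ediv n q).symm
  have h3 : ((n : ℂ)) / q = (((n : ZMod q).val : ℕ) : ℂ) / q + ((n / q : ℤ) : ℂ) := by
    have : (n : ℂ) = (((n : ZMod q).val : ℕ) : ℂ) + q * ((n / q : ℤ) : ℂ) := by
      exact_mod_cast h2
    rw [this]
    field_simp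
  rw [H21_E, h3, ee, ee, mul_add, exp_add]
  have h4 : exp (2 * π * I * ((n / q : ℤ) : ℂ)) = 1 := by
    rw [mul_comm]
    exact exp_int_mul_two_pi_mul_I _
  rw [h4, mul_one]

private theorem H21_sum {q : ℕ} (h : ZMod q → ZMod q → ℂ) [NeZero q] :
    ∑ x ∈ Finset.range q, ∑ y ∈ Finset.range q, h (x : ZMod q) (y : ZMod q) =
      ∑ v : ZMod q × ZMod q, h v.1 v.2 := by
  have key : ∀ g : ZMod q → ℂ, ∑ x ∈ Finset.range q, g (x : ZMod q) = ∑ a : ZMod q, g a := by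
    intro g
    refine Finset.sum_bij' (fun x _ => (x : ZMod q)) (fun a _ => a.val) (fun _ _ => Finset.mem_univ _)
      (fun a _ => Finset.mem_range.2 (ZMod.val_lt a)) ?_ ?_ (fun _ _ => rfl)
    · intro x hx
      exact ZMod.val_cast_of_lt (Finset.mem_range.1 hx)
    · intro a _
      exact ZMod.natCast_zmod_val a
  rw [Fintype.sum_prod_type, ← key (fun a => ∑ b, h a b)]
  exact Finset.sum_congr rfl fun x _ => key (h x)

private theorem H21_G {q : ℕ} (hq : 0 < q) [NeZero q] (F : Fm) (u : ℤ) :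
    F.G u q 0 = ∑ v : ZMod q × ZMod q, H21_E q ((u : ZMod q) *
      ((F.A : ZMod q) * v.1 ^ 2 + (F.B : ZMod q) * v.1 * v.2 + (F.C : ZMod q) * v.2 ^ 2)) := by
  rw [← H21_sum (fun x y => H21_E q ((u : ZMod q) *
      ((F.A : ZMod q) * x ^ 2 + (F.B : ZMod q) * x * y + (F.C : ZMod q) * y ^ 2)))]
  unfold Fm.G
  refine Finset.sum_congr rfl fun x _ => Finset.sum_congr rfl fun y _ => ?_
  rw [H21_ee hq]
  congr 1
  simp only [Prod.fst_zero, Prod.snd_zero, mul_zero, add_zero, Fm.val]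
  push_cast
  ring

private theorem H21_change {q : ℕ} (hq : 0 < q) {F F' : Fm} {p r s t nb : ℤ}
    (hdet : IsUnit ((p * t - r * s : ℤ) : ZMod q))
    (hval : ∀ x y : ℤ, F.val (p * x + r * y, s * x + t * y) = nb * F'.val (x, y)) (u : ℤ) :
    F.G u q 0 = F'.G (u * nb) q 0 := by
  have : NeZero q := ⟨hq.ne'⟩
  rw [H21_G hq, H21_G hq]
  have hinj : Function.Injective (fun v : ZMod q × ZMod q =>
      (((p : ZMod q) * v.1 + r * v.2, (s : ZMod q) * v.1 + t * v.2) : ZMod q × ZMod q)) := by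
    intro v w h
    simp only [Prod.mk.injEq] at h
    obtain ⟨h1, h2⟩ := h
    push_cast at hdet
    have e1 : ((p : ZMod q) * t - r * s) * v.1 = (p * t - r * s) * w.1 := by
      linear_combination (t : ZMod q) * h1 - (r : ZMod q) * h2
    have e2 : ((p : ZMod q) * t - r * s) * v.2 = (p * t - r * s) * w.2 := by
      linear_combination (p : ZMod q) * h2 - (s : ZMod q) * h1
    exact Prod.ext (hdet.mul_left_cancel e1) (hdet.mul_left_cancel e2)
  have hbij := Finite.injective_iff_bijective.1 hinj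
  rw [← hbij.sum_comp (fun v : ZMod q × ZMod q => H21_E q ((u : ZMod q) *
      ((F.A : ZMod q) * v.1 ^ 2 + (F.B : ZMod q) * v.1 * v.2 + (F.C : ZMod q) * v.2 ^ 2)))]
  refine Finset.sum_congr rfl fun v _ => ?_
  congr 1
  -- the polynomial identity
  have hv := hval 1 0
  have hw := hval 0 1
  have hvw := hval 1 1
  simp only [Fm.val] at hv hw hvw
  have c1 : F.A * p ^ 2 + F.B * p * s + F.C * s ^ 2 = nb * F'.A := by linear_combination hv
  have c2 : F.A * r ^ 2 + F.B * r * t + F.C * t ^ 2 = nb * F'.C := by linear_combination hw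
  have c3 : 2 * F.A * p * r + F.B * (p * t + r * s) + 2 * F.C * s * t = nb * F'.B := by
    linear_combination hvw - hv - hw
  have d1 := congrArg (Int.cast : ℤ → ZMod q) c1
  have d2 := congrArg (Int.cast : ℤ → ZMod q) c2
  have d3 := congrArg (Int.cast : ℤ → ZMod q) c3
  push_cast at d1 d2 d3 ⊢
  linear_combination (u : ZMod q) * (v.1 ^ 2 * d1 + v.2 ^ 2 * d2 + v.1 * v.2 * d3)

private theorem H21_det {F F' : Fm} {N : ℕ} (hP : F.Pos N) (hP' : F'.Pos N) {p r s t nb : ℤ}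
    (hval : ∀ x y : ℤ, F.val (p * x + r * y, s * x + t * y) = nb * F'.val (x, y)) :
    (p * t - r * s) ^ 2 = nb ^ 2 := by
  have hv := hval 1 0
  have hw := hval 0 1
  have hvw := hval 1 1
  simp only [Fm.val] at hv hw hvw
  have c1 : F.A * p ^ 2 + F.B * p * s + F.C * s ^ 2 = nb * F'.A := by linear_combination hv
  have c2 : F.A * r ^ 2 + F.B * r * t + F.C * t ^ 2 = nb * F'.C := by linear_combination hw
  have c3 : 2 * F.A * p * r + F.B * (p * t + r * s) + 2 * F.C * s * t = nb * F'.B := by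
    linear_combination hvw - hv - hw
  obtain ⟨hN, -, hd⟩ := hP
  obtain ⟨-, -, hd'⟩ := hP'
  have hNz : (N : ℤ) ≠ 0 := by exact_mod_cast hN.ne'
  have h1 : (p * t - r * s) ^ 2 * (4 * F.A * F.C - F.B ^ 2) =
      4 * (F.A * p ^ 2 + F.B * p * s + F.C * s ^ 2) * (F.A * r ^ 2 + F.B * r * t + F.C * t ^ 2) -
        (2 * F.A * p * r + F.B * (p * t + r * s) + 2 * F.C * s * t) ^ 2 := by ring
  rw [c1, c2, c3, hd] at h1
  have h2 : 4 * (nb * F'.A) * (nb * F'.C) - (nb * F'.B) ^ 2 = nb ^ 2 * N := by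
    rw [← hd']; ring
  rw [h2] at h1
  exact mul_right_cancel₀ hNz h1

private theorem H21_valpos {F : Fm} {N : ℕ} (hP : F.Pos N) {x y : ℤ} (h : ¬ (x = 0 ∧ y = 0)) :
    0 < F.val (x, y) := by
  obtain ⟨hN, hA, hd⟩ := hP
  have hNz : (0 : ℤ) < N := by exact_mod_cast hN
  have h1 : 4 * F.A * F.val (x, y) = (2 * F.A * x + F.B * y) ^ 2 + N * y ^ 2 := by
    rw [← hd, Fm.val]; ring
  by_contra hneg
  push Not at hneg
  have h2 : 4 * F.A * F.val (x, y) ≤ 0 := mul_nonpos_of_nonneg_of_nonpos (by positivity) hneg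
  have h3 : 0 ≤ (N : ℤ) * y ^ 2 := by positivity
  have h4 : 0 ≤ (2 * F.A * x + F.B * y) ^ 2 := sq_nonneg _
  have h5 : (N : ℤ) * y ^ 2 = 0 := by linarith
  have h6 : y = 0 := by
    rcases mul_eq_zero.1 h5 with h | h
    · exact absurd h hNz.ne'
    · exact pow_eq_zero_iff (two_ne_zero) |>.1 h
  have h7 : (2 * F.A * x + F.B * y) ^ 2 = 0 := by linarith
  have h8 : 2 * F.A * x + F.B * y = 0 := pow_eq_zero_iff (two_ne_zero) |>.1 h7
  rw [h6, mul_zero, add_zero] at h8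
  have h9 : x = 0 := by
    rcases mul_eq_zero.1 h8 with h | h
    · exact absurd h (by positivity)
    · exact h
  exact h ⟨h9, h6⟩

omit [NumberField K] in
private theorem H21_ord_mul {f : ℕ} {x y : 𝓞 K} (hx : Ord f x) (hy : Ord f y) : Ord f (x * y) := by
  obtain ⟨m, hm⟩ := hx
  obtain ⟨n, hn⟩ := hy
  refine ⟨m * n, ?_⟩
  have : x * y - ((m * n : ℤ) : 𝓞 K) = (x - m) * y + m * (y - n) := by push_cast; ring
  rw [this]
  exact dvd_add (hm.mul_right y) (hn.mul_left _)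

private theorem H21_normpos {f : ℕ} {a : Ideal (𝓞 K)} (ha : Cop f a) {F : Fm} (hF : FormOf f a F)
    {N : ℕ} (hP : F.Pos N) {γ : 𝓞 K} (hγ : Ord f γ) (hγ0 : γ ≠ 0) : 0 < Algebra.norm ℤ γ := by
  obtain ⟨v₁, v₂, hv, hn⟩ := hF
  have ha0 : (0 : ℤ) < Ideal.absNorm a := by
    have : Ideal.absNorm a ≠ 0 := by
      rw [Ne, Ideal.absNorm_eq_zero_iff]
      exact ha.1
    exact_mod_cast Nat.pos_of_ne_zero this
  have h1 : 0 < Algebra.norm ℤ v₁ := by
    have := hn 1 0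
    simp only [Int.cast_one, one_mul, Int.cast_zero, zero_mul, add_zero] at this
    rw [this]
    exact mul_pos ha0 (H21_valpos hP (by simp))
  have hv1 : v₁ ∈ lat f a := (hv v₁).2 ⟨1, 0, by simp⟩
  have hv10 : v₁ ≠ 0 := by
    rintro rfl
    simp at h1
  have h2 : γ * v₁ ∈ lat f a := ⟨a.mul_mem_left _ hv1.1, H21_ord_mul hγ hv1.2⟩
  obtain ⟨x, y, hxy⟩ := (hv _).1 h2
  have h3 : ¬ (x = 0 ∧ y = 0) := by
    rintro ⟨rfl, rfl⟩
    simp only [Int.cast_zero, zero_mul, add_zero] at hxy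
    exact (mul_ne_zero hγ0 hv10) hxy
  have h4 : 0 < Algebra.norm ℤ (γ * v₁) := by
    rw [hxy, hn]
    exact mul_pos ha0 (H21_valpos hP h3)
  rw [map_mul] at h4
  exact (pos_iff_pos_of_mul_pos h4).2 h1

/-- an integer that is prime to `f` in `𝓞 K` is prime to `f` in `ℤ` -/
private theorem H21_coprime {f : ℕ} {m : ℤ} {s t : 𝓞 K} (h : (m : 𝓞 K) * s + (f : 𝓞 K) * t = 1) :
    IsCoprime m (f : ℤ) := by
  rw [Int.isCoprime_iff_gcd_eq_one]
  set d := Int.gcd m f with hd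
  obtain ⟨m', hm'⟩ := Int.gcd_dvd_left (a := m) (b := (f : ℤ))
  obtain ⟨f', hf'⟩ := Int.gcd_dvd_right (a := m) (b := (f : ℤ))
  have h1 : (d : 𝓞 K) * ((m' : 𝓞 K) * s + (f' : 𝓞 K) * t) = 1 := by
    have e1 : (m : 𝓞 K) = (d : 𝓞 K) * (m' : 𝓞 K) := by exact_mod_cast congrArg (Int.cast : ℤ → 𝓞 K) hm'
    have e2 : (f : 𝓞 K) = (d : 𝓞 K) * (f' : 𝓞 K) := by exact_mod_cast congrArg (Int.cast : ℤ → 𝓞 K) hf'
    rw [← h, e1, e2]
    ring
  have h2 : Algebra.norm ℤ ((d : 𝓞 K)) * Algebra.norm ℤ ((m' : 𝓞 K) * s + (f' : 𝓞 K) * t) = 1 := by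
    rw [← map_mul, h1, map_one]
  have h3 : Algebra.norm ℤ ((d : 𝓞 K)) = (d : ℤ) ^ Module.finrank ℤ (𝓞 K) := by
    have := Algebra.norm_algebraMap (R := ℤ) (S := 𝓞 K) (d : ℤ)
    simpa using this
  rw [h3] at h2
  have h4 : IsUnit ((d : ℤ) ^ Module.finrank ℤ (𝓞 K)) := IsUnit.of_mul_eq_one _ h2
  have h5 : Module.finrank ℤ (𝓞 K) ≠ 0 := by
    rw [NumberField.RingOfIntegers.rank]
    exact Module.finrank_pos.ne'
  have h6 : IsUnit (d : ℤ) := (isUnit_pow_iff h5).1 h4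
  have h7 := Int.isUnit_iff_natAbs_eq.1 h6
  simpa using h7

private theorem H21_ord_div {f : ℕ} {β y z : 𝓞 K} (hβ : Ord f β) (hβc : Cop f (Ideal.span {β}))
    (hz : Ord f z) (h : β * y = z) : Ord f y := by
  obtain ⟨m, k, hk⟩ := hβ
  obtain ⟨n, l, hl⟩ := hz
  obtain ⟨i, hi, j, hj, hij⟩ := Ideal.isCoprime_iff_exists.1 hβc.2
  obtain ⟨s, hs⟩ := Ideal.mem_span_singleton.1 hi
  obtain ⟨t, ht⟩ := Ideal.mem_span_singleton.1 hj
  have hβ' : β = m + f * k := by rw [← hk]; ring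
  have h1 : (m : 𝓞 K) * s + (f : 𝓞 K) * (k * s + t) = 1 := by
    rw [← hij, hs, ht, hβ']; ring
  obtain ⟨m', f', hmf⟩ := H21_coprime h1
  have hmf' : (m' : 𝓞 K) * m + (f' : 𝓞 K) * f = 1 := by
    exact_mod_cast congrArg (Int.cast : ℤ → 𝓞 K) hmf
  refine ⟨m' * n, m' * (l - k * y) + f' * y, ?_⟩
  have h2 : z = n + f * l := by rw [← hl]; ring
  have h3 : (m : 𝓞 K) * y = n + f * l - f * k * y := by
    rw [← h2, ← h, hβ']; ring
  push_cast
  linear_combination (-y) * hmf' + (m' : 𝓞 K) * h3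

/-- Row H21. Gauss sums of the forms of a and of a b, b prime to q. -/
theorem G_rel [NumberField.IsTotallyComplex K] (h2 : Module.finrank ℚ K = 2) {f : ℕ} (hf : 0 < f)
    {a a' b : Ideal (𝓞 K)} (ha : Cop f a) (ha' : Cop f a') (hb : Cop f b) (hE : Eqv f a' (a * b))
    {F F' : Fm} (hF : FormOf f a F) (hP : F.Pos (lev K f)) (hF' : FormOf f a' F') (hP' : F'.Pos (lev K f))
    {q : ℕ} (hq : 0 < q) (hbq : (Ideal.absNorm b).Coprime q) (u : ℤ) :
    F.G u q 0 = F'.G (u * (Ideal.absNorm b : ℤ)) q 0 := by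
  obtain ⟨α, β, hα, hβ, hαc, hβc, hαβ⟩ := hE
  have hα0 : α ≠ 0 := by
    rintro rfl
    exact hαc.1 (by simp)
  have hβ0 : β ≠ 0 := by
    rintro rfl
    exact hβc.1 (by simp)
  have hNα := H21_normpos ha hF hP hα hα0
  have hNβ := H21_normpos ha hF hP hβ hβ0
  -- the norms
  have hnorm : Algebra.norm ℤ α * (Ideal.absNorm a' : ℤ) =
      Algebra.norm ℤ β * ((Ideal.absNorm a : ℤ) * (Ideal.absNorm b : ℤ)) := by
    have h1 := congrArg Ideal.absNorm hαβ
    rw [map_mul, map_mul, map_mul, Ideal.absNorm_span_singleton, Ideal.absNorm_span_singleton] at h1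
    have h2 := congrArg (Nat.cast : ℕ → ℤ) h1
    push_cast at h2
    rwa [abs_of_pos hNα, abs_of_pos hNβ] at h2
  obtain ⟨v₁, v₂, hv, hn⟩ := hF
  obtain ⟨w₁, w₂, hw, hn'⟩ := hF'
  -- division
  have hdiv : ∀ x ∈ lat f a', ∃ y ∈ lat f a, β * y = α * x := by
    intro x hx
    have h1 : α * x ∈ Ideal.span {α} * a' := Ideal.mem_span_singleton_mul.2 ⟨x, hx.1, rfl⟩
    rw [hαβ] at h1
    obtain ⟨y, hy, hyx⟩ := Ideal.mem_span_singleton_mul.1 h1
    have hxo : Ord f x := hx.2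
    have hzo : Ord f (α * x) := H21_ord_mul hα hxo
    have hyo : Ord f y := H21_ord_div hβ hβc hzo hyx
    have hya : y ∈ a := (Ideal.mul_le_inf hy).1
    have hyl : y ∈ lat f a := ⟨hya, hyo⟩
    exact ⟨y, hyl, hyx⟩
  obtain ⟨y₁, hy₁, e₁⟩ := hdiv w₁ ((hw w₁).2 ⟨1, 0, by simp⟩)
  obtain ⟨y₂, hy₂, e₂⟩ := hdiv w₂ ((hw w₂).2 ⟨0, 1, by simp⟩)
  obtain ⟨p, s, hps⟩ := (hv y₁).1 hy₁
  obtain ⟨r, t, hrt⟩ := (hv y₂).1 hy₂
  have ha0 : (Ideal.absNorm a : ℤ) ≠ 0 := by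
    have : Ideal.absNorm a ≠ 0 := by
      rw [Ne, Ideal.absNorm_eq_zero_iff]
      exact ha.1
    exact_mod_cast this
  have hval : ∀ x y : ℤ, F.val (p * x + r * y, s * x + t * y) =
      (Ideal.absNorm b : ℤ) * F'.val (x, y) := by
    intro x y
    have h1 : β * (((p * x + r * y : ℤ) : 𝓞 K) * v₁ + ((s * x + t * y : ℤ) : 𝓞 K) * v₂) =
        α * ((x : 𝓞 K) * w₁ + (y : 𝓞 K) * w₂) := by
      have : ((p * x + r * y : ℤ) : 𝓞 K) * v₁ + ((s * x + t * y : ℤ) : 𝓞 K) * v₂ =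
          (x : 𝓞 K) * y₁ + (y : 𝓞 K) * y₂ := by
        rw [hps, hrt]; push_cast; ring
      rw [this]
      linear_combination (x : 𝓞 K) * e₁ + (y : 𝓞 K) * e₂
    have h3 := congrArg (Algebra.norm ℤ) h1
    rw [map_mul, map_mul, hn, hn'] at h3
    have h4 : (Algebra.norm ℤ β * (Ideal.absNorm a : ℤ)) * F.val (p * x + r * y, s * x + t * y) =
        (Algebra.norm ℤ β * (Ideal.absNorm a : ℤ)) *
          ((Ideal.absNorm b : ℤ) * F'.val (x, y)) := by
      linear_combination h3 + F'.val (x, y) * hnorm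
    exact mul_left_cancel₀ (mul_ne_zero hNβ.ne' ha0) h4
  have hdet := H21_det hP hP' hval
  refine H21_change hq (p := p) (r := r) (s := s) (t := t) ?_ hval u
  have h5 : IsUnit ((Ideal.absNorm b : ℕ) : ZMod q) := (ZMod.isUnit_iff_coprime _ _).2 hbq
  have h6 : (((p * t - r * s : ℤ)) : ZMod q) ^ 2 = ((Ideal.absNorm b : ℕ) : ZMod q) ^ 2 := by
    exact_mod_cast congrArg (Int.cast : ℤ → ZMod q) hdet
  refine (isUnit_pow_iff two_ne_zero).1 ?_
  rw [h6]
  exact h5.pow 2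

end HC
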