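import Mathlib
import Pool.Agent.Lib.MP_0f5a55_nt.HC.H17
open Complex MeasureTheory Set Filter Topology
open scoped Real ComplexConjugate NumberField

namespace HC

variable {K : Type*} [Field K] [NumberField K]

/-- the norm of an ideal prime to n is prime to n -/
theorem H22_norm {J : Ideal (𝓞 K)} (hJ : J ≠ ⊥) {n : ℕ}
    (h : IsCoprime J (Ideal.span {(n : 𝓞 K)})) : (Ideal.absNorm J).Coprime n := by
  rw [Nat.coprime_iff_gcd_eq_one]
  by_contra hg
  obtain ⟨p, hp, hpd⟩ := Nat.exists_prime_and_dvd hg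
  have hpJ : p ∣ Ideal.absNorm J := hpd.trans (Nat.gcd_dvd_left _ _)
  have hpn : p ∣ n := hpd.trans (Nat.gcd_dvd_right _ _)
  have : Fact p.Prime := ⟨hp⟩
  have : Finite (𝓞 K ⧸ J) := by
    rw [← Ideal.absNorm_ne_zero_iff, Ne, Ideal.absNorm_eq_zero_iff]
    exact hJ
  have hcard : p ∣ Nat.card (𝓞 K ⧸ J) := by
    rwa [Ideal.absNorm_apply, Submodule.cardQuot_apply] at hpJ
  obtain ⟨x, hx⟩ := exists_prime_addOrderOf_dvd_card' (G := 𝓞 K ⧸ J) p hcard
  have hpx : (p : 𝓞 K ⧸ J) * x = 0 := by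
    rw [← nsmul_eq_mul, ← hx]
    exact addOrderOf_nsmul_eq_zero x
  obtain ⟨i, hi, j, hj, hij⟩ := Ideal.isCoprime_iff_exists.1 h
  obtain ⟨r, hr⟩ := Ideal.mem_span_singleton'.1 hj
  obtain ⟨m, hm⟩ := hpn
  have h1 : (Ideal.Quotient.mk J r) * ((m : 𝓞 K ⧸ J) * (p : 𝓞 K ⧸ J)) = 1 := by
    have e1 : Ideal.Quotient.mk J (i + j) = 1 := by rw [hij, map_one]
    rw [map_add, Ideal.Quotient.eq_zero_iff_mem.2 hi, zero_add, ← hr, hm] at e1
    rw [← e1]
    simp only [map_mul, map_natCast, Nat.cast_mul]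
    ring
  have hx0 : x = 0 := by
    calc x = 1 * x := (one_mul x).symm
      _ = (Ideal.Quotient.mk J r) * (m : 𝓞 K ⧸ J) * ((p : 𝓞 K ⧸ J) * x) := by rw [← h1]; ring
      _ = 0 := by rw [hpx, mul_zero]
  rw [hx0, addOrderOf_zero] at hx
  exact hp.one_lt.ne hx

/-- one step: I * J' is principal with a generator congruent to 1 mod f, J' prime to q -/
theorem H22_step {f : ℕ} (hf : 0 < f) {I : Ideal (𝓞 K)} (hI : Cop f I) {q : ℕ} (hq : 0 < q)
    (hqf : q.Coprime f) :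
    ∃ (α : 𝓞 K) (J : Ideal (𝓞 K)), Ord f α ∧ Cop f (Ideal.span {α}) ∧ Ideal.span {α} = I * J ∧
      Cop f J ∧ IsCoprime J (Ideal.span {(q : 𝓞 K)}) := by
  have hI0 : I ≠ 0 := hI.1
  have hq0 : (q : 𝓞 K) ≠ 0 := Nat.cast_ne_zero.2 hq.ne'
  have hf0 : (f : 𝓞 K) ≠ 0 := Nat.cast_ne_zero.2 hf.ne'
  have hQ0 : Ideal.span {(q : 𝓞 K)} ≠ 0 := by
    rw [Ne, Ideal.zero_eq_bot, Ideal.span_singleton_eq_bot]
    exact hq0
  obtain ⟨a, ha⟩ := IsDedekindDomain.exists_sup_span_eq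
    (I := I * Ideal.span {(q : 𝓞 K)}) (J := I) Ideal.mul_le_left (mul_ne_zero hI0 hQ0)
  have haI : a ∈ I := by
    rw [← ha]
    exact Ideal.mem_sup_right (Ideal.mem_span_singleton_self a)
  have hcop : IsCoprime (I * Ideal.span {(q : 𝓞 K)}) (Ideal.span {(f : 𝓞 K)}) := by
    refine IsCoprime.mul_left hI.2 ?_
    rw [Ideal.isCoprime_span_singleton_iff]
    have h := Nat.Coprime.cast (R := 𝓞 K) hqf
    exact h
  obtain ⟨e2, he2, e1, he1, h12⟩ := Ideal.isCoprime_iff_exists.1 hcop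
  -- the basic element
  have key : ∃ α : 𝓞 K, α ≠ 0 ∧ (f : 𝓞 K) ∣ α - 1 ∧ α - a ∈ I * Ideal.span {(q : 𝓞 K)} := by
    have hb : (f : 𝓞 K) ∣ (a * e1 + e2) - 1 := by
      have e : (a * e1 + e2) - 1 = (a - 1) * e1 := by
        linear_combination h12
      rw [e]
      exact Dvd.dvd.mul_left (Ideal.mem_span_singleton.1 he1) _
    have hb2 : (a * e1 + e2) - a ∈ I * Ideal.span {(q : 𝓞 K)} := by
      have e : (a * e1 + e2) - a = (1 - a) * e2 := by
        linear_combination a * h12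
      rw [e]
      exact Ideal.mul_mem_left _ _ he2
    by_cases h0 : a * e1 + e2 = 0
    · refine ⟨(Ideal.absNorm I : 𝓞 K) * q * f, ?_, ?_, ?_⟩
      · refine mul_ne_zero (mul_ne_zero ?_ hq0) hf0
        rw [Nat.cast_ne_zero, Ne, Ideal.absNorm_eq_zero_iff]
        exact hI.1
      · have hu : (f : 𝓞 K) ∣ 1 := by
          rw [h0, zero_sub, dvd_neg] at hb
          exact hb
        exact hu.trans (one_dvd _)
      · have e : (Ideal.absNorm I : 𝓞 K) * q * f - a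
            = ((Ideal.absNorm I : 𝓞 K) * q) * f + (0 - a) := by ring
        rw [e, ← h0]
        exact Ideal.add_mem _ (Ideal.mul_mem_right _ _ (Ideal.mul_mem_mul (Ideal.absNorm_mem I)
          (Ideal.mem_span_singleton_self _))) hb2
    · exact ⟨_, h0, hb, hb2⟩
  obtain ⟨α, hα0, hα1, hα2⟩ := key
  have hαI : α ∈ I := by
    have e : α = (α - a) + a := by ring
    rw [e]
    exact Ideal.add_mem _ (Ideal.mul_le_left hα2) haI
  have hsup : I * Ideal.span {(q : 𝓞 K)} ⊔ Ideal.span {α} = I := by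
    apply le_antisymm
    · refine sup_le Ideal.mul_le_left ?_
      rw [Ideal.span_singleton_le_iff_mem]
      exact hαI
    · conv_lhs => rw [← ha]
      refine sup_le le_sup_left ?_
      rw [Ideal.span_singleton_le_iff_mem]
      have e : a = -(α - a) + α := by ring
      rw [e]
      exact Ideal.add_mem _ (Ideal.mem_sup_left (Ideal.neg_mem_iff _ |>.2 hα2))
        (Ideal.mem_sup_right (Ideal.mem_span_singleton_self α))
  have hdvd : I ∣ Ideal.span {α} := by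
    rw [Ideal.dvd_iff_le, Ideal.span_singleton_le_iff_mem]
    exact hαI
  obtain ⟨J, hJ⟩ := hdvd
  have hJQ : IsCoprime J (Ideal.span {(q : 𝓞 K)}) := by
    rw [Ideal.isCoprime_iff_sup_eq]
    rw [hJ, ← Ideal.mul_sup] at hsup
    have : I * (Ideal.span {(q : 𝓞 K)} ⊔ J) = I * ⊤ := by rw [hsup, Ideal.mul_top]
    rw [sup_comm]
    exact mul_left_cancel₀ hI0 this
  have hαf : IsCoprime (Ideal.span {α}) (Ideal.span {(f : 𝓞 K)}) := by
    rw [Ideal.isCoprime_span_singleton_iff]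
    obtain ⟨c, hc⟩ := hα1
    exact ⟨1, -c, by
      have e : α = f * c + 1 := by rw [← hc]; ring
      rw [e]; ring⟩
  have hαb : Ideal.span {α} ≠ ⊥ := by
    rw [Ne, Ideal.span_singleton_eq_bot]
    exact hα0
  refine ⟨α, J, ⟨1, by simpa using hα1⟩, ⟨hαb, hαf⟩, hJ, ⟨?_, ?_⟩, hJQ⟩
  · rintro rfl
    exact hαb (by rw [hJ, Ideal.mul_bot])
  · rw [hJ] at hαf
    exact IsCoprime.of_mul_left_right hαf

/-- Row H22. Every ring class contains an ideal prime to q. -/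
theorem exists_cop {f : ℕ} (hf : 0 < f) {I : Ideal (𝓞 K)} (hI : Cop f I) {q : ℕ} (hq : 0 < q) :
    ∃ J : Ideal (𝓞 K), Cop f J ∧ (Ideal.absNorm J).Coprime q ∧ Eqv f I J := by
  classical
  set Q : ℕ := ∏ p ∈ q.primeFactors.filter (fun p => ¬ p ∣ f), p with hQdef
  have hQpos : 0 < Q := by
    refine Finset.prod_pos fun p hp => ?_
    exact (Nat.prime_of_mem_primeFactors (Finset.mem_filter.1 hp).1).pos
  have hQf : Q.Coprime f := by
    refine Nat.Coprime.prod_left fun p hp => ?_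
    rw [Finset.mem_filter] at hp
    exact (Nat.Prime.coprime_iff_not_dvd (Nat.prime_of_mem_primeFactors hp.1)).2 hp.2
  obtain ⟨α, J, hα, hαc, hIJ, hJ, -⟩ := H22_step hf hI hQpos hQf
  obtain ⟨β, L, hβ, hβc, hJL, hL, hLQ⟩ := H22_step hf hJ hQpos hQf
  refine ⟨L, hL, ?_, β, α, hβ, hα, hβc, hαc, ?_⟩
  · have c1 := H22_norm hL.1 hL.2
    have c2 := H22_norm hL.1 hLQ
    rw [Nat.coprime_iff_gcd_eq_one]
    by_contra hg
    obtain ⟨p, hp, hpd⟩ := Nat.exists_prime_and_dvd hg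
    have hpJ : p ∣ Ideal.absNorm L := hpd.trans (Nat.gcd_dvd_left _ _)
    have hpq : p ∣ q := hpd.trans (Nat.gcd_dvd_right _ _)
    by_cases hpf : p ∣ f
    · exact hp.one_lt.ne' (Nat.eq_one_of_dvd_coprimes c1 hpJ hpf)
    · have hpQ : p ∣ Q := Finset.dvd_prod_of_mem _
        (Finset.mem_filter.2 ⟨Nat.mem_primeFactors.2 ⟨hp, hpq, hq.ne'⟩, hpf⟩)
      exact hp.one_lt.ne' (Nat.eq_one_of_dvd_coprimes c2 hpJ hpQ)
  · rw [hIJ, hJL]
    ring

end HC
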