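import Mathlib
import Pool.Agent.Lib.MP_0f5a55_nt.HC.H13
import Pool.Agent.Lib.MP_0f5a55_nt.HC.H17
import Pool.Agent.Lib.MP_0f5a55_nt.HC.H21
import Pool.Agent.Lib.MP_0f5a55_nt.HC.H22
open Complex MeasureTheory Set Filter Topology
open scoped Real ComplexConjugate NumberField

namespace HC

variable {K : Type*} [Field K] [NumberField K]

/-- Twisting by an ideal prime to q. -/
theorem H23_twist [NumberField.IsTotallyComplex K] (h2 : Module.finrank ℚ K = 2) {f : ℕ}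
    {ψ : Ideal (𝓞 K) →*₀ ℂ} (h : RingClass f ψ)
    {T : Finset (Ideal (𝓞 K))} {F : Ideal (𝓞 K) → Fm} (hT : Forms f T F) (u : ℤ) (q : ℕ) (hq : 0 < q)
    {b : Ideal (𝓞 K)} (hb : Cop f b) (hbq : (Ideal.absNorm b).Coprime q) :
    ∑ a ∈ T, conj (ψ a) * (F a).G u q 0 =
      ψ b * ∑ a ∈ T, conj (ψ a) * (F a).G (u * (Ideal.absNorm b : ℤ)) q 0 := by
  classical
  have hf := h.pos
  have hex : ∀ a ∈ T, ∃ a', a' ∈ T ∧ Eqv f (a * b) a' := fun a ha =>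
    (hT.1.2 (a * b) (cop_mul.2 ⟨hT.1.1 a ha, hb⟩)).exists
  choose! σ hσ using hex
  have hmaps : ∀ a ∈ T, σ a ∈ T := fun a ha => (hσ a ha).1
  have hinj : Set.InjOn σ (T : Set (Ideal (𝓞 K))) := by
    intro a ha a' ha' haa
    have ha1 : a ∈ T := ha
    have ha2 : a' ∈ T := ha'
    have e1 := (hσ a ha1).2
    have e2 := (hσ a' ha2).2
    have e3 : Eqv f (a * b) (a' * b) := by
      have haa' : σ a = σ a' := haa
      rw [haa'] at e1
      exact Eqv.trans hf e1 (Eqv.symm e2)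
    have e4 : Eqv f a a' := Eqv.cancel hb e3
    exact (hT.1.2 a (hT.1.1 a ha1)).unique ⟨ha1, Eqv.refl hf a⟩ ⟨ha2, e4⟩
  have hsurj : Set.SurjOn σ (T : Set (Ideal (𝓞 K))) (T : Set (Ideal (𝓞 K))) :=
    Finset.surjOn_of_injOn_of_card_le σ hmaps hinj le_rfl
  rw [Finset.mul_sum]
  refine Finset.sum_nbij σ hmaps hinj hsurj ?_
  intro a ha
  have hE : Eqv f (σ a) (a * b) := Eqv.symm (hσ a ha).2
  rw [G_rel h2 hf (hT.1.1 a ha) (hT.1.1 _ (hmaps a ha)) hb hE (hT.2 a ha).1 (hT.2 a ha).2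
    (hT.2 _ (hmaps a ha)).1 (hT.2 _ (hmaps a ha)).2 hq hbq u]
  have hψ : ψ (σ a) = ψ a * ψ b := by rw [Eqv.char h hE, map_mul]
  have hn : ψ b * conj (ψ b) = 1 := by
    rw [Complex.mul_conj, Complex.normSq_eq_norm_sq, h.cop b hb]; norm_num
  rw [hψ, map_mul]
  calc conj (ψ a) * (F (σ a)).G (u * (Ideal.absNorm b : ℤ)) q 0
      = (ψ b * conj (ψ b)) * (conj (ψ a) * (F (σ a)).G (u * (Ideal.absNorm b : ℤ)) q 0) := by
        rw [hn, one_mul]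
    _ = ψ b * (conj (ψ a) * conj (ψ b) * (F (σ a)).G (u * (Ideal.absNorm b : ℤ)) q 0) := by ring

/-- Row H23. The constant terms at all rationals vanish. -/
theorem cancel [NumberField.IsTotallyComplex K] (h2 : Module.finrank ℚ K = 2) {f : ℕ}
    {ψ : Ideal (𝓞 K) →*₀ ℂ} (h : RingClass f ψ) (hψ : ∃ I, Cop f I ∧ ψ I ^ 2 ≠ 1)
    {T : Finset (Ideal (𝓞 K))} {F : Ideal (𝓞 K) → Fm} (hT : Forms f T F) (u : ℤ) (q : ℕ) (hq : 0 < q)
    (hu : IsCoprime u (q : ℤ)) : ∑ a ∈ T, conj (ψ a) * (F a).G u q 0 = 0 := by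
  have hf := h.pos
  obtain ⟨I₀, hI, hne⟩ := hψ
  obtain ⟨J, hJ, hJq, hE⟩ := exists_cop hf hI hq
  have hψJ : ψ J ^ 2 ≠ 1 := by rw [← Eqv.char h hE]; exact hne
  obtain ⟨c, hc⟩ := exists_conj (K := K) h2
  have hJ' := (cop_iff h2 hf).1 hJ
  have hN0 : Ideal.absNorm J ≠ 0 := by
    intro h0
    exact hJ'.1 (Ideal.absNorm_eq_zero_iff.1 h0)
  have hcJ : Cop f (c J) := by
    rw [cop_iff h2 hf]
    refine ⟨?_, ?_⟩
    · intro h0
      apply hN0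
      rw [← (hc J).1, h0, Ideal.absNorm_bot]
    · rw [(hc J).1]; exact hJ'.2
  have hcop : Cop f (Ideal.span {((Ideal.absNorm J : ℕ) : 𝓞 K)}) := by
    rw [← (hc J).2]; exact cop_mul.2 ⟨hJ, hcJ⟩
  have hOrd : Ord f ((Ideal.absNorm J : ℕ) : 𝓞 K) := ⟨(Ideal.absNorm J : ℕ), by simp⟩
  have h1 : ψ J * ψ (c J) = 1 := by
    rw [← map_mul, (hc J).2]
    exact h.triv _ hOrd hcop
  have s1 := H23_twist h2 h hT u q hq hJ hJq
  have s2 := H23_twist h2 h hT u q hq hcJ (by rw [(hc J).1]; exact hJq)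
  rw [(hc J).1] at s2
  set S := ∑ a ∈ T, conj (ψ a) * (F a).G (u * (Ideal.absNorm J : ℤ)) q 0 with hS
  have h3 : (ψ J ^ 2 - 1) * S = 0 := by
    have e : ψ J * S = ψ (c J) * S := by rw [← s1, ← s2]
    calc (ψ J ^ 2 - 1) * S = ψ J * (ψ J * S) - S := by ring
      _ = ψ J * (ψ (c J) * S) - S := by rw [e]
      _ = (ψ J * ψ (c J)) * S - S := by ring
      _ = 0 := by rw [h1]; ring
  have hS0 : S = 0 := by
    rcases mul_eq_zero.1 h3 with h4 | h4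
    · exact absurd (sub_eq_zero.1 h4) hψJ
    · exact h4
  rw [s1, hS0, mul_zero]

end HC
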