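import Mathlib
import Pool.Agent.Lib.MP_0f5a55_nt.HC.H06
import Pool.Agent.Lib.MP_0f5a55_nt.HC.H07
import Pool.Agent.Lib.MP_0f5a55_nt.HC.H08
import Pool.Agent.Lib.MP_0f5a55_nt.HC.H09
import Pool.Agent.Lib.MP_0f5a55_nt.HC.H10
import Pool.Agent.Lib.MP_0f5a55_nt.HC.H11
import Pool.Agent.Lib.MP_0f5a55_nt.HC.H12
import Pool.Agent.Lib.MP_0f5a55_nt.HC.H13
import Pool.Agent.Lib.MP_0f5a55_nt.HC.H16
import Pool.Agent.Lib.MP_0f5a55_nt.HC.H19
import Pool.Agent.Lib.MP_0f5a55_nt.HC.H20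
import Pool.Agent.Lib.MP_0f5a55_nt.HC.H23
open Complex MeasureTheory Set Filter Topology
open scoped Real ComplexConjugate NumberField

namespace HC

variable {K : Type*} [Field K] [NumberField K]

theorem H24_forms [NumberField.IsTotallyComplex K] (h2 : Module.finrank ℚ K = 2) {f : ℕ} (hf : 0 < f) :
    ∃ (T : Finset (Ideal (𝓞 K))) (F : Ideal (𝓞 K) → Fm), Forms f T F := by
  classical
  obtain ⟨T, hT⟩ := exists_reps (K := K) hf
  have hform : ∀ a : Ideal (𝓞 K), ∃ F : Fm, a ∈ T → FormOf f a F ∧ F.Pos (lev K f) := by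
    intro a
    by_cases ha : a ∈ T
    · obtain ⟨F, h1, h3⟩ := exists_form h2 hf (hT.1 a ha)
      exact ⟨F, fun _ => ⟨h1, h3⟩⟩
    · exact ⟨⟨0, 0, 0⟩, fun h => absurd h ha⟩
  choose F hF using hform
  exact ⟨T, F, hT, fun a ha => hF a ha⟩

theorem H24_lev {f : ℕ} (hf : 0 < f) : 0 < lev K f := by
  unfold lev
  exact Nat.mul_pos (Int.natAbs_pos.2 (NumberField.discr_ne_zero K)) (pow_pos hf 2)

theorem H24_lser {a : ℕ → ℂ} {s l : ℂ} (h : HasSum (fun n : ℕ => a (n + 1) * ((n : ℂ) + 1) ^ (-s)) l) :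
    LSeriesHasSum a s l := by
  unfold LSeriesHasSum
  have h' : HasSum (fun n : ℕ => LSeries.term a s (n + 1)) l := by
    refine h.congr_fun ?_
    intro n
    rw [LSeries.term_of_ne_zero (Nat.succ_ne_zero n), Complex.cpow_neg, div_eq_mul_inv]
    push_cast
    rfl
  have h3 := (hasSum_nat_add_iff (f := LSeries.term a s) 1).1 h'
  simpa using h3

/-- Row H24. The data of a ring class character. -/
theorem dat [NumberField.IsTotallyComplex K] (h2 : Module.finrank ℚ K = 2) {f : ℕ}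
    {ψ : Ideal (𝓞 K) →*₀ ℂ} (h : RingClass f ψ) (hψ : ∃ I, Cop f I ∧ ψ I ^ 2 ≠ 1) :
    ∃ L : ℂ → ℂ, NH.Dat (lev K f) (ac ψ) L ∧ ∀ s : ℂ, 1 < s.re → LSeriesHasSum (ac ψ) s (L s) := by
  classical
  obtain ⟨T, F, hT⟩ := H24_forms h2 h.pos
  have hF : ∀ a ∈ T, (F a).Pos (lev K f) := fun a ha => (hT.2 a ha).2
  have hG : ∀ (u : ℤ) (q : ℕ), 0 < q → IsCoprime u (q : ℤ) →
      ∑ a ∈ T, conj (ψ a) * (F a).G u q 0 = 0 := fun u q hq hu => cancel h2 h hψ hT u q hq hu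
  have hw : ((Nat.card {u : (𝓞 K)ˣ // Ord f (u : 𝓞 K)} : ℕ) : ℂ) ≠ 0 := by
    exact_mod_cast (units_pos h2 f).ne'
  have ha : ∀ n : ℕ, 0 < n → ((Nat.card {u : (𝓞 K)ˣ // Ord f (u : 𝓞 K)} : ℕ) : ℂ) * ac ψ n =
      ∑ a ∈ T, conj (ψ a) * (({v : ℤ × ℤ | (F a).val v = n}.ncard : ℕ) : ℂ) := by
    intro n hn
    by_cases hc : n.Coprime f
    · exact count_cop h2 h hT hn hc
    · rw [count_ncop h2 h hT hn hc, ac_ncop h2 h hn hc, mul_zero]
  have hone := ac_one h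
  have hmul : ∀ m n : ℕ, 0 < m → 0 < n → Nat.Coprime m n → ac ψ (m * n) = ac ψ m * ac ψ n :=
    fun m n hm hn hmn => ac_mul h hm hn hmn
  have hloc := ac_loc h2 h
  have hbd : ∀ n : ℕ, 0 < n → ‖ac ψ n‖ ≤ (n.divisors.card : ℝ) := fun n hn => bd_of hone hmul hloc hn
  have hpt := pt_of hF hG hw ha
  have hms := ms_of_pt hbd hpt
  have hr : ∀ n : ℕ, 0 < n → conj (ac ψ n) = ac ψ n := fun n hn => ac_real h2 h hn
  have hfe : ∃ c : ℂ, ‖c‖ = 1 ∧ ∀ z : ℂ, 0 < z.re →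
      NH.FF (lev K f) (ac ψ) (1 / z) = c * z * conj (NH.FF (lev K f) (ac ψ) (conj z)) := by
    refine ⟨1, by simp, fun z hz => ?_⟩
    rw [one_mul]
    exact fe_of hF hG hw ha hr hz
  obtain ⟨L, hL, hs⟩ := exists_L (H24_lev h.pos) hbd hfe
  refine ⟨L, ⟨H24_lev h.pos, hone, hmul, hloc, hbd, hpt, hms, hfe, hL, fun s h1 => hs s (by linarith),
    fun p hp hd => ?_⟩, fun s h1 => H24_lser (hs s h1)⟩
  rw [ac_inert h2 h p hp hd]
  rfl

end HC
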